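import Pool.Agent.Lib.MP_3755f6_co.Spec

namespace Pool.Agent.Lib.MP_3755f6_co

open Finset MeasureTheory Polynomial Filter Topology

lemma Good.integrable {q : ℝ} {ν : Measure ℝ} (h : Good q ν) {g : ℝ → ℝ} (hg : Continuous g) :
    Integrable g ν := by
  haveI := h.1
  obtain ⟨C, hC⟩ := (isCompact_Icc (a := -q) (b := q)).exists_bound_of_continuousOn
    hg.continuousOn
  refine Integrable.of_bound hg.aestronglyMeasurable C ?_
  filter_upwards [h.2] with x hx
  exact hC x (abs_le.1 hx)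

lemma good_of_moments {q : ℝ} (hq : 0 < q) {ν : Measure ℝ} (h : IsProbabilityMeasure ν)
    (h1 : ∀ n : ℕ, 1 ≤ n → Integrable (fun x : ℝ => x ^ n) ν ∧ ∫ x, x ^ n ∂ν ≤ q ^ n) :
    Good q ν := by
  refine ⟨h, ?_⟩
  have key : ∀ s : ℝ, q < s → ν {x | s ≤ |x|} = 0 := by
    intro s hs
    have hs0 : 0 < s := hq.trans hs
    have hb : ∀ n : ℕ, ν.real {x | s ≤ |x|} ≤ ((q / s) ^ 2) ^ (n + 1) := by
      intro n
      obtain ⟨i1, i2⟩ := h1 (2 * (n + 1)) (by omega)
      have m1 := mul_meas_ge_le_integral_of_nonneg (μ := ν) (f := fun x : ℝ => x ^ (2 * (n + 1)))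
        (Eventually.of_forall fun x => by simp only [Pi.zero_apply]; rw [pow_mul]; positivity) i1
        (s ^ (2 * (n + 1)))
      have m2 : ν.real {x | s ≤ |x|} ≤ ν.real {x | s ^ (2 * (n + 1)) ≤ x ^ (2 * (n + 1))} := by
        refine measureReal_mono fun x hx => ?_
        simp only [Set.mem_setOf_eq] at hx ⊢
        rw [← (even_two_mul (n + 1)).pow_abs x]
        exact pow_le_pow_left₀ hs0.le hx _
      rw [← pow_mul, div_pow, le_div_iff₀ (by positivity)]
      have : 0 < s ^ (2 * (n + 1)) := by positivity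
      nlinarith
    have hlim : Tendsto (fun n : ℕ => ((q / s) ^ 2) ^ (n + 1)) atTop (𝓝 0) := by
      refine (tendsto_pow_atTop_nhds_zero_of_lt_one (by positivity) ?_).comp
        (tendsto_add_atTop_nat 1)
      exact pow_lt_one₀ (by positivity) ((div_lt_one hs0).2 hs) (by norm_num)
    have h0 : ν.real {x | s ≤ |x|} ≤ 0 := ge_of_tendsto' hlim hb
    have h2 : ν.real {x | s ≤ |x|} = 0 := le_antisymm h0 measureReal_nonneg
    rwa [measureReal_eq_zero_iff] at h2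
  rw [ae_iff]
  have : {x : ℝ | ¬ |x| ≤ q} = ⋃ n : ℕ, {x | q + 1 / ((n : ℝ) + 1) ≤ |x|} := by
    ext x
    simp only [Set.mem_setOf_eq, not_le, Set.mem_iUnion]
    constructor
    · intro hx
      obtain ⟨n, hn⟩ := exists_nat_one_div_lt (sub_pos.2 hx)
      exact ⟨n, by linarith⟩
    · rintro ⟨n, hn⟩
      have : (0:ℝ) < 1 / ((n : ℝ) + 1) := by positivity
      linarith
  rw [this]
  refine measure_iUnion_null fun n => key _ ?_
  have : (0:ℝ) < 1 / ((n : ℝ) + 1) := by positivity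
  linarith

lemma Good.moment_le {q : ℝ} {ν : Measure ℝ} (h : Good q ν) (n : ℕ) : ∫ x, x ^ n ∂ν ≤ q ^ n := by
  haveI := h.1
  have : ∫ x, x ^ n ∂ν ≤ ∫ _, q ^ n ∂ν := by
    refine integral_mono_ae (h.integrable (by fun_prop)) (integrable_const _) ?_
    filter_upwards [h.2] with x hx
    exact (le_abs_self _).trans (by rw [abs_pow]; exact pow_le_pow_left₀ (abs_nonneg _) hx _)
  simpa using this

lemma exists_limit {q : ℝ} (hq : 0 ≤ q) (M : ℕ → ℝ)
    (h : ∀ D : ℕ, ∃ ν, Good q ν ∧ ∀ n ≤ D, ∫ x, x ^ n ∂ν = M n) :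
    ∃ ν, Good q ν ∧ ∀ n, ∫ x, x ^ n ∂ν = M n := by
  choose ν h1 h2 using h
  have hle : -q ≤ q := by linarith
  have hm : Measurable (Set.projIcc (-q) q hle) := continuous_projIcc.measurable
  let μ : ℕ → ProbabilityMeasure (Set.Icc (-q) q) := fun D =>
    ⟨(ν D).map (Set.projIcc (-q) q hle), by
      haveI := (h1 D).1
      exact Measure.isProbabilityMeasure_map hm.aemeasurable⟩
  obtain ⟨μ0, -, hμ0⟩ := isCompact_univ.ultrafilter_le_nhds ((hyperfilter ℕ).map μ) (by simp)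
  have ht : Tendsto μ (hyperfilter ℕ) (𝓝 μ0) := hμ0
  rw [ProbabilityMeasure.tendsto_iff_forall_integral_tendsto] at ht
  refine ⟨(μ0 : Measure (Set.Icc (-q) q)).map Subtype.val, ⟨?_, ?_⟩, fun n => ?_⟩
  · exact Measure.isProbabilityMeasure_map measurable_subtype_coe.aemeasurable
  · rw [ae_map_iff measurable_subtype_coe.aemeasurable]
    · exact Eventually.of_forall fun x => abs_le.2 x.2
    · exact measurableSet_le (by fun_prop) measurable_const
  · rw [integral_map measurable_subtype_coe.aemeasurable (by fun_prop)]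
    have h3 := ht (BoundedContinuousFunction.mkOfCompact
      ⟨fun x : Set.Icc (-q) q => (x : ℝ) ^ n, by fun_prop⟩)
    simp only [BoundedContinuousFunction.mkOfCompact_apply, ContinuousMap.coe_mk] at h3
    refine tendsto_nhds_unique h3 (tendsto_const_nhds.congr' ?_)
    have : ∀ᶠ D in (hyperfilter ℕ : Filter ℕ), n ≤ D :=
      (Nat.hyperfilter_le_atTop) (eventually_ge_atTop n)
    filter_upwards [this] with D hD
    rw [← h2 D n hD]
    change _ = ∫ x, (x : ℝ) ^ n ∂((ν D).map (Set.projIcc (-q) q hle))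
    rw [integral_map hm.aemeasurable (by fun_prop)]
    refine integral_congr_ae ?_
    filter_upwards [(h1 D).2] with x hx
    rw [Set.projIcc_of_mem hle (abs_le.1 hx)]

lemma integral_poly_eq {q : ℝ} {ν ν' : Measure ℝ} (h : Good q ν) (h' : Good q ν') {D : ℕ}
    (hm : ∀ n ≤ D, ∫ x, x ^ n ∂ν = ∫ x, x ^ n ∂ν') (p : ℝ[X]) (hp : p.natDegree ≤ D) :
    ∫ x, p.eval x ∂ν = ∫ x, p.eval x ∂ν' := by
  simp only [Polynomial.eval_eq_sum_range]
  rw [integral_finsetSum _ fun i _ => h.integrable (by fun_prop),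
    integral_finsetSum _ fun i _ => h'.integrable (by fun_prop)]
  refine Finset.sum_congr rfl fun i hi => ?_
  rw [integral_const_mul, integral_const_mul, hm i (by have := mem_range.1 hi; omega)]

lemma cheb_lower (s : ℝ) (hs : 0 ≤ s) (n : ℕ) :
    1 + (n : ℝ) ^ 2 * s ≤ (Chebyshev.T ℝ n).eval (1 + s) ∧
    (Chebyshev.T ℝ n).eval (1 + s) + (2 * n + 1) * s ≤ (Chebyshev.T ℝ (n + 1)).eval (1 + s) := by
  induction n with
  | zero => simp
  | succ n ih =>
    have e := Chebyshev.T_add_two ℝ (n : ℤ)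
    have e2 : ((n + 1 : ℕ) : ℤ) + 1 = n + 2 := by push_cast; ring
    have e3 : ((n + 1 : ℕ) : ℤ) = n + 1 := by push_cast; ring
    rw [e2, e, e3]
    simp only [eval_sub, eval_mul, eval_ofNat, eval_X]
    push_cast
    have : 0 ≤ (n : ℝ) := Nat.cast_nonneg n
    constructor
    · nlinarith [ih.1, ih.2]
    · have h1 : 1 ≤ (Chebyshev.T ℝ (n + 1)).eval (1 + s) := by
        nlinarith [ih.1, ih.2, mul_nonneg (sq_nonneg (n:ℝ)) hs, mul_nonneg this hs]
      nlinarith [ih.2, mul_le_mul_of_nonneg_left h1 hs]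

lemma exists_U {q t : ℝ} (hq : 0 < q) (ht : 0 < t) (n : ℕ) (hn : q ≤ n * t) :
    ∃ U : ℝ[X], U.natDegree ≤ 2 * n ∧ ∀ x, |x| ≤ q →
      2 / 3 ≤ U.eval x * (t ^ 2 + x ^ 2) ∧ U.eval x * (t ^ 2 + x ^ 2) ≤ 4 / 3 := by
  set T0 := (Chebyshev.T ℝ n).eval (1 + 2 * t ^ 2 / q ^ 2) with hT0
  have h3 : 3 ≤ T0 := by
    have h1 := (cheb_lower (2 * t ^ 2 / q ^ 2) (by positivity) n).1
    have h2 : 2 ≤ (n : ℝ) ^ 2 * (2 * t ^ 2 / q ^ 2) := by
      rw [← mul_div_assoc, le_div_iff₀ (by positivity)]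
      nlinarith [mul_le_mul hn hn hq.le (hq.le.trans hn)]
    linarith
  set W : ℝ[X] := 1 - C (1 / T0) * (Chebyshev.T ℝ n).comp (1 - C (2 / q ^ 2) * X) with hW
  have hroot : W.IsRoot (-t ^ 2) := by
    simp only [hW, IsRoot, eval_sub, eval_one, eval_mul, eval_C, eval_comp, eval_X]
    rw [show 1 - 2 / q ^ 2 * -t ^ 2 = 1 + 2 * t ^ 2 / q ^ 2 by ring, ← hT0]
    field_simp; ring
  have hdiv := mul_divByMonic_eq_iff_isRoot.2 hroot
  have hdeg : W.natDegree ≤ n := by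
    refine (natDegree_sub_le _ _).trans (max_le (by simp) ?_)
    refine (natDegree_C_mul_le _ _).trans (natDegree_comp_le.trans ?_)
    rw [Chebyshev.natDegree_T, Int.natAbs_natCast]
    have : (1 - C (2 / q ^ 2) * X : ℝ[X]).natDegree ≤ 1 := by compute_degree
    nlinarith
  refine ⟨(W /ₘ (X - C (-t ^ 2))).comp (X ^ 2), ?_, fun x hx => ?_⟩
  · refine natDegree_comp_le.trans ?_
    have := (natDegree_divByMonic W (monic_X_sub_C (-t ^ 2))).le
    rw [natDegree_X_pow]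
    omega
  · have e := congrArg (eval (x ^ 2)) hdiv
    simp only [eval_mul, eval_sub, eval_X, eval_C] at e
    have e2 : eval x ((W /ₘ (X - C (-t ^ 2))).comp (X ^ 2)) * (t ^ 2 + x ^ 2) = W.eval (x ^ 2) := by
      rw [← e, eval_comp, eval_pow, eval_X]; ring
    rw [e2]
    simp only [hW, eval_sub, eval_one, eval_mul, eval_C, eval_comp, eval_X]
    have hx2 : x ^ 2 ≤ q ^ 2 := by rw [← sq_abs]; exact pow_le_pow_left₀ (abs_nonneg _) hx _
    have hx3 : 2 / q ^ 2 * x ^ 2 ≤ 2 := by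
      rw [div_mul_eq_mul_div, div_le_iff₀ (by positivity)]; linarith
    have hx4 : 0 ≤ 2 / q ^ 2 * x ^ 2 := by positivity
    have hb := abs_le.1 (Chebyshev.abs_eval_T_real_le_one n
      (x := 1 - 2 / q ^ 2 * x ^ 2) (abs_le.2 ⟨by linarith, by linarith⟩))
    have k1 : 0 < 1 / T0 := by positivity
    have k2 : 1 / T0 ≤ 1 / 3 := one_div_le_one_div_of_le (by norm_num) h3
    constructor <;> nlinarith [hb.1, hb.2]

lemma compare {q t : ℝ} (hq : 0 < q) (ht : 0 < t) {ν ν' : Measure ℝ} (h : Good q ν)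
    (h' : Good q ν') {D : ℕ} (hm : ∀ n ≤ D, ∫ x, x ^ n ∂ν = ∫ x, x ^ n ∂ν') (n : ℕ)
    (hn : q ≤ n * t) (r : ℝ[X]) (hr : 2 * r.natDegree + 2 * n ≤ D) :
    ∫ x, r.eval x ^ 2 / (t ^ 2 + x ^ 2) ∂ν ≤ 2 * ∫ x, r.eval x ^ 2 / (t ^ 2 + x ^ 2) ∂ν' := by
  obtain ⟨U, hU1, hU2⟩ := exists_U hq ht n hn
  have hc : Continuous fun x : ℝ => r.eval x ^ 2 / (t ^ 2 + x ^ 2) :=
    Continuous.div (by fun_prop) (by fun_prop) fun x => by positivity
  have e := integral_poly_eq h h' hm (r ^ 2 * U) (by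
    refine natDegree_mul_le.trans ?_
    have := natDegree_pow_le (p := r) (n := 2)
    omega)
  have i1 : ∫ x, r.eval x ^ 2 / (t ^ 2 + x ^ 2) ∂ν ≤ ∫ x, 3 / 2 * (r ^ 2 * U).eval x ∂ν := by
    refine integral_mono_ae (h.integrable hc) (h.integrable (by fun_prop)) ?_
    filter_upwards [h.2] with x hx
    rw [div_le_iff₀ (by positivity), eval_mul, eval_pow]
    nlinarith [mul_le_mul_of_nonneg_left (hU2 x hx).1 (sq_nonneg (r.eval x))]
  have i2 : ∫ x, (r ^ 2 * U).eval x ∂ν' ≤ ∫ x, 4 / 3 * (r.eval x ^ 2 / (t ^ 2 + x ^ 2)) ∂ν' := by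
    refine integral_mono_ae (h'.integrable (by fun_prop)) (h'.integrable (by fun_prop)) ?_
    filter_upwards [h'.2] with x hx
    rw [← mul_div_assoc, le_div_iff₀ (by positivity), eval_mul, eval_pow]
    nlinarith [mul_le_mul_of_nonneg_left (hU2 x hx).2 (sq_nonneg (r.eval x))]
  rw [integral_const_mul] at i1 i2
  linarith

lemma atom_le {q t : ℝ} (ht : 0 < t) {ν : Measure ℝ} (h : Good q ν) :
    ν.real {0} ≤ t ^ 2 * ∫ x, 1 / (t ^ 2 + x ^ 2) ∂ν := by
  haveI := h.1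
  have hc : Continuous fun x : ℝ => 1 / (t ^ 2 + x ^ 2) :=
    Continuous.div (by fun_prop) (by fun_prop) fun x => by positivity
  rw [← integral_const_mul, ← integral_indicator_one (measurableSet_singleton 0)]
  refine integral_mono ((integrable_const 1).indicator (measurableSet_singleton 0))
    (h.integrable (by fun_prop)) fun x => ?_
  by_cases hx : x = 0
  · subst hx
    simp [ht.ne']
  · rw [Set.indicator_of_notMem (by simpa using hx)]
    positivity

/-- uniform smallness of the weighted resolvent when the resolvent is bounded -/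
lemma small_tail {q X : ℝ} (hq : 0 < q) {ν : Measure ℝ} (h : Good q ν)
    (hX : ∀ t, 0 < t → ∫ x, 1 / (t ^ 2 + x ^ 2) ∂ν ≤ X) {ε : ℝ} (hε : 0 < ε) :
    ∃ (j : ℕ) (t0 : ℝ), 0 < t0 ∧ ∀ t, 0 < t → t ≤ t0 →
      ∫ x, ((1 - x ^ 2 / q ^ 2) ^ j) ^ 2 / (t ^ 2 + x ^ 2) ∂ν ≤ ε := by
  set I : ℝ → ℝ := fun t => ∫ x, 1 / (t ^ 2 + x ^ 2) ∂ν with hI
  have hbdd : BddAbove (I '' Set.Ioi 0) := ⟨X, by rintro _ ⟨t, ht, rfl⟩; exact hX t ht⟩
  obtain ⟨_, ⟨t1, ht1, rfl⟩, h1⟩ := exists_lt_of_lt_csSup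
    (show (I '' Set.Ioi 0).Nonempty from ⟨I 1, 1, by simp, rfl⟩)
    (show sSup (I '' Set.Ioi 0) - ε / 4 < sSup (I '' Set.Ioi 0) by linarith)
  have ht1 : 0 < t1 := ht1
  have hX0 : 0 ≤ X := le_trans (integral_nonneg fun x => by positivity) (hX 1 one_pos)
  set κ : ℝ := max 0 (1 - t1 ^ 2 / (4 * q ^ 2)) with hκ
  have hκ0 : 0 ≤ κ := le_max_left _ _
  have hκ1 : κ < 1 := max_lt one_pos (by
    have : 0 < t1 ^ 2 / (4 * q ^ 2) := by positivity
    linarith)
  obtain ⟨j, hj⟩ := exists_pow_lt_of_lt_one (show 0 < ε / (2 * (X + 1)) by positivity) hκ1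
  refine ⟨j, t1 / 2, by positivity, fun t ht htt => ?_⟩
  have hc : ∀ s : ℝ, 0 < s → Continuous fun x : ℝ => 1 / (s ^ 2 + x ^ 2) := fun s hs =>
    Continuous.div (by fun_prop) (by fun_prop) fun x => by positivity
  have i1 : ∫ x, ((1 - x ^ 2 / q ^ 2) ^ j) ^ 2 / (t ^ 2 + x ^ 2) ∂ν ≤
      ∫ x, (2 * (1 / (t ^ 2 + x ^ 2) - 1 / (t1 ^ 2 + x ^ 2)) + κ ^ j * (1 / (t ^ 2 + x ^ 2))) ∂ν := by
    have c1 := hc t ht
    have c2 := hc t1 ht1
    refine integral_mono_ae (h.integrable (Continuous.div (by fun_prop) (by fun_prop)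
      fun x => by positivity)) (h.integrable (by fun_prop)) ?_
    filter_upwards [h.2] with x hx
    have hx2 : x ^ 2 ≤ q ^ 2 := by rw [← sq_abs]; exact pow_le_pow_left₀ (abs_nonneg _) hx _
    have b0 : 0 ≤ 1 - x ^ 2 / q ^ 2 := by
      rw [sub_nonneg, div_le_one (by positivity)]; exact hx2
    have b1 : 1 - x ^ 2 / q ^ 2 ≤ 1 := by
      have : 0 ≤ x ^ 2 / q ^ 2 := by positivity
      linarith
    have b2 : ((1 - x ^ 2 / q ^ 2) ^ j) ^ 2 ≤ (1 - x ^ 2 / q ^ 2) ^ j := by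
      have := pow_le_one₀ (n := j) b0 b1
      nlinarith [pow_nonneg b0 j]
    have tt : t ^ 2 ≤ t1 ^ 2 / 4 := by nlinarith
    have d1 : 1 / (t1 ^ 2 + x ^ 2) ≤ 1 / (t ^ 2 + x ^ 2) :=
      one_div_le_one_div_of_le (by positivity) (by nlinarith)
    have d0 : 0 < 1 / (t ^ 2 + x ^ 2) := by positivity
    rw [div_eq_mul_one_div]
    by_cases hs : x ^ 2 ≤ t1 ^ 2 / 4
    · have d2 : 2 * (1 / (t1 ^ 2 + x ^ 2)) ≤ 1 / (t ^ 2 + x ^ 2) := by
        rw [mul_one_div, div_le_div_iff₀ (by positivity) (by positivity)]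
        nlinarith
      have := pow_le_one₀ (n := j) b0 b1
      have := mul_nonneg (pow_nonneg hκ0 j) d0.le
      nlinarith
    · have b3 : 1 - x ^ 2 / q ^ 2 ≤ κ := by
        refine le_trans ?_ (le_max_right _ _)
        have : t1 ^ 2 / (4 * q ^ 2) ≤ x ^ 2 / q ^ 2 := by
          rw [div_le_div_iff₀ (by positivity) (by positivity)]
          nlinarith [sq_pos_of_pos hq]
        linarith
      have b4 := pow_le_pow_left₀ b0 b3 j
      nlinarith
  rw [integral_add (h.integrable (by have := hc t ht; have := hc t1 ht1; fun_prop))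
    (h.integrable (by have := hc t ht; fun_prop)), integral_const_mul, integral_const_mul,
    integral_sub (h.integrable (hc t ht)) (h.integrable (hc t1 ht1))] at i1
  have a1 : I t ≤ sSup (I '' Set.Ioi 0) := le_csSup hbdd ⟨t, ht, rfl⟩
  have a2 := hX t ht
  have a3 : κ ^ j * I t ≤ ε / 2 := by
    rw [lt_div_iff₀ (by positivity)] at hj
    have := mul_le_mul_of_nonneg_left (show I t ≤ X + 1 by simp only [hI]; linarith)
      (pow_nonneg hκ0 j)
    linarith
  simp only [hI] at a1 a3 h1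
  linarith

end Pool.Agent.Lib.MP_3755f6_co
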