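import Mathlib

/-! Definitions for the matching measure of a graph (problem MP_3755f6_co). -/

namespace Pool.Agent.Lib.MP_3755f6_co

open MeasureTheory

/-- Finite paths (no repeated vertices) in `G` starting at `u`.  A path is stored as the list of
its vertices with the LAST vertex first, so the starting vertex `u` is the last list entry. -/
def PathVtx {V : Type*} (G : SimpleGraph V) (u : V) : Type _ :=
  {l : List V // l.IsChain G.Adj ∧ l.Nodup ∧ l.getLast? = some u}

/-- The path tree `T(G,u)`: two paths are adjacent when one is obtained from the other by deleting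
its last vertex (the head of the list). -/
def pathTree {V : Type*} (G : SimpleGraph V) (u : V) : SimpleGraph (PathVtx G u) :=
  SimpleGraph.fromRel (fun P Q => P.1 = Q.1.tail)

/-- The one-vertex path `u`. -/
def rootPath {V : Type*} (G : SimpleGraph V) (u : V) : PathVtx G u :=
  ⟨[u], by simp⟩

/-- The adjacency operator: `(A f)(P)` is the sum of `f` over the neighbours of `P`. -/
noncomputable def adjOp {W : Type*} (T : SimpleGraph W) (f : W → ℝ) : W → ℝ :=
  fun P => ∑ᶠ Q ∈ T.neighborSet P, f Q

/-- The moment `⟨A^n χ_u, χ_u⟩ = (A^n χ_u)(u)` of the adjacency operator of the path tree. -/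
noncomputable def moment {V : Type*} (G : SimpleGraph V) (u : V) (n : ℕ) : ℝ :=
  (adjOp (pathTree G u))^[n] (Set.indicator {rootPath G u} 1) (rootPath G u)

/-- `ν` is the matching measure `ν_{G,u}`: a probability measure on `ℝ` whose `n`-th moment is
`⟨A^n χ_u, χ_u⟩` for all `n ≥ 1`. -/
def IsMatchingMeasure {V : Type*} (G : SimpleGraph V) (u : V) (ν : Measure ℝ) : Prop :=
  IsProbabilityMeasure ν ∧
    ∀ n : ℕ, 1 ≤ n → Integrable (fun x : ℝ => x ^ n) ν ∧ ∫ x, x ^ n ∂ν = moment G u n

/-- `G - u`: the subgraph induced on the vertices other than `u`. -/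
def deleteVertex {V : Type*} (G : SimpleGraph V) (u : V) : SimpleGraph {v : V // v ≠ u} :=
  G.induce {v : V | v ≠ u}

/-- The matching measure `ν_{G,u}` exists and gives no mass to `θ`. -/
def NoAtomAt {V : Type*} (G : SimpleGraph V) (u : V) (θ : ℝ) : Prop :=
  (∃ ν, IsMatchingMeasure G u ν) ∧ ∀ ν, IsMatchingMeasure G u ν → ν {θ} = 0

/-- `u` is `θ`-neutral: `u` is not `θ`-essential (`ν_{G,u}({θ}) = 0`), and
`m_θ(u) = ∑_{v ∼ u} ν_{G-u,v}({θ}) = 0`, i.e. every term of this sum vanishes. -/
def IsNeutral {V : Type*} (G : SimpleGraph V) (θ : ℝ) (u : V) : Prop :=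
  NoAtomAt G u θ ∧ ∀ (v : V) (h : G.Adj u v), NoAtomAt (deleteVertex G u) ⟨v, h.ne'⟩ θ

/-- The lattice `ℤ^d`: two vectors are adjacent iff they differ by `±1` in exactly one
coordinate. -/
def lattice (d : ℕ) : SimpleGraph (Fin d → ℤ) :=
  SimpleGraph.fromRel (fun x y => ∃ i : Fin d, y = x + Pi.single i 1)

end Pool.Agent.Lib.MP_3755f6_co
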