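import Pool.Agent.Lib.MP_3755f6_co.Fin

namespace Pool.Agent.Lib.MP_3755f6_co

open Finset Complex

variable {V E : Type*} [DecidableEq V] [Fintype E] [DecidableEq E]

/-- incidence coefficients of an oriented multigraph -/
def kap (src tgt : E → V) (x : V) (e : E) : ℝ :=
  (if src e = x then 1 else 0) - (if tgt e = x then 1 else 0)

/-- real value of a sign -/
def sv (η : E → ℤˣ) (e : E) : ℝ := ((η e : ℤ) : ℝ)

/-- linear functional of the signs -/
def lin (h : E → ℝ) (η : E → ℤˣ) : ℝ := ∑ e, h e * sv η e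

/-- vertex factor -/
noncomputable def fac (src tgt : E → V) (t : ℝ) (η : E → ℤˣ) (x : V) : ℂ :=
  t + I * (lin (kap src tgt x) η : ℝ)

/-- product of the vertex factors -/
noncomputable def PP (src tgt : E → V) (t : ℝ) (S : Finset V) (η : E → ℤˣ) : ℂ :=
  ∏ x ∈ S, fac src tgt t η x

/-- flip one sign -/
def flp (e : E) (η : E → ℤˣ) : E → ℤˣ := Function.update η e (-η e)

omit [Fintype E] [DecidableEq E] in
lemma sv_sq (η : E → ℤˣ) (e : E) : sv η e ^ 2 = 1 := by
  unfold sv
  rcases Int.units_eq_one_or (η e) with h | h <;> simp [h]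

omit [Fintype E] in
lemma sv_flp_self (η : E → ℤˣ) (e : E) : sv (flp e η) e = -sv η e := by
  simp [sv, flp]

omit [Fintype E] in
lemma sv_flp_ne (η : E → ℤˣ) {e e' : E} (h : e' ≠ e) : sv (flp e η) e' = sv η e' := by
  simp [sv, flp, h]

lemma lin_flp (h : E → ℝ) (η : E → ℤˣ) (e : E) : lin h (flp e η) = lin h η - 2 * h e * sv η e := by
  unfold lin
  rw [← Finset.add_sum_erase _ _ (mem_univ e), ← Finset.add_sum_erase _ _ (mem_univ e), sv_flp_self,
    Finset.sum_congr rfl fun e' he' => by rw [sv_flp_ne η (mem_erase.1 he').1]]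
  ring

lemma sum_flp (e : E) (f : (E → ℤˣ) → ℂ) : ∑ η, f (flp e η) = ∑ η, f η := by
  have : Function.Involutive (flp e) := by
    intro η
    ext e'
    by_cases h : e' = e
    · subst h; simp [flp]
    · simp [flp, h]
  exact Equiv.sum_comp this.toPerm f

lemma odd_zero (e : E) (g : (E → ℤˣ) → ℂ) (hg : ∀ η, g (flp e η) = g η) :
    ∑ η, (sv η e : ℂ) * g η = 0 := by
  have := sum_flp e (fun η => (sv η e : ℂ) * g η)
  simp only [sv_flp_self, hg, ofReal_neg, neg_mul, Finset.sum_neg_distrib] at this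
  linear_combination (-1 / 2 : ℂ) * this

lemma fac_flp (src tgt : E → V) (t : ℝ) (η : E → ℤˣ) (x : V) (e : E) :
    fac src tgt t (flp e η) x = fac src tgt t η x - 2 * I * kap src tgt x e * sv η e := by
  simp only [fac, lin_flp]; push_cast; ring

lemma ibp (src tgt : E → V) (t : ℝ) (e : E) (he : src e ≠ tgt e) (g : (E → ℤˣ) → ℂ)
    (hg : ∀ η, g (flp e η) = g η) (S : Finset V) :
    ∑ η, (sv η e : ℂ) * g η * PP src tgt t S η =
      I * ∑ x ∈ S, kap src tgt x e * ∑ η, g η * PP src tgt t (S.erase x) η := by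
  set a := src e with ha
  set b := tgt e with hb
  set P := PP src tgt t ((S.erase a).erase b) with hP
  set u : (E → ℤˣ) → ℂ := fun η => if a ∈ S then fac src tgt t η a else 1 with hu
  set w : (E → ℤˣ) → ℂ := fun η => if b ∈ S then fac src tgt t η b else 1 with hw
  set α : ℂ := if a ∈ S then 1 else 0 with hα
  set β : ℂ := if b ∈ S then 1 else 0 with hβ
  have p1 : ∀ η, P (flp e η) = P η := by
    intro η
    refine Finset.prod_congr rfl fun x hx => ?_
    simp only [mem_erase] at hx
    rw [fac_flp, kap, if_neg (Ne.symm hx.2.1), if_neg (Ne.symm hx.1)]; simp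
  have p2 : ∀ η, u (flp e η) = u η - 2 * I * α * sv η e := by
    intro η
    simp only [hu, hα]
    split_ifs
    · rw [fac_flp, kap, if_pos rfl, if_neg (Ne.symm he)]; simp
    · simp
  have p3 : ∀ η, w (flp e η) = w η + 2 * I * β * sv η e := by
    intro η
    simp only [hw, hβ]
    split_ifs
    · rw [fac_flp, kap, if_neg he, if_pos rfl]; simp
    · simp
  have gen : ∀ (T : Finset V) (x : V) (η : E → ℤˣ), PP src tgt t T η =
      (if x ∈ T then fac src tgt t η x else 1) * PP src tgt t (T.erase x) η := by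
    intro T x η
    split_ifs with h
    · exact (Finset.mul_prod_erase T _ h).symm
    · rw [erase_eq_of_notMem h, one_mul]
  have q1 : ∀ η, PP src tgt t (S.erase a) η = w η * P η := by
    intro η
    rw [gen _ b]; simp only [hw, hP, mem_erase, ne_eq, Ne.symm he, not_false_eq_true, true_and]
  have q2 : ∀ η, PP src tgt t (S.erase b) η = u η * P η := by
    intro η
    rw [gen _ a, Finset.erase_right_comm]
    simp only [hu, hP, mem_erase, ne_eq, he, not_false_eq_true, true_and]
  have q3 : ∀ η, PP src tgt t S η = u η * (w η * P η) := by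
    intro η
    rw [gen _ a, q1]
  have r1 : ∑ x ∈ S, (kap src tgt x e : ℂ) * ∑ η, g η * PP src tgt t (S.erase x) η =
      α * ∑ η, g η * (w η * P η) - β * ∑ η, g η * (u η * P η) := by
    simp only [kap, ← ha, ← hb]
    push_cast
    simp only [apply_ite ofReal, ofReal_one, ofReal_zero, sub_mul, Finset.sum_sub_distrib, ite_mul,
      one_mul, zero_mul, Finset.sum_ite_eq, q1, q2, hα, hβ]
  rw [r1]
  simp only [q3]
  have s1 := sum_flp e (fun η => (sv η e : ℂ) * g η * (u η * (w η * P η)))
  have s2 := odd_zero e (fun η => g η * P η) (fun η => by rw [hg, p1])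
  have s3 : ∀ η, (sv (flp e η) e : ℂ) * g (flp e η) * (u (flp e η) * (w (flp e η) * P (flp e η))) =
      -((sv η e : ℂ) * g η * (u η * (w η * P η))) + 2 * I * α * (g η * (w η * P η))
        - 2 * I * β * (g η * (u η * P η)) - 4 * α * β * (sv η e * (g η * P η)) := by
    intro η
    rw [sv_flp_self, hg, p1, p2, p3]
    have h1 : (sv η e : ℂ) ^ 2 = 1 := by exact_mod_cast sv_sq η e
    push_cast
    linear_combination (2 * I * α * g η * w η * P η - 2 * I * β * g η * u η * P η
      + 4 * I ^ 2 * α * β * sv η e * g η * P η) * h1 + (4 * α * β * sv η e * g η * P η) * I_sq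
  simp only [s3, Finset.sum_sub_distrib, Finset.sum_add_distrib, Finset.sum_neg_distrib,
    ← Finset.mul_sum] at s1
  rw [s2] at s1
  linear_combination (-1 / 2 : ℂ) * s1

/-- the monomer-dimer partition function as an average over signs -/
noncomputable def Zc (src tgt : E → V) (t : ℝ) (S : Finset V) : ℂ :=
  (∑ η, PP src tgt t S η) / Fintype.card (E → ℤˣ)

/-- real version -/
noncomputable def ZZ (src tgt : E → V) (t : ℝ) (S : Finset V) : ℝ := (Zc src tgt t S).re

/-- the oriented multigraph represents the neighbourhood structure `nb` -/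
def Rep (src tgt : E → V) (nb : V → Finset V) : Prop :=
  (∀ e, src e ≠ tgt e) ∧ ∀ x y, x ≠ y →
    ∑ e, kap src tgt x e * kap src tgt y e = if y ∈ nb x then -1 else 0

lemma card_ne : (Fintype.card (E → ℤˣ) : ℂ) ≠ 0 := by
  exact_mod_cast Fintype.card_ne_zero

lemma Zc_rec {src tgt : E → V} {nb : V → Finset V} (h : Rep src tgt nb) (t : ℝ) (S : Finset V)
    (x : V) (hx : x ∈ S) : Zc src tgt t S = t * Zc src tgt t (S.erase x) +
      ∑ w ∈ nb x ∩ S.erase x, Zc src tgt t ((S.erase x).erase w) := by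
  unfold Zc
  rw [← Finset.sum_div, ← mul_div_assoc, ← add_div]
  congr 1
  have e1 : ∀ η, PP src tgt t S η = t * PP src tgt t (S.erase x) η +
      I * ∑ e, kap src tgt x e * ((sv η e : ℂ) * 1 * PP src tgt t (S.erase x) η) := by
    intro η
    rw [PP, ← Finset.mul_prod_erase S _ hx, fac, lin, ← PP]
    push_cast
    rw [add_mul, mul_assoc, Finset.sum_mul]
    congr 2
    exact Finset.sum_congr rfl fun e _ => by ring
  simp only [e1, Finset.sum_add_distrib, ← Finset.mul_sum]
  congr 1
  rw [Finset.sum_comm]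
  simp only [← Finset.mul_sum]
  rw [Finset.sum_congr rfl fun e _ => by
    rw [ibp src tgt t e (h.1 e) (fun _ => 1) (fun _ => rfl) (S.erase x)]]
  simp only [one_mul, Finset.mul_sum (S.erase x)]
  rw [Finset.sum_comm, Finset.mul_sum, inter_comm, ← Finset.sum_ite_mem]
  refine Finset.sum_congr rfl fun y hy => ?_
  have h2 : ∑ e, (kap src tgt x e : ℂ) * kap src tgt y e = if y ∈ nb x then -1 else 0 := by
    have := h.2 x y (mem_erase.1 hy).1.symm
    split_ifs at this ⊢ <;> exact_mod_cast this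
  have h3 : ∑ e, (kap src tgt x e : ℂ) * (I * (kap src tgt y e *
      ∑ η, PP src tgt t ((S.erase x).erase y) η)) = I * (∑ e, (kap src tgt x e : ℂ) *
        kap src tgt y e) * ∑ η, PP src tgt t ((S.erase x).erase y) η := by
    rw [Finset.mul_sum univ _ I, Finset.sum_mul]
    exact Finset.sum_congr rfl fun e _ => by ring
  rw [h3, h2]
  split_ifs
  · linear_combination (-∑ η, PP src tgt t ((S.erase x).erase y) η) * I_sq
  · simp

lemma Zc_empty (src tgt : E → V) (t : ℝ) : Zc src tgt t ∅ = 1 := by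
  simp only [Zc, PP, Finset.prod_empty, Finset.sum_const, card_univ, nsmul_eq_mul, mul_one]
  exact div_self card_ne

lemma isZ_ZZ {src tgt : E → V} {nb : V → Finset V} (h : Rep src tgt nb) (t : ℝ) :
    IsZ nb t (ZZ src tgt t) := by
  refine ⟨by simp [ZZ, Zc_empty], fun S x hx => ?_⟩
  simp only [ZZ]
  rw [Zc_rec h t S x hx]
  simp

lemma Zc_eq {src tgt : E → V} {nb : V → Finset V} (h : Rep src tgt nb) (t : ℝ) (S : Finset V) :
    Zc src tgt t S = ZZ src tgt t S := by
  induction S using Finset.strongInduction with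
  | H S ih =>
    rcases S.eq_empty_or_nonempty with rfl | ⟨x, hx⟩
    · simp [ZZ, Zc_empty]
    · rw [(isZ_ZZ h t).2 S x hx, Zc_rec h t S x hx, ih _ (erase_ssubset hx)]
      push_cast
      congr 1
      exact Finset.sum_congr rfl fun w _ =>
        ih _ ((erase_subset _ _).trans_ssubset (erase_ssubset hx))

lemma sum_PP {src tgt : E → V} {nb : V → Finset V} (h : Rep src tgt nb) (t : ℝ) (S : Finset V) :
    ∑ η, PP src tgt t S η = Fintype.card (E → ℤˣ) * ZZ src tgt t S := by
  rw [← Zc_eq h, Zc, mul_div_cancel₀ _ card_ne]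

lemma ZZ_expand (src tgt : E → V) (t : ℝ) (S : Finset V) :
    ZZ src tgt t S = ∑ T ∈ S.powerset, t ^ T.card * ZZ src tgt 0 (S \ T) := by
  have : Zc src tgt t S = ∑ T ∈ S.powerset, (t ^ T.card : ℝ) * Zc src tgt 0 (S \ T) := by
    simp only [Zc, PP, fac, ofReal_zero, zero_add]
    simp only [Finset.prod_add, ← mul_div_assoc]
    rw [← Finset.sum_div, Finset.sum_comm]
    congr 1
    refine Finset.sum_congr rfl fun T _ => ?_
    rw [Finset.mul_sum]
    simp
  simp only [ZZ, this, re_sum, re_ofReal_mul]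

lemma one_point (W : Finset V → ℝ) (t : ℝ) (S : Finset V) (x : V) (hx : x ∈ S)
    (G : Finset V → ℝ) :
    ∑ T ∈ S.powerset, (if x ∈ T then G T else 0) * (t ^ T.card * W (S \ T)) =
      t * ∑ T ∈ (S.erase x).powerset, G (insert x T) * (t ^ T.card * W (S.erase x \ T)) := by
  conv_lhs => rw [← insert_erase hx]
  rw [Finset.sum_powerset_insert (notMem_erase x S), Finset.sum_eq_zero, zero_add, Finset.mul_sum]
  · refine Finset.sum_congr rfl fun T hT => ?_
    have hxT : x ∉ T := fun h => notMem_erase x S (mem_powerset.1 hT h)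
    rw [if_pos (mem_insert_self _ _), card_insert_of_notMem hxT, insert_erase hx]
    have : S \ insert x T = S.erase x \ T := by ext y; simp; tauto
    rw [this]; ring
  · intro T hT
    rw [if_neg fun h => notMem_erase x S (mem_powerset.1 hT h), zero_mul]

lemma one_point' (src tgt : E → V) (t : ℝ) (S : Finset V) (x : V) (hx : x ∈ S) :
    ∑ T ∈ S.powerset, (if x ∈ T then 1 else 0) * (t ^ T.card * ZZ src tgt 0 (S \ T)) =
      t * ZZ src tgt t (S.erase x) := by
  rw [one_point _ t S x hx (fun _ => 1), ZZ_expand src tgt t (S.erase x)]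
  simp

lemma two_point (src tgt : E → V) (t : ℝ) (S : Finset V) (x y : V) (hx : x ∈ S) (hy : y ∈ S)
    (hxy : x ≠ y) :
    ∑ T ∈ S.powerset, (if x ∈ T then (if y ∈ T then 1 else 0) else 0) *
      (t ^ T.card * ZZ src tgt 0 (S \ T)) = t ^ 2 * ZZ src tgt t ((S.erase x).erase y) := by
  rw [one_point _ t S x hx (fun T => if y ∈ T then 1 else 0)]
  simp only [mem_insert, hxy.symm, false_or]
  rw [one_point' src tgt t _ y (mem_erase.2 ⟨hxy.symm, hy⟩)]
  ring

lemma density_bound {src tgt : E → V} {nb : V → Finset V} (h : Rep src tgt nb) (q : ℕ)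
    (hq : ∀ x, (nb x).card ≤ q) {t : ℝ} (ht : 0 < t) (S : Finset V) (hS : 1 ≤ ZZ src tgt t S) :
    (∑ x ∈ S, t * ZZ src tgt t (S.erase x) / ZZ src tgt t S) * (-Real.log t) ≤
      S.card * Real.log (q + 1) := by
  set k := ∑ x ∈ S, t * ZZ src tgt t (S.erase x) / ZZ src tgt t S with hk
  set c := -Real.log t with hc
  have hZ : 0 < ZZ src tgt t S := by linarith
  have e1 : ∑ T ∈ S.powerset, (T.card : ℝ) * (t ^ T.card * ZZ src tgt 0 (S \ T)) =
      k * ZZ src tgt t S := by
    rw [hk, ← Finset.sum_div, div_mul_cancel₀ _ hZ.ne',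
      ← Finset.sum_congr rfl fun x hx => one_point' src tgt t S x hx, Finset.sum_comm]
    refine Finset.sum_congr rfl fun T hT => ?_
    rw [← Finset.sum_mul, Finset.sum_ite_mem, inter_eq_right.2 (mem_powerset.1 hT)]
    simp
  have e2 : Real.exp (k * c) * ZZ src tgt t S ≤ ZZ src tgt 1 S := by
    have : Real.exp (k * c) * ZZ src tgt t S = ∑ T ∈ S.powerset, Real.exp (k * c) *
        (1 + (T.card - k) * c) * (t ^ T.card * ZZ src tgt 0 (S \ T)) := by
      have e3 : ∀ T : Finset V, Real.exp (k * c) * (1 + (T.card - k) * c) *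
          (t ^ T.card * ZZ src tgt 0 (S \ T)) = Real.exp (k * c) * (1 - k * c) *
          (t ^ T.card * ZZ src tgt 0 (S \ T)) + Real.exp (k * c) * c *
          ((T.card : ℝ) * (t ^ T.card * ZZ src tgt 0 (S \ T))) := fun T => by ring
      simp only [e3, Finset.sum_add_distrib, ← Finset.mul_sum]
      rw [e1, ← ZZ_expand]; ring
    rw [this, ZZ_expand src tgt 1 S]
    refine Finset.sum_le_sum fun T _ => ?_
    have h0 := (isZ_ZZ h 0).nonneg le_rfl (S \ T)
    rw [← mul_assoc]
    refine mul_le_mul_of_nonneg_right ?_ h0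
    have a1 := Real.add_one_le_exp ((T.card - k) * c)
    have a2 : Real.exp (k * c) * Real.exp ((T.card - k) * c) * t ^ T.card = 1 := by
      rw [← Real.exp_add, show k * c + (T.card - k) * c = T.card * c by ring, Real.exp_nat_mul, hc,
        Real.exp_neg, Real.exp_log ht, ← mul_pow, inv_mul_cancel₀ ht.ne', one_pow]
    rw [one_pow, ← a2]
    have := Real.exp_pos (k * c)
    gcongr
    linarith
  have e3 := (isZ_ZZ h 1).le_pow q hq S
  have e4 : Real.exp (k * c) ≤ (q + 1 : ℝ) ^ S.card := by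
    nlinarith [Real.exp_pos (k * c)]
  rw [← Real.log_pow, Real.le_log_iff_exp_le (by positivity)]
  exact e4

lemma parity_bound {src tgt : E → V} {nb : V → Finset V} (h : Rep src tgt nb) {t : ℝ} (ht : 0 ≤ t)
    (S : Finset V) (hS : Odd S.card) (σ : V → ℤ) (hσ : ∀ x, Odd (σ x)) :
    ZZ src tgt t S ≤ ∑ x ∈ S, ∑ y ∈ S, (σ x : ℝ) * σ y *
      (if x = y then t * ZZ src tgt t (S.erase x)
        else t ^ 2 * ZZ src tgt t ((S.erase x).erase y)) := by
  have e1 : ∀ x ∈ S, ∀ y ∈ S, (if x = y then t * ZZ src tgt t (S.erase x)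
        else t ^ 2 * ZZ src tgt t ((S.erase x).erase y)) =
      ∑ T ∈ S.powerset, (if x ∈ T then (if y ∈ T then 1 else 0) else 0) *
        (t ^ T.card * ZZ src tgt 0 (S \ T)) := by
    intro x hx y hy
    split_ifs with hxy
    · subst hxy
      rw [← one_point' src tgt t S x hx]
      refine Finset.sum_congr rfl fun T _ => ?_
      split_ifs <;> rfl
    · rw [two_point src tgt t S x y hx hy hxy]
  rw [Finset.sum_congr rfl fun x hx => Finset.sum_congr rfl fun y hy => by rw [e1 x hx y hy]]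
  simp only [Finset.mul_sum]
  rw [Finset.sum_congr rfl fun x _ => Finset.sum_comm, Finset.sum_comm, ZZ_expand src tgt t S]
  refine Finset.sum_le_sum fun T hT => ?_
  have hT' := mem_powerset.1 hT
  have e2 : ∑ x ∈ S, ∑ y ∈ S, (σ x : ℝ) * σ y * ((if x ∈ T then (if y ∈ T then 1 else 0) else 0) *
      (t ^ T.card * ZZ src tgt 0 (S \ T))) =
      ((∑ x ∈ T, σ x : ℤ) : ℝ) ^ 2 * (t ^ T.card * ZZ src tgt 0 (S \ T)) := by
    have : ((∑ x ∈ T, σ x : ℤ) : ℝ) = ∑ x ∈ S, if x ∈ T then (σ x : ℝ) else 0 := by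
      rw [Finset.sum_ite_mem, inter_eq_right.2 hT']; push_cast; rfl
    rw [this, sq, Finset.sum_mul_sum, Finset.sum_mul]
    refine Finset.sum_congr rfl fun x _ => ?_
    rw [Finset.sum_mul]
    refine Finset.sum_congr rfl fun y _ => ?_
    split_ifs <;> simp
  rw [e2]
  by_cases hodd : Odd T.card
  · have o1 : Odd (∑ x ∈ T, σ x) := by
      have : Even (∑ x ∈ T, (σ x - 1)) := Finset.even_sum _ fun x _ => (hσ x).sub_odd odd_one
      rw [Finset.sum_sub_distrib] at this
      have h2 : Odd (∑ _x ∈ T, (1 : ℤ)) := by simpa using hodd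
      simpa using this.add_odd h2
    have o2 : (1 : ℤ) ≤ (∑ x ∈ T, σ x) ^ 2 := by
      have : (∑ x ∈ T, σ x) ≠ 0 := by
        intro h0; rw [h0] at o1; exact absurd o1 (by decide)
      have := sq_pos_of_ne_zero this
      omega
    have o3 : (1 : ℝ) ≤ ((∑ x ∈ T, σ x : ℤ) : ℝ) ^ 2 := by exact_mod_cast o2
    have o4 : 0 ≤ t ^ T.card * ZZ src tgt 0 (S \ T) :=
      mul_nonneg (pow_nonneg ht _) ((isZ_ZZ h 0).nonneg le_rfl _)
    nlinarith
  · rw [(isZ_ZZ h 0).odd (S \ T)]
    · simp
    · rw [card_sdiff_of_subset hT']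
      exact Nat.Odd.sub_even (card_le_card hT') hS (Nat.not_odd_iff_even.1 hodd)

end Pool.Agent.Lib.MP_3755f6_co
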