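import Pool.Agent.Lib.MP_3755f6_co.Defs

/-! Extended states of a measure on the real line (problem MP_3755f6_co, second question). -/

namespace Pool.Agent.Lib.MP_3755f6_co

open MeasureTheory

/-- `ν` has no extended states at `x₀`:
`(1 / δ) (ν [x₀ - δ, x₀ + δ] - ν {x₀})` tends to `0` as `δ → 0⁺`. -/
def NoExtendedStates (ν : Measure ℝ) (x₀ : ℝ) : Prop :=
  Filter.Tendsto
    (fun δ : ℝ => (1 / δ) * (ν.real (Set.Icc (x₀ - δ) (x₀ + δ)) - ν.real {x₀}))
    (nhdsWithin 0 (Set.Ioi 0)) (nhds 0)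

/-- `ν` has extended states at `x₀`: the above quantity has no limit or a nonzero limit. -/
def HasExtendedStates (ν : Measure ℝ) (x₀ : ℝ) : Prop := ¬ NoExtendedStates ν x₀

end Pool.Agent.Lib.MP_3755f6_co
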