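import Pool.Agent.Lib.MP_3755f6_co.ExtIR

/-! A unit flow whose energy is strictly below the critical value, in every dimension `d ≥ 3`. -/

namespace Pool.Agent.Lib.MP_3755f6_co

open Finset

lemma sum_PL1 (F : (Fin 3 → ℕ) → ℝ) :
    ∑ x ∈ PL 3 1, F x = F ![0, 0, 1] + F ![0, 1, 0] + F ![1, 0, 0] := by
  have : PL 3 1 = {![0, 0, 1], ![0, 1, 0], ![1, 0, 0]} := by decide
  rw [this, sum_insert (by decide), sum_insert (by decide), sum_singleton, add_assoc]

lemma sum_PL2 (F : (Fin 3 → ℕ) → ℝ) :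
    ∑ x ∈ PL 3 2, F x = F ![0, 0, 2] + F ![0, 1, 1] + F ![0, 2, 0] + F ![1, 0, 1] +
      F ![1, 1, 0] + F ![2, 0, 0] := by
  have : PL 3 2 = {![0, 0, 2], ![0, 1, 1], ![0, 2, 0], ![1, 0, 1], ![1, 1, 0], ![2, 0, 0]} := by
    decide
  rw [this, sum_insert (by decide), sum_insert (by decide), sum_insert (by decide),
    sum_insert (by decide), sum_insert (by decide), sum_singleton]
  ring

/-- a circulation around six plaquettes -/
noncomputable def cir (k : ℕ) (x : Fin 3 → ℕ) (i : Fin 3) : ℝ :=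
  if k = 1 then (if x i = 1 then -2 / 100 else 1 / 100)
  else if k = 2 then
    (if x i = 1 then 1 / 100 else if x i = 0 ∧ (x 0 = 2 ∨ x 1 = 2 ∨ x 2 = 2) then -1 / 100 else 0)
  else 0

lemma sum_two {n : ℕ} (hn : 3 ≤ n) (F : ℕ → ℝ) (h : ∀ k, k ≠ 1 → k ≠ 2 → F k = 0) :
    ∑ k ∈ range n, F k = F 1 + F 2 := by
  rw [← sum_pair (by decide : (1 : ℕ) ≠ 2)]
  refine (sum_subset (fun k hk => ?_) fun k _ hk => ?_).symm
  · simp only [mem_insert, mem_singleton] at hk
    rw [mem_range]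
    omega
  · simp only [mem_insert, mem_singleton, not_or] at hk
    exact h k hk.1 hk.2

lemma vec_add0 (a b c : ℕ) : (![a, b, c] + Pi.single 0 1 : Fin 3 → ℕ) = ![a + 1, b, c] := by
  ext i; fin_cases i <;> simp

lemma vec_add1 (a b c : ℕ) : (![a, b, c] + Pi.single 1 1 : Fin 3 → ℕ) = ![a, b + 1, c] := by
  ext i; fin_cases i <;> simp

lemma vec_add2 (a b c : ℕ) : (![a, b, c] + Pi.single 2 1 : Fin 3 → ℕ) = ![a, b, c + 1] := by
  ext i; fin_cases i <;> simp

lemma cir_div {n : ℕ} (hn : 3 ≤ n) (g : (Fin 3 → ℕ) → ℝ) :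
    ∑ k ∈ range n, ∑ x ∈ PL 3 k, ∑ i, cir k x i * (g x - g (x + Pi.single i 1)) = 0 := by
  rw [sum_two hn _ fun k h1 h2 => by simp [cir, h1, h2], sum_PL1, sum_PL2]
  simp only [Fin.sum_univ_three, vec_add0, vec_add1, vec_add2]
  simp [cir]
  ring

lemma NL_three_one : NL 3 1 = 3 := by
  have := NL_succ (d := 3) 0
  rw [NL_zero] at this
  norm_num at this
  exact this

lemma NL_three_two : NL 3 2 = 6 := by
  have := NL_succ (d := 3) 1
  rw [NL_three_one] at this
  norm_num at this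
  linarith

lemma cir_energy {n : ℕ} (hn : 3 ≤ n) (i : Fin 3) :
    ∑ k ∈ range n, ∑ x ∈ PL 3 k, (2 * th 3 k x i * cir k x i + cir k x i ^ 2) = -1 / 1000 := by
  rw [sum_two hn _ fun k h1 h2 => by simp [cir, h1, h2], sum_PL1, sum_PL2]
  fin_cases i <;> simp [cir, th, NL_three_one, NL_three_two] <;> norm_num

theorem flow_exists {d : ℕ} (hd : 3 ≤ d) : ∃ γ : ℝ, 0 ≤ γ ∧ γ * (d - 1) < 1 / 2 ∧ ∀ n, 3 ≤ n →
    ∃ f, IsFlow d n f ∧ ∀ i, ∑ k ∈ range n, ∑ x ∈ PL d k, f k x i ^ 2 ≤ γ := by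
  have hd' : (3 : ℝ) ≤ d := by exact_mod_cast hd
  have en : ∀ (n : ℕ) (i : Fin d), ∑ k ∈ range n, ∑ x ∈ PL d k, th d k x i ^ 2 ≤
      (1 + 2 / ((d + 1) * (d - 2))) / (d - 1) / d := by
    intro n i
    have h1 := energy hd i n
    have h2 := NL_pos (by omega : 0 < d) n
    have h3 : (0 : ℝ) < d - 1 := by linarith
    have h4 : (0 : ℝ) < d - 2 := by linarith
    have h5 : 0 ≤ (2 / ((d + 1) * (d - 2)) * n + (1 + 2 / ((d + 1) * (d - 2))) / (d - 1)) /
        NL d n := by positivity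
    rw [le_div_iff₀ (by linarith)]
    linarith
  rcases hd.eq_or_lt with rfl | hd4
  · refine ⟨249 / 1000, by norm_num, by norm_num, fun n hn =>
      ⟨fun k x i => th 3 k x i + cir k x i, fun g => ?_, fun i => ?_⟩⟩
    · simp only [add_mul, sum_add_distrib]
      rw [telescope (by omega) n g, cir_div hn g, add_zero]
    · have h1 := en n i
      have h2 := cir_energy hn i
      have h3 : ∀ k x, (th 3 k x i + cir k x i) ^ 2 =
          th 3 k x i ^ 2 + (2 * th 3 k x i * cir k x i + cir k x i ^ 2) := fun k x => by ring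
      simp only [h3]
      rw [sum_congr rfl fun k _ => sum_add_distrib, sum_add_distrib, h2]
      norm_num at h1
      linarith
  · have hd4' : (4 : ℝ) ≤ d := by exact_mod_cast hd4
    have h3 : (0 : ℝ) < d - 1 := by linarith
    have h4 : (0 : ℝ) < d - 2 := by linarith
    refine ⟨_, by positivity, ?_, fun n _ => ⟨th d, telescope (by omega) n, en n⟩⟩
    have h5 : (2 : ℝ) / ((d + 1) * (d - 2)) ≤ 1 / 2 := by
      rw [div_le_div_iff₀ (by positivity) (by norm_num)]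
      nlinarith
    rw [show (1 + 2 / ((d + 1) * (d - 2))) / (d - 1) / d * (d - 1) =
      (1 + 2 / ((d + 1) * (d - 2)) : ℝ) / d by field_simp, div_lt_iff₀ (by linarith)]
    linarith

lemma NL_ge {d : ℕ} (hd : 2 ≤ d) (n : ℕ) : (n : ℝ) + 1 ≤ NL d n := by
  induction n with
  | zero => simp [NL_zero]
  | succ n ih =>
    have h := NL_succ (d := d) n
    have hd' : (2 : ℝ) ≤ d := by exact_mod_cast hd
    have h0 : (0 : ℝ) < n + 1 := by positivity
    refine le_of_mul_le_mul_left ?_ h0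
    rw [h]
    push_cast
    nlinarith

/-- The monomer density divided by the activity stays bounded below when `d ≥ 3`. -/
theorem mag_lower {d : ℕ} (hd : 3 ≤ d) : ∃ c : ℝ, 0 < c ∧ ∀ t, 0 < t → t ≤ 1 → ∃ L0 : ℕ,
    ∀ (L M : ℕ) [NeZero L], L = 2 * M → L0 ≤ L →
      c * ZT d L t univ ≤ ZT d L t (univ.erase 0) := by
  obtain ⟨γ, h0, h1, h2⟩ := flow_exists hd
  have hd' : (3 : ℝ) ≤ d := by exact_mod_cast hd
  set δ : ℝ := 1 / 2 - γ * (d - 1) with hδ
  have hδ0 : 0 < δ := by linarith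
  set B : ℝ := 2 * 2 ^ d + 2 + (1 / 2 + γ) with hB
  have hB0 : 0 < B := by positivity
  refine ⟨min 1 (δ / B), by positivity, fun t ht t1 => ?_⟩
  obtain ⟨n0, hn0⟩ := exists_nat_ge (1 / t)
  refine ⟨2 * (n0 + 3 + d) + 1, fun L M _ hM hL0 => ?_⟩
  obtain ⟨f, hf, he⟩ := h2 (n0 + 3) (by omega)
  have hL : 3 ≤ L := by omega
  have hZ := isZ_ZT (d := d) hL t
  have ir := ir_gen hd M hM (n0 + 3) (by omega) ht f hf
  have hrec := ZT_rec (d := d) hL t
  have hN : 1 ≤ t * NL d (n0 + 3) := by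
    have := NL_ge (d := d) (by omega) (n0 + 3)
    push_cast at this
    rw [div_le_iff₀ ht] at hn0
    nlinarith
  have Zp : 0 < ZT d L t univ := hZ.pos ht _
  have Z1p : 0 < ZT d L t (univ.erase 0) := hZ.pos ht _
  have hk : ∀ i, 0 ≤ ZT d L t univ - 2 * ZT d L t ((univ.erase 0).erase (Pi.single i 1)) := by
    intro i
    have := single_le_sum (f := fun i : Fin d => ZT d L t ((univ.erase 0).erase (Pi.single i 1)))
      (fun i _ => hZ.nonneg ht.le _) (mem_univ i)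
    have := mul_pos ht Z1p
    linarith
  have ir2 := ir.trans (sum_le_sum fun i _ => mul_le_mul_of_nonneg_right (he i) (hk i))
  rw [← mul_sum, sum_sub_distrib, ← mul_sum] at ir2
  simp only [sum_const, card_univ, Fintype.card_fin, nsmul_eq_mul] at ir2
  generalize ∑ i, ZT d L t ((univ.erase 0).erase (Pi.single i 1)) = P at *
  generalize ZT d L t univ = Z at *
  generalize ZT d L t (univ.erase 0) = Z1 at *
  obtain ⟨m, rfl⟩ : ∃ m, Z1 = m * Z := ⟨Z1 / Z, by field_simp⟩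
  have hm : 0 < m := (mul_pos_iff_of_pos_right Zp).1 Z1p
  refine mul_le_mul_of_nonneg_right ?_ Zp.le
  by_contra hc
  rw [not_le, lt_min_iff, lt_div_iff₀ hB0] at hc
  have e1 : (m * Z) ^ 2 / Z = m ^ 2 * Z := by field_simp
  have e2 : m * Z / t / NL d (n0 + 3) ≤ m * Z := by
    rw [div_div]
    exact div_le_self Z1p.le hN
  have e3 : P = (1 - t * m) / 2 * Z := by linarith
  rw [e1, e3] at ir2
  have e4 : ((1 - t * m) / 2 - 2 * (2 ^ d * m ^ 2 + m)) * Z ≤ γ * (d - 1 + t * m) * Z := by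
    linarith
  have e5 := le_of_mul_le_mul_right e4 Zp
  have e6 : m ^ 2 ≤ m := by nlinarith
  have e7 : t * m ≤ m := by nlinarith
  have e8 : (2 : ℝ) ^ d * m ^ 2 ≤ 2 ^ d * m := by gcongr
  have e9 : γ * (t * m) ≤ γ * m := by gcongr
  have e10 := hc.2
  rw [hB] at e10
  nlinarith

end Pool.Agent.Lib.MP_3755f6_co
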