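import Pool.Agent.Lib.MP_3755f6_co.Three

/-! The infrared bound tested with an arbitrary unit flow in each orthant. -/

namespace Pool.Agent.Lib.MP_3755f6_co

open Finset

/-- unit flows from the corner of the orthant to the uniform measure on level `n` -/
def IsFlow (d n : ℕ) (f : ℕ → (Fin d → ℕ) → Fin d → ℝ) : Prop :=
  ∀ g : (Fin d → ℕ) → ℝ,
    ∑ k ∈ range n, ∑ x ∈ PL d k, ∑ i, f k x i * (g x - g (x + Pi.single i 1)) =
      g 0 - (∑ x ∈ PL d n, g x) / NL d n

variable {d L : ℕ} [NeZero L]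

theorem ir_gen (hd : 3 ≤ d) (M : ℕ) (hM : L = 2 * M) (n : ℕ) (hn : 2 * (n + d) < L) {t : ℝ}
    (ht : 0 < t) (f : ℕ → (Fin d → ℕ) → Fin d → ℝ) (hf : IsFlow d n f) :
    ∑ i, ZT d L t ((univ.erase 0).erase (Pi.single i 1)) -
      2 * (2 ^ d * (ZT d L t (univ.erase 0) ^ 2 / ZT d L t univ) +
        ZT d L t (univ.erase 0) / t / NL d n) ≤
      ∑ i, (∑ k ∈ range n, ∑ x ∈ PL d k, f k x i ^ 2) *
        (ZT d L t univ - 2 * ZT d L t ((univ.erase 0).erase (Pi.single i 1))) := by
  have hL : 3 ≤ L := by omega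
  have hZ := isZ_ZT (d := d) hL t
  set pos : (Fin d → Bool) → (Fin d → ℕ) → Tor d L := fun c x => red L (posZ c x) with hpos
  have pinj : ∀ c c' x x', ∑ j, x j ≤ n → ∑ j, x' j ≤ n → pos c x = pos c' x' →
      c = c' ∧ x = x' := by
    intro c c' x x' h1 h2 h
    refine posZ_inj (red_inj 0 _ _ (n + d) hn ?_ ?_ h)
    · have := dst_posZ c x; omega
    · have := dst_posZ c' x'; omega
  have psucc : ∀ c x i, pos c (x + Pi.single i 1) = pos c x + step (ZMod L) (i, c i) := by
    intro c x i; simp only [hpos, posZ_succ, red_step]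
  set I : Finset ((Fin d → Bool) × (Σ _ : ℕ, Fin d → ℕ) × Fin d) :=
    univ ×ˢ ((range n).sigma (PL d)) ×ˢ univ with hI
  set edge : (Fin d → Bool) × (Σ _ : ℕ, Fin d → ℕ) × Fin d → Tor d L × Fin d := fun p =>
    (if p.1 p.2.2 then pos p.1 p.2.1.2 else pos p.1 (p.2.1.2 + Pi.single p.2.2 1), p.2.2)
    with hedge
  set a : (Fin d → Bool) × (Σ _ : ℕ, Fin d → ℕ) × Fin d → ℝ := fun p =>
    (if p.1 p.2.2 then 1 else -1) * f p.2.1.1 p.2.1.2 p.2.2 with ha
  have sumI : ∀ G : (Fin d → Bool) × (Σ _ : ℕ, Fin d → ℕ) × Fin d → ℝ, ∑ p ∈ I, G p =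
      ∑ c, ∑ k ∈ range n, ∑ x ∈ PL d k, ∑ i, G (c, ⟨k, x⟩, i) := by
    intro G
    rw [hI, Finset.sum_product]
    refine Finset.sum_congr rfl fun c _ => ?_
    rw [Finset.sum_product, Finset.sum_sigma]
  have einj : ∀ p ∈ I, ∀ p' ∈ I, edge p = edge p' → p = p' := by
    rintro ⟨c, ⟨k, x⟩, i⟩ hp ⟨c', ⟨k', x'⟩, i'⟩ hp' h
    simp only [hI, mem_product, mem_univ, mem_sigma, mem_range, true_and, and_true,
      Finset.Nat.mem_antidiagonalTuple] at hp hp'
    simp only [hedge, Prod.mk.injEq] at h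
    obtain ⟨h, rfl⟩ := h
    have s1 : ∑ j, (x + Pi.single i 1 : Fin d → ℕ) j ≤ n := by
      simp [Finset.sum_add_distrib]; omega
    have s2 : ∑ j, (x' + Pi.single i 1 : Fin d → ℕ) j ≤ n := by
      simp [Finset.sum_add_distrib]; omega
    have : c = c' ∧ x = x' := by
      split_ifs at h with h1 h2 h2
      · exact pinj _ _ _ _ (by omega) (by omega) h
      · exact absurd ((pinj _ _ _ _ (by omega) s2 h).1 ▸ h1) h2
      · exact absurd ((pinj _ _ _ _ s1 (by omega) h).1 ▸ h2) h1
      · exact ⟨(pinj _ _ _ _ s1 s2 h).1, add_right_cancel (pinj _ _ _ _ s1 s2 h).2⟩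
    obtain ⟨rfl, rfl⟩ := this
    obtain rfl : k = k' := by omega
    rfl
  have ir := infrared (tor_rep (d := d) hL) t (tor_refl M hM)
    (fun e => ∑ p ∈ I, if edge p = e then a p else 0)
  rw [push_sq I edge einj] at ir
  simp only [push_lin] at ir
  set φp : Tor d L → ℝ := fun y => ∑ c, if pos c 0 = y then 1 else 0 with hφp
  set μ : Tor d L → ℝ := fun y => ∑ c, (∑ x ∈ PL d n, if pos c x = y then 1 else 0) / NL d n
    with hμ
  have hφ : ∀ y, ∑ p ∈ I, kap tsrc ttgt y (edge p) * a p = φp y - μ y := by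
    intro y
    rw [sumI, hφp, hμ, ← Finset.sum_sub_distrib]
    refine Finset.sum_congr rfl fun c _ => ?_
    rw [← hf (fun x => if pos c x = y then 1 else 0)]
    refine Finset.sum_congr rfl fun k _ => Finset.sum_congr rfl fun x _ =>
      Finset.sum_congr rfl fun i _ => ?_
    rcases Bool.eq_false_or_eq_true (c i) with h | h
    · simp only [hedge, ha, kap, tsrc, ttgt, psucc, step, h, if_true]; ring
    · simp only [hedge, ha, kap, tsrc, ttgt, psucc, step, h, Bool.false_eq_true, if_false,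
        neg_add_cancel_right]; ring
  simp only [hφ] at ir
  have hN := NL_pos (by omega : 0 < d) n
  set K : Tor d L → Tor d L → ℝ := fun x y =>
    if y = x then 0 else ZT d L t ((univ.erase x).erase y) with hK
  have K0 : ∀ x y, 0 ≤ K x y := fun x y => by
    simp only [hK]; split_ifs
    · exact le_rfl
    · exact hZ.nonneg ht.le _
  have Ksymm : ∀ x y, K x y = K y x := fun x y => by
    simp only [hK, eq_comm (a := x)]; rw [Finset.erase_right_comm]
  have lhs : ∑ x, ∑ y ∈ univ.erase x, (φp x - μ x) * (φp y - μ y) *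
      ZZ tsrc ttgt t ((univ.erase x).erase y) = ∑ x, ∑ y, φp x * φp y * K x y -
        2 * ∑ x, ∑ y, φp x * μ y * K x y + ∑ x, ∑ y, μ x * μ y * K x y := by
    have e1 : ∑ x, ∑ y, φp x * μ y * K x y = ∑ x, ∑ y, μ x * φp y * K x y := by
      rw [Finset.sum_comm]
      exact Finset.sum_congr rfl fun x _ => Finset.sum_congr rfl fun y _ => by
        rw [Ksymm]; ring
    have e2 : ∀ x, ∑ y ∈ univ.erase x, (φp x - μ x) * (φp y - μ y) *
        ZZ tsrc ttgt t ((univ.erase x).erase y) = ∑ y, (φp x - μ x) * (φp y - μ y) * K x y := by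
      intro x
      rw [← Finset.add_sum_erase _ _ (mem_univ x)]
      simp only [hK, if_true, mul_zero, zero_add]
      refine Finset.sum_congr rfl fun y hy => ?_
      rw [if_neg (mem_erase.1 hy).1]; rfl
    rw [two_mul]
    nth_rewrite 2 [e1]
    simp only [e2, ← Finset.sum_add_distrib, ← Finset.sum_sub_distrib]
    exact Finset.sum_congr rfl fun x _ => Finset.sum_congr rfl fun y _ => by ring
  have μ0 : ∀ y, 0 ≤ μ y := fun y => Finset.sum_nonneg fun c _ => div_nonneg
    (Finset.sum_nonneg fun x _ => by split_ifs <;> norm_num) hN.le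
  have φsum : ∀ G : Tor d L → ℝ, ∑ y, φp y * G y = ∑ c, G (pos c 0) := by
    intro G
    simp only [hφp, Finset.sum_mul]
    rw [Finset.sum_comm]
    simp
  have b1 : 0 ≤ ∑ x, ∑ y, μ x * μ y * K x y := Finset.sum_nonneg fun x _ =>
    Finset.sum_nonneg fun y _ => mul_nonneg (mul_nonneg (μ0 x) (μ0 y)) (K0 x y)
  have b2 : 2 ^ d * ∑ i, ZT d L t ((univ.erase 0).erase (Pi.single i 1)) ≤
      ∑ x, ∑ y, φp x * φp y * K x y := by
    simp only [mul_assoc, ← Finset.mul_sum, φsum]
    have : (2 : ℝ) ^ d * ∑ i, ZT d L t ((univ.erase 0).erase (Pi.single i 1)) =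
        ∑ _c : Fin d → Bool, ∑ i, ZT d L t ((univ.erase 0).erase (Pi.single i 1)) := by simp
    rw [this]
    refine Finset.sum_le_sum fun c _ => ?_
    have finj : Function.Injective fun i : Fin d => Function.update c i (!c i) := by
      intro i j h
      by_contra hne
      have := congrFun h i
      simp [hne] at this
    refine le_trans (le_of_eq ?_) (Finset.sum_le_sum_of_subset_of_nonneg
      (subset_univ (univ.image fun i : Fin d => Function.update c i (!c i)))
      fun c' _ _ => K0 _ _)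
    rw [Finset.sum_image fun i _ j _ h => finj h]
    refine Finset.sum_congr rfl fun i _ => ?_
    have e : pos (Function.update c i (!c i)) 0 = pos c 0 - step (ZMod L) (i, c i) := by
      ext j
      by_cases hj : j = i
      · subst hj
        cases h : c j <;> simp [hpos, red, posZ, step, h]
      · cases h : c i <;> simp [hpos, red, posZ, step, hj]
    simp only [hK]
    rw [e, if_neg (fun h => step_ne_zero (zmod_one_ne hL) _ (by simpa using h))]
    cases h : c i
    · rw [ZT_two hL t (pos c 0)]; simp [step]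
    · rw [Finset.erase_right_comm (a := pos c 0), ZT_two hL t (pos c 0 - _)]; simp [step]
  have μsum : ∑ y, μ y = 2 ^ d := by
    simp only [hμ]
    rw [Finset.sum_comm]
    simp only [← Finset.sum_div]
    rw [Finset.sum_congr rfl fun c _ => Finset.sum_comm]
    simp only [Finset.sum_ite_eq, mem_univ, if_true, Finset.sum_const, card_univ, nsmul_eq_mul,
      mul_one, Fintype.card_fun, Fintype.card_bool, Fintype.card_fin]
    push_cast
    exact mul_div_cancel_right₀ _ hN.ne'
  have μmax : ∀ y, μ y ≤ 1 / NL d n := by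
    intro y
    simp only [hμ]
    rw [← Finset.sum_div]
    refine div_le_div_of_nonneg_right ?_ hN.le
    rw [← Finset.sum_product' univ (PL d n) (fun c x => if pos c x = y then (1:ℝ) else 0),
      Finset.sum_boole]
    have : ((univ ×ˢ PL d n).filter fun p => pos p.1 p.2 = y).card ≤ 1 := by
      refine card_le_one.2 ?_
      rintro ⟨c, x⟩ h1 ⟨c', x'⟩ h2
      simp only [mem_filter, mem_product, mem_univ, true_and,
        Finset.Nat.mem_antidiagonalTuple] at h1 h2
      obtain ⟨rfl, rfl⟩ := pinj c c' x x' h1.1.le h2.1.le (h1.2.trans h2.2.symm)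
      rfl
    exact_mod_cast this
  have b3 : ∑ x, ∑ y, φp x * μ y * K x y ≤ 2 ^ d *
      (2 ^ d * (ZT d L t (univ.erase 0) ^ 2 / ZT d L t univ) +
        ZT d L t (univ.erase 0) / t / NL d n) := by
    simp only [mul_assoc, ← Finset.mul_sum, φsum]
    refine (Finset.sum_le_card_nsmul _ _ (2 ^ d * (ZT d L t (univ.erase 0) ^ 2 / ZT d L t univ) +
        ZT d L t (univ.erase 0) / t / NL d n) fun c _ => ?_).trans (le_of_eq (by simp; ring))
    obtain ⟨r, r0, r1, r2⟩ := hZ.corr_bound ht (pos c 0)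
    have hm : 0 ≤ ZT d L t (univ.erase 0) ^ 2 / ZT d L t univ :=
      div_nonneg (sq_nonneg _) (hZ.nonneg ht.le _)
    have c1 : ∀ y, μ y * K (pos c 0) y ≤ μ y * (ZT d L t (univ.erase 0) ^ 2 / ZT d L t univ) +
        r y * (1 / NL d n) := by
      intro y
      have k1 : K (pos c 0) y ≤ ZT d L t (univ.erase 0) ^ 2 / ZT d L t univ + r y := by
        simp only [hK]
        split_ifs with h
        · linarith [r0 y]
        · have := r2 y h
          rwa [ZT_one hL t (pos c 0), ZT_one hL t y, ← sq] at this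
      nlinarith [mul_le_mul_of_nonneg_left k1 (μ0 y), mul_le_mul_of_nonneg_left (μmax y) (r0 y)]
    refine (Finset.sum_le_sum fun y _ => c1 y).trans ?_
    rw [Finset.sum_add_distrib, ← Finset.sum_mul, ← Finset.sum_mul, μsum]
    rw [ZT_one hL] at r1
    rw [div_eq_mul_one_div (_ / t)]
    have : 0 ≤ 1 / NL d n := by positivity
    nlinarith [mul_le_mul_of_nonneg_right r1 this]
  have rhs : ∑ p ∈ I, a p ^ 2 * (ZZ (tsrc (d := d) (L := L)) ttgt t univ -
      2 * ZZ tsrc ttgt t ((univ.erase (tsrc (edge p))).erase (ttgt (edge p)))) =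
      2 ^ d * ∑ i, (∑ k ∈ range n, ∑ x ∈ PL d k, f k x i ^ 2) *
        (ZT d L t univ - 2 * ZT d L t ((univ.erase 0).erase (Pi.single i 1))) := by
    rw [sumI]
    have : ∀ c : Fin d → Bool, ∑ k ∈ range n, ∑ x ∈ PL d k, ∑ i, a (c, ⟨k, x⟩, i) ^ 2 *
        (ZZ (tsrc (d := d) (L := L)) ttgt t univ -
          2 * ZZ tsrc ttgt t ((univ.erase (tsrc (edge (c, ⟨k, x⟩, i)))).erase
          (ttgt (edge (c, ⟨k, x⟩, i))))) = ∑ i, (∑ k ∈ range n, ∑ x ∈ PL d k, f k x i ^ 2) *
        (ZT d L t univ - 2 * ZT d L t ((univ.erase 0).erase (Pi.single i 1))) := by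
      intro c
      simp only [Finset.sum_mul]
      rw [Finset.sum_congr rfl fun k _ => Finset.sum_comm, Finset.sum_comm]
      refine Finset.sum_congr rfl fun i _ => Finset.sum_congr rfl fun k _ =>
        Finset.sum_congr rfl fun x _ => ?_
      have e1 := ZT_two hL t (tsrc (edge (c, ⟨k, x⟩, i))) (ttgt (edge (c, ⟨k, x⟩, i)))
      simp only [ZT] at e1 ⊢
      rw [e1]
      simp only [tsrc, ttgt, add_sub_cancel_left, ha, hedge]
      split_ifs <;> simp
    simp [this]
  rw [lhs, rhs] at ir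
  have p2 : (0:ℝ) < 2 ^ d := by positivity
  refine le_of_mul_le_mul_left ?_ p2
  linarith

end Pool.Agent.Lib.MP_3755f6_co
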