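import Pool.Agent.Lib.MP_3755f6_co.Polya

namespace Pool.Agent.Lib.MP_3755f6_co

open Finset

lemma IsZ.corr_bound {V : Type*} [DecidableEq V] [Fintype V] {nb : V → Finset V} {t : ℝ}
    {Z : Finset V → ℝ} (h : IsZ nb t Z) (ht : 0 < t) (x : V) :
    ∃ r : V → ℝ, (∀ y, 0 ≤ r y) ∧ ∑ y, r y ≤ Z (univ.erase x) / t ∧ ∀ y, y ≠ x →
      Z ((univ.erase x).erase y) ≤ Z (univ.erase x) * Z (univ.erase y) / Z univ + r y := by
  have hZ := h.pos ht univ
  refine ⟨fun y => (∑ l ∈ paths (fun y => nb y ∩ univ) x,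
    if l.head? = some y then Z (rem univ l) ^ 2 else 0) / Z univ, fun y => ?_, ?_, fun y hy => ?_⟩
  · refine div_nonneg (Finset.sum_nonneg fun l _ => ?_) hZ.le
    split_ifs <;> positivity
  · rw [← Finset.sum_div, Finset.sum_comm, div_le_div_iff₀ hZ ht, mul_comm _ (Z univ),
      ← h.chi (mem_univ x), mul_comm]
    refine mul_le_mul_of_nonneg_left (Finset.sum_le_sum fun l _ => ?_) ht.le
    cases l with
    | nil => simp; positivity
    | cons z l => simp
  · have g := h.godsil (mem_univ x) (mem_univ y) hy.symm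
    rw [← add_div, le_div_iff₀ hZ]
    have : -∑ l ∈ paths (fun y => nb y ∩ univ) x,
        (if l.head? = some y then (-1) ^ (l.length + 1) * Z (rem univ l) ^ 2 else 0) ≤
        ∑ l ∈ paths (fun y => nb y ∩ univ) x,
          if l.head? = some y then Z (rem univ l) ^ 2 else 0 := by
      rw [← Finset.sum_neg_distrib]
      refine Finset.sum_le_sum fun l _ => ?_
      split_ifs
      · rcases neg_one_pow_eq_or ℝ (l.length + 1) with e | e <;> rw [e] <;>
          nlinarith [sq_nonneg (Z (rem univ l))]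
      · simp
    linarith

lemma push_lin {ι E : Type*} [Fintype E] [DecidableEq E] (I : Finset ι) (edge : ι → E) (a : ι → ℝ)
    (k : E → ℝ) : ∑ e, k e * (∑ p ∈ I, if edge p = e then a p else 0) =
      ∑ p ∈ I, k (edge p) * a p := by
  simp only [Finset.mul_sum]
  rw [Finset.sum_comm]
  refine Finset.sum_congr rfl fun p _ => ?_
  simp

lemma push_sq {ι E : Type*} [Fintype E] [DecidableEq E] (I : Finset ι) (edge : ι → E)
    (hinj : ∀ p ∈ I, ∀ p' ∈ I, edge p = edge p' → p = p') (a : ι → ℝ)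
    (k : E → ℝ) : ∑ e, (∑ p ∈ I, if edge p = e then a p else 0) ^ 2 * k e =
      ∑ p ∈ I, a p ^ 2 * k (edge p) := by
  have := push_lin I edge a (fun e => (∑ p ∈ I, if edge p = e then a p else 0) * k e)
  rw [← Finset.sum_congr rfl fun e _ => (show (∑ p ∈ I, if edge p = e then a p else 0) * k e *
    (∑ p ∈ I, if edge p = e then a p else 0) = _ ^ 2 * k e by ring), this]
  refine Finset.sum_congr rfl fun p hp => ?_
  rw [Finset.sum_eq_single p]
  · simp; ring
  · intro b hb hne
    rw [if_neg fun e => hne (hinj _ hb _ hp e)]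
  · intro h; exact absurd hp h

variable {d L : ℕ}

/-- position in the orthant of the corner `c` -/
def posZ (c : Fin d → Bool) (x : Fin d → ℕ) : Fin d → ℤ :=
  fun j => if c j then 1 + x j else -x j

lemma posZ_inj {c c' : Fin d → Bool} {x x' : Fin d → ℕ} (h : posZ c x = posZ c' x') :
    c = c' ∧ x = x' := by
  have : ∀ j, c j = c' j ∧ x j = x' j := by
    intro j
    have := congrFun h j
    simp only [posZ] at this
    cases h1 : c j <;> cases h2 : c' j <;> simp [h1, h2] at this ⊢ <;> omega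
  exact ⟨funext fun j => (this j).1, funext fun j => (this j).2⟩

lemma dst_posZ (c : Fin d → Bool) (x : Fin d → ℕ) : dst 0 (posZ c x) ≤ ∑ j, x j + d := by
  have : ∑ j, x j + d = ∑ j, (x j + 1) := by simp [Finset.sum_add_distrib]
  rw [this]
  refine Finset.sum_le_sum fun j _ => ?_
  simp only [posZ, Pi.zero_apply, sub_zero]
  split_ifs <;> omega

lemma posZ_succ (c : Fin d → Bool) (x : Fin d → ℕ) (i : Fin d) :
    posZ c (x + Pi.single i 1) = posZ c x + step ℤ (i, c i) := by
  ext j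
  by_cases hj : j = i
  · subst hj
    cases h : c j <;> simp [posZ, step, h] <;> ring
  · cases h : c i <;> simp [posZ, step, hj]

variable [NeZero L]

theorem ir_three (hd : 3 ≤ d) (M : ℕ) (hM : L = 2 * M) (n : ℕ) (hn : 2 * (n + d) < L) {t : ℝ}
    (ht : 0 < t) :
    ∑ i, ZT d L t ((univ.erase 0).erase (Pi.single i 1)) -
      2 * (2 ^ d * (ZT d L t (univ.erase 0) ^ 2 / ZT d L t univ) +
        ZT d L t (univ.erase 0) / t / NL d n) ≤
      ∑ i, (∑ k ∈ range n, ∑ x ∈ PL d k, th d k x i ^ 2) *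
        (ZT d L t univ - 2 * ZT d L t ((univ.erase 0).erase (Pi.single i 1))) := by
  have hL : 3 ≤ L := by omega
  have hZ := isZ_ZT (d := d) hL t
  set pos : (Fin d → Bool) → (Fin d → ℕ) → Tor d L := fun c x => red L (posZ c x) with hpos
  have pinj : ∀ c c' x x', ∑ j, x j ≤ n → ∑ j, x' j ≤ n → pos c x = pos c' x' →
      c = c' ∧ x = x' := by
    intro c c' x x' h1 h2 h
    refine posZ_inj (red_inj 0 _ _ (n + d) hn ?_ ?_ h)
    · have := dst_posZ c x; omega
    · have := dst_posZ c' x'; omega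
  have psucc : ∀ c x i, pos c (x + Pi.single i 1) = pos c x + step (ZMod L) (i, c i) := by
    intro c x i; simp only [hpos, posZ_succ, red_step]
  set I : Finset ((Fin d → Bool) × (Σ _ : ℕ, Fin d → ℕ) × Fin d) :=
    univ ×ˢ ((range n).sigma (PL d)) ×ˢ univ with hI
  set edge : (Fin d → Bool) × (Σ _ : ℕ, Fin d → ℕ) × Fin d → Tor d L × Fin d := fun p =>
    (if p.1 p.2.2 then pos p.1 p.2.1.2 else pos p.1 (p.2.1.2 + Pi.single p.2.2 1), p.2.2)
    with hedge
  set a : (Fin d → Bool) × (Σ _ : ℕ, Fin d → ℕ) × Fin d → ℝ := fun p =>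
    (if p.1 p.2.2 then 1 else -1) * th d p.2.1.1 p.2.1.2 p.2.2 with ha
  have sumI : ∀ G : (Fin d → Bool) × (Σ _ : ℕ, Fin d → ℕ) × Fin d → ℝ, ∑ p ∈ I, G p =
      ∑ c, ∑ k ∈ range n, ∑ x ∈ PL d k, ∑ i, G (c, ⟨k, x⟩, i) := by
    intro G
    rw [hI, Finset.sum_product]
    refine Finset.sum_congr rfl fun c _ => ?_
    rw [Finset.sum_product, Finset.sum_sigma]
  have einj : ∀ p ∈ I, ∀ p' ∈ I, edge p = edge p' → p = p' := by
    rintro ⟨c, ⟨k, x⟩, i⟩ hp ⟨c', ⟨k', x'⟩, i'⟩ hp' h
    simp only [hI, mem_product, mem_univ, mem_sigma, mem_range, true_and, and_true,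
      Finset.Nat.mem_antidiagonalTuple] at hp hp'
    simp only [hedge, Prod.mk.injEq] at h
    obtain ⟨h, rfl⟩ := h
    have s1 : ∑ j, (x + Pi.single i 1 : Fin d → ℕ) j ≤ n := by
      simp [Finset.sum_add_distrib]; omega
    have s2 : ∑ j, (x' + Pi.single i 1 : Fin d → ℕ) j ≤ n := by
      simp [Finset.sum_add_distrib]; omega
    have : c = c' ∧ x = x' := by
      split_ifs at h with h1 h2 h2
      · exact pinj _ _ _ _ (by omega) (by omega) h
      · exact absurd ((pinj _ _ _ _ (by omega) s2 h).1 ▸ h1) h2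
      · exact absurd ((pinj _ _ _ _ s1 (by omega) h).1 ▸ h2) h1
      · exact ⟨(pinj _ _ _ _ s1 s2 h).1, add_right_cancel (pinj _ _ _ _ s1 s2 h).2⟩
    obtain ⟨rfl, rfl⟩ := this
    obtain rfl : k = k' := by omega
    rfl
  have ir := infrared (tor_rep (d := d) hL) t (tor_refl M hM)
    (fun e => ∑ p ∈ I, if edge p = e then a p else 0)
  rw [push_sq I edge einj] at ir
  simp only [push_lin] at ir
  set φp : Tor d L → ℝ := fun y => ∑ c, if pos c 0 = y then 1 else 0 with hφp
  set μ : Tor d L → ℝ := fun y => ∑ c, (∑ x ∈ PL d n, if pos c x = y then 1 else 0) / NL d n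
    with hμ
  have hφ : ∀ y, ∑ p ∈ I, kap tsrc ttgt y (edge p) * a p = φp y - μ y := by
    intro y
    rw [sumI, hφp, hμ, ← Finset.sum_sub_distrib]
    refine Finset.sum_congr rfl fun c _ => ?_
    rw [← telescope (by omega) n (fun x => if pos c x = y then 1 else 0)]
    refine Finset.sum_congr rfl fun k _ => Finset.sum_congr rfl fun x _ =>
      Finset.sum_congr rfl fun i _ => ?_
    rcases Bool.eq_false_or_eq_true (c i) with h | h
    · simp only [hedge, ha, kap, tsrc, ttgt, psucc, step, h, if_true]; ring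
    · simp only [hedge, ha, kap, tsrc, ttgt, psucc, step, h, Bool.false_eq_true, if_false,
        neg_add_cancel_right]; ring
  simp only [hφ] at ir
  have hN := NL_pos (by omega : 0 < d) n
  set K : Tor d L → Tor d L → ℝ := fun x y =>
    if y = x then 0 else ZT d L t ((univ.erase x).erase y) with hK
  have K0 : ∀ x y, 0 ≤ K x y := fun x y => by
    simp only [hK]; split_ifs
    · exact le_rfl
    · exact hZ.nonneg ht.le _
  have Ksymm : ∀ x y, K x y = K y x := fun x y => by
    simp only [hK, eq_comm (a := x)]; rw [Finset.erase_right_comm]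
  have lhs : ∑ x, ∑ y ∈ univ.erase x, (φp x - μ x) * (φp y - μ y) *
      ZZ tsrc ttgt t ((univ.erase x).erase y) = ∑ x, ∑ y, φp x * φp y * K x y -
        2 * ∑ x, ∑ y, φp x * μ y * K x y + ∑ x, ∑ y, μ x * μ y * K x y := by
    have e1 : ∑ x, ∑ y, φp x * μ y * K x y = ∑ x, ∑ y, μ x * φp y * K x y := by
      rw [Finset.sum_comm]
      exact Finset.sum_congr rfl fun x _ => Finset.sum_congr rfl fun y _ => by
        rw [Ksymm]; ring
    have e2 : ∀ x, ∑ y ∈ univ.erase x, (φp x - μ x) * (φp y - μ y) *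
        ZZ tsrc ttgt t ((univ.erase x).erase y) = ∑ y, (φp x - μ x) * (φp y - μ y) * K x y := by
      intro x
      rw [← Finset.add_sum_erase _ _ (mem_univ x)]
      simp only [hK, if_true, mul_zero, zero_add]
      refine Finset.sum_congr rfl fun y hy => ?_
      rw [if_neg (mem_erase.1 hy).1]; rfl
    rw [two_mul]
    nth_rewrite 2 [e1]
    simp only [e2, ← Finset.sum_add_distrib, ← Finset.sum_sub_distrib]
    exact Finset.sum_congr rfl fun x _ => Finset.sum_congr rfl fun y _ => by ring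
  have μ0 : ∀ y, 0 ≤ μ y := fun y => Finset.sum_nonneg fun c _ => div_nonneg
    (Finset.sum_nonneg fun x _ => by split_ifs <;> norm_num) hN.le
  have φsum : ∀ G : Tor d L → ℝ, ∑ y, φp y * G y = ∑ c, G (pos c 0) := by
    intro G
    simp only [hφp, Finset.sum_mul]
    rw [Finset.sum_comm]
    simp
  have b1 : 0 ≤ ∑ x, ∑ y, μ x * μ y * K x y := Finset.sum_nonneg fun x _ =>
    Finset.sum_nonneg fun y _ => mul_nonneg (mul_nonneg (μ0 x) (μ0 y)) (K0 x y)
  have b2 : 2 ^ d * ∑ i, ZT d L t ((univ.erase 0).erase (Pi.single i 1)) ≤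
      ∑ x, ∑ y, φp x * φp y * K x y := by
    simp only [mul_assoc, ← Finset.mul_sum, φsum]
    have : (2 : ℝ) ^ d * ∑ i, ZT d L t ((univ.erase 0).erase (Pi.single i 1)) =
        ∑ _c : Fin d → Bool, ∑ i, ZT d L t ((univ.erase 0).erase (Pi.single i 1)) := by simp
    rw [this]
    refine Finset.sum_le_sum fun c _ => ?_
    have finj : Function.Injective fun i : Fin d => Function.update c i (!c i) := by
      intro i j h
      by_contra hne
      have := congrFun h i
      simp [hne] at this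
    refine le_trans (le_of_eq ?_) (Finset.sum_le_sum_of_subset_of_nonneg
      (subset_univ (univ.image fun i : Fin d => Function.update c i (!c i)))
      fun c' _ _ => K0 _ _)
    rw [Finset.sum_image fun i _ j _ h => finj h]
    refine Finset.sum_congr rfl fun i _ => ?_
    have e : pos (Function.update c i (!c i)) 0 = pos c 0 - step (ZMod L) (i, c i) := by
      ext j
      by_cases hj : j = i
      · subst hj
        cases h : c j <;> simp [hpos, red, posZ, step, h]
      · cases h : c i <;> simp [hpos, red, posZ, step, hj]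
    simp only [hK]
    rw [e, if_neg (fun h => step_ne_zero (zmod_one_ne hL) _ (by simpa using h))]
    cases h : c i
    · rw [ZT_two hL t (pos c 0)]; simp [step]
    · rw [Finset.erase_right_comm (a := pos c 0), ZT_two hL t (pos c 0 - _)]; simp [step]
  have μsum : ∑ y, μ y = 2 ^ d := by
    simp only [hμ]
    rw [Finset.sum_comm]
    simp only [← Finset.sum_div]
    rw [Finset.sum_congr rfl fun c _ => Finset.sum_comm]
    simp only [Finset.sum_ite_eq, mem_univ, if_true, Finset.sum_const, card_univ, nsmul_eq_mul,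
      mul_one, Fintype.card_fun, Fintype.card_bool, Fintype.card_fin]
    push_cast
    exact mul_div_cancel_right₀ _ hN.ne'
  have μmax : ∀ y, μ y ≤ 1 / NL d n := by
    intro y
    simp only [hμ]
    rw [← Finset.sum_div]
    refine div_le_div_of_nonneg_right ?_ hN.le
    rw [← Finset.sum_product' univ (PL d n) (fun c x => if pos c x = y then (1:ℝ) else 0),
      Finset.sum_boole]
    have : ((univ ×ˢ PL d n).filter fun p => pos p.1 p.2 = y).card ≤ 1 := by
      refine card_le_one.2 ?_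
      rintro ⟨c, x⟩ h1 ⟨c', x'⟩ h2
      simp only [mem_filter, mem_product, mem_univ, true_and,
        Finset.Nat.mem_antidiagonalTuple] at h1 h2
      obtain ⟨rfl, rfl⟩ := pinj c c' x x' h1.1.le h2.1.le (h1.2.trans h2.2.symm)
      rfl
    exact_mod_cast this
  have b3 : ∑ x, ∑ y, φp x * μ y * K x y ≤ 2 ^ d *
      (2 ^ d * (ZT d L t (univ.erase 0) ^ 2 / ZT d L t univ) +
        ZT d L t (univ.erase 0) / t / NL d n) := by
    simp only [mul_assoc, ← Finset.mul_sum, φsum]
    refine (Finset.sum_le_card_nsmul _ _ (2 ^ d * (ZT d L t (univ.erase 0) ^ 2 / ZT d L t univ) +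
        ZT d L t (univ.erase 0) / t / NL d n) fun c _ => ?_).trans (le_of_eq (by simp; ring))
    obtain ⟨r, r0, r1, r2⟩ := hZ.corr_bound ht (pos c 0)
    have hm : 0 ≤ ZT d L t (univ.erase 0) ^ 2 / ZT d L t univ :=
      div_nonneg (sq_nonneg _) (hZ.nonneg ht.le _)
    have c1 : ∀ y, μ y * K (pos c 0) y ≤ μ y * (ZT d L t (univ.erase 0) ^ 2 / ZT d L t univ) +
        r y * (1 / NL d n) := by
      intro y
      have k1 : K (pos c 0) y ≤ ZT d L t (univ.erase 0) ^ 2 / ZT d L t univ + r y := by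
        simp only [hK]
        split_ifs with h
        · linarith [r0 y]
        · have := r2 y h
          rwa [ZT_one hL t (pos c 0), ZT_one hL t y, ← sq] at this
      nlinarith [mul_le_mul_of_nonneg_left k1 (μ0 y), mul_le_mul_of_nonneg_left (μmax y) (r0 y)]
    refine (Finset.sum_le_sum fun y _ => c1 y).trans ?_
    rw [Finset.sum_add_distrib, ← Finset.sum_mul, ← Finset.sum_mul, μsum]
    rw [ZT_one hL] at r1
    rw [div_eq_mul_one_div (_ / t)]
    have : 0 ≤ 1 / NL d n := by positivity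
    nlinarith [mul_le_mul_of_nonneg_right r1 this]
  have rhs : ∑ p ∈ I, a p ^ 2 * (ZZ (tsrc (d := d) (L := L)) ttgt t univ -
      2 * ZZ tsrc ttgt t ((univ.erase (tsrc (edge p))).erase (ttgt (edge p)))) =
      2 ^ d * ∑ i, (∑ k ∈ range n, ∑ x ∈ PL d k, th d k x i ^ 2) *
        (ZT d L t univ - 2 * ZT d L t ((univ.erase 0).erase (Pi.single i 1))) := by
    rw [sumI]
    have : ∀ c : Fin d → Bool, ∑ k ∈ range n, ∑ x ∈ PL d k, ∑ i, a (c, ⟨k, x⟩, i) ^ 2 *
        (ZZ (tsrc (d := d) (L := L)) ttgt t univ -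
          2 * ZZ tsrc ttgt t ((univ.erase (tsrc (edge (c, ⟨k, x⟩, i)))).erase
          (ttgt (edge (c, ⟨k, x⟩, i))))) = ∑ i, (∑ k ∈ range n, ∑ x ∈ PL d k, th d k x i ^ 2) *
        (ZT d L t univ - 2 * ZT d L t ((univ.erase 0).erase (Pi.single i 1))) := by
      intro c
      simp only [Finset.sum_mul]
      rw [Finset.sum_congr rfl fun k _ => Finset.sum_comm, Finset.sum_comm]
      refine Finset.sum_congr rfl fun i _ => Finset.sum_congr rfl fun k _ =>
        Finset.sum_congr rfl fun x _ => ?_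
      have e1 := ZT_two hL t (tsrc (edge (c, ⟨k, x⟩, i))) (ttgt (edge (c, ⟨k, x⟩, i)))
      simp only [ZT] at e1 ⊢
      rw [e1]
      simp only [tsrc, ttgt, add_sub_cancel_left, ha, hedge]
      split_ifs <;> simp
    simp [this]
  rw [lhs, rhs] at ir
  have p2 : (0:ℝ) < 2 ^ d := by positivity
  refine le_of_mul_le_mul_left ?_ p2
  linarith

theorem chi_three (hd : 3 ≤ d) (X : ℝ) : ∃ (t0 : ℝ) (L0 : ℕ), 0 < t0 ∧ ∀ t, 0 < t → t ≤ t0 →
    ∀ (L M : ℕ) [NeZero L], L = 2 * M → L0 ≤ L →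
      X < ZT d L t (univ.erase 0) / (t * ZT d L t univ) := by
  have hd' : (3:ℝ) ≤ d := by exact_mod_cast hd
  set α : ℝ := 2 / ((d + 1) * (d - 2)) with hα
  have hα0 : 0 < α := by
    have : (0:ℝ) < d - 2 := by linarith
    positivity
  have hα1 : α ≤ 1 / 2 := by
    rw [hα, div_le_div_iff₀ (by nlinarith) (by norm_num)]; nlinarith
  set Y := max X 1 with hY
  have hY1 : 1 ≤ Y := le_max_right _ _
  obtain ⟨n, hn⟩ := exists_nat_gt ((2 * Y + 1) * 2 / α)
  have hN := NL_pos (by omega : 0 < d) n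
  set C : ℝ := NL d n * (Y + 2 * 2 ^ d * Y ^ 2) with hC
  have hC0 : 0 < C := by positivity
  refine ⟨min 1 (1 / C), 2 * (n + d) + 1, by positivity, fun t ht ht0 L M _ hM hL0 => ?_⟩
  have hL : 3 ≤ L := by omega
  have hZ := isZ_ZT (d := d) hL t
  have ir := ir_three hd M hM n (by omega) ht
  have hrec := ZT_rec (d := d) hL t
  have en : ∀ i, ∑ k ∈ range n, ∑ x ∈ PL d k, th d k x i ^ 2 =
      ((1 + α) / (d - 1) - (α * n + (1 + α) / (d - 1)) / NL d n) / d := by
    intro i
    rw [← energy hd i n]; field_simp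
  simp only [en] at ir
  rw [← Finset.mul_sum, Finset.sum_sub_distrib, ← Finset.mul_sum] at ir
  simp only [Finset.sum_const, card_univ, Fintype.card_fin, nsmul_eq_mul] at ir
  set P := ∑ i, ZT d L t ((univ.erase 0).erase (Pi.single i 1))
  set Z := ZT d L t univ
  set Z1 := ZT d L t (univ.erase 0)
  have Zp : 0 < Z := hZ.pos ht _
  have Z1p : 0 < Z1 := hZ.pos ht _
  by_contra hcon
  set χ := Z1 / (t * Z) with hχ
  have hχY : χ ≤ Y := (not_lt.1 hcon).trans (le_max_left _ _)
  have hχ0 : 0 < χ := by positivity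
  have e1 : Z1 = t * Z * χ := by rw [hχ]; field_simp
  have e2 : P = Z * (1 - t ^ 2 * χ) / 2 := by rw [e1] at hrec; linarith
  set β := (1 + α) / (d - 1) with hβ
  have hβ0 : 0 < β := by
    have : (0:ℝ) < d - 1 := by linarith
    positivity
  have hβ1 : β * (d - 1) = 1 + α := by
    have : (d:ℝ) - 1 ≠ 0 := by linarith
    rw [hβ]; field_simp
  set w := (α * n + β) / NL d n with hw
  have hw0 : 0 ≤ w := by positivity
  have ir2 : (1 - t ^ 2 * χ) / 2 - 2 * (2 ^ d * (t ^ 2 * χ ^ 2) + χ / NL d n) ≤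
      (β - w) / d * (d - 1 + t ^ 2 * χ) := by
    refine le_of_mul_le_mul_left ?_ Zp
    refine le_trans (le_of_eq ?_) (ir.trans (le_of_eq ?_))
    · rw [e2, e1]; field_simp
    · rw [e2]; ring
  have t1 : t ≤ 1 := ht0.trans (min_le_left _ _)
  have t2 : t * C ≤ 1 := by
    have := ht0.trans (min_le_right _ _)
    rwa [le_div_iff₀ hC0] at this
  have d0 : (0:ℝ) < d := by linarith
  have s0 : 0 ≤ t ^ 2 * χ := by positivity
  have k1 : (β - w) / d * (d - 1 + t ^ 2 * χ) ≤ 1 / 2 - w / 2 + t ^ 2 * χ / 2 := by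
    rw [div_mul_eq_mul_div, div_le_iff₀ d0]
    have hβ2 : β ≤ 1 := by nlinarith
    nlinarith [mul_nonneg hw0 s0, mul_le_mul_of_nonneg_right hβ2 s0]
  have k2 : w / 2 ≤ t ^ 2 * χ + 2 * (2 ^ d * (t ^ 2 * χ ^ 2) + χ / NL d n) := by linarith
  have k3 : (α * n + β) / 2 ≤ NL d n * (t ^ 2 * χ + 2 * 2 ^ d * (t ^ 2 * χ ^ 2)) + 2 * χ := by
    have := mul_le_mul_of_nonneg_left k2 hN.le
    rw [hw] at this
    refine le_trans (le_of_eq ?_) (this.trans (le_of_eq ?_))
    · field_simp
    · field_simp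
      ring
  have k4 : NL d n * (t ^ 2 * χ + 2 * 2 ^ d * (t ^ 2 * χ ^ 2)) ≤ t ^ 2 * C := by
    rw [hC]
    have : χ ^ 2 ≤ Y ^ 2 := by gcongr
    have h2 : (0:ℝ) < 2 ^ d := by positivity
    have : t ^ 2 * χ + 2 * 2 ^ d * (t ^ 2 * χ ^ 2) ≤ t ^ 2 * (Y + 2 * 2 ^ d * Y ^ 2) := by
      rw [mul_add, mul_left_comm (t ^ 2)]; gcongr
    nlinarith
  have k5 : t ^ 2 * C ≤ 1 := by nlinarith
  rw [div_lt_iff₀ hα0] at hn
  nlinarith

end Pool.Agent.Lib.MP_3755f6_co
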