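import Pool.Agent.Lib.MP_3755f6_co.Torus

namespace Pool.Agent.Lib.MP_3755f6_co

open Finset

variable {d L : ℕ}

/-- staggered sign on the torus -/
def sg (y : Tor d L) : ℤ := ∏ j, (-1) ^ (y j).val

lemma sg_cases (y : Tor d L) : sg y = 1 ∨ sg y = -1 := by
  rw [sg, Finset.prod_pow_eq_pow_sum]; exact neg_one_pow_eq_or ℤ _

variable [NeZero L]

lemma sum_sg (hL : Odd L) : ∑ y : Tor d L, sg y = 1 := by
  have h1 : ∑ a : ZMod L, (-1 : ℤ) ^ a.val = 1 := by
    obtain ⟨n, rfl⟩ := Nat.exists_eq_succ_of_ne_zero (NeZero.ne L)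
    have : ∑ a : ZMod (n + 1), (-1 : ℤ) ^ a.val = ∑ i ∈ range (n + 1), (-1 : ℤ) ^ i :=
      Fin.sum_univ_eq_sum_range (fun i => (-1 : ℤ) ^ i) (n + 1)
    rw [this, neg_one_geom_sum, if_neg (Nat.not_even_iff_odd.2 hL)]
  have h2 := Finset.prod_univ_sum (fun _ : Fin d => (univ : Finset (ZMod L)))
    (fun _ a => (-1 : ℤ) ^ a.val)
  simp only [h1, Finset.prod_const_one, Fintype.piFinset_univ] at h2
  exact h2.symm

lemma sg_edge (y : Tor d L) (i : Fin d) (h : y i ≠ -1) : sg (y + Pi.single i 1) = -sg y := by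
  unfold sg
  rw [← Finset.mul_prod_erase _ _ (mem_univ i), ← Finset.mul_prod_erase _ _ (mem_univ i),
    Finset.prod_congr rfl fun j hj => by
      rw [Pi.add_apply, Pi.single_eq_of_ne (mem_erase.1 hj).1, add_zero]]
  have h0 : y i + 1 ≠ 0 := fun e => h (eq_neg_of_add_eq_zero_left e)
  have h1 := val_sub_one _ h0
  have h2 : (y i + 1).val ≠ 0 := by simpa using h0
  rw [add_sub_cancel_right] at h1
  rw [Pi.add_apply, Pi.single_eq_same, show (y i + 1).val = (y i).val + 1 by omega, pow_succ]
  ring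

lemma sum_sg_edge (i : Fin d) :
    ∑ y : Tor d L, (1 + (sg y : ℝ) * sg (y + Pi.single i 1)) ≤ 2 * (L : ℝ) ^ (d - 1) := by
  have h1 : ∀ y : Tor d L, (1 + (sg y : ℝ) * sg (y + Pi.single i 1)) ≤
      2 * if y i = -1 then 1 else 0 := by
    intro y
    split_ifs with h
    · rcases sg_cases y with e | e <;> rcases sg_cases (y + Pi.single i 1) with e' | e' <;>
        rw [e, e'] <;> norm_num
    · rw [sg_edge y i h]
      rcases sg_cases y with e | e <;> rw [e] <;> norm_num
  refine (Finset.sum_le_sum fun y _ => h1 y).trans (le_of_eq ?_)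
  rw [← Finset.mul_sum, Finset.sum_boole]
  have := Fintype.card_filter_piFinset_const_eq_of_mem (univ : Finset (ZMod L)) i
    (mem_univ (-1 : ZMod L))
  rw [Fintype.piFinset_univ] at this
  rw [this]; simp [ZMod.card]

lemma bad_count {l : List (Tor d L)} (hl : IsP (fun y => nbG y ∩ univ) 0 l) :
    ∑ x : Tor d L, (1 - (sg x : ℝ) * sg (l.headD 0 + x) * (-1) ^ (l.length + 1)) ≤
      2 * l.length * (L : ℝ) ^ (d - 1) := by
  induction hl with
  | root =>
    refine le_trans (le_of_eq (Finset.sum_eq_zero fun x _ => ?_)) (by positivity)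
    rcases sg_cases x with e | e <;> simp [e]
  | @cons z w l _ hw ih =>
    have h1 : ∑ x : Tor d L, (1 + (sg (z + x) : ℝ) * sg (w + x)) ≤ 2 * (L : ℝ) ^ (d - 1) := by
      obtain ⟨⟨i, b⟩, rfl⟩ := mem_nbG.1 (mem_inter.1 (mem_ch.1 hw).1).1
      refine le_trans (le_of_eq ?_) (sum_sg_edge i)
      cases b
      · refine Fintype.sum_equiv (Equiv.addLeft (z - Pi.single i 1)) _ _ fun x => ?_
        simp only [step, Bool.false_eq_true, if_false, Equiv.coe_addLeft]
        rw [mul_comm, show z - Pi.single i 1 + x + Pi.single i 1 = z + x by ring, sub_eq_add_neg]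
      · refine Fintype.sum_equiv (Equiv.addLeft z) _ _ fun x => ?_
        simp only [step, if_true, Equiv.coe_addLeft]
        rw [add_right_comm]
    simp only [List.headD_cons, List.length_cons] at ih ⊢
    have h2 : ∀ x : Tor d L, (1 - (sg x : ℝ) * sg (w + x) * (-1) ^ (l.length + 1 + 1 + 1)) ≤
        (1 - (sg x : ℝ) * sg (z + x) * (-1) ^ (l.length + 1 + 1)) +
          (1 + (sg (z + x) : ℝ) * sg (w + x)) := by
      intro x
      rw [pow_succ _ (l.length + 1 + 1)]
      rcases sg_cases x with e1 | e1 <;> rcases sg_cases (w + x) with e2 | e2 <;>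
        rcases sg_cases (z + x) with e3 | e3 <;>
        rcases neg_one_pow_eq_or ℝ (l.length + 1 + 1) with e4 | e4 <;>
        rw [e1, e2, e3, e4] <;> norm_num
    refine (Finset.sum_le_sum fun x _ => h2 x).trans ?_
    rw [Finset.sum_add_distrib]
    push_cast at ih ⊢
    linarith

lemma IsP.mem_root {V : Type*} [DecidableEq V] {nb : V → Finset V} {x : V} {l : List V}
    (h : IsP nb x l) : x ∈ l := by
  induction h with
  | root => simp
  | cons _ _ ih => exact List.mem_cons_of_mem _ ih

theorem var_bound (hL : 3 ≤ L) (hodd : Odd L) {t : ℝ} (ht : 0 < t) (k : ℕ) :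
    1 ≤ (t * ZT d L t (univ.erase 0) / ZT d L t univ) ^ 2 +
      2 * t ^ 2 * k * (L : ℝ) ^ (d - 1) * (ZT d L t (univ.erase 0) / (t * ZT d L t univ)) +
      2 * t ^ 2 * (L : ℝ) ^ d *
        ∑ l ∈ (paths (fun y => nbG y ∩ univ) (0 : Tor d L)).filter (fun l => k < l.length),
          (ZT d L t (rem univ l) / ZT d L t univ) ^ 2 := by
  have hZ := isZ_ZT (d := d) hL t
  have pb := parity_bound (tor_rep (d := d) hL) ht.le univ
    (by simpa [ZMod.card] using hodd.pow) sg
    (fun x => by rcases sg_cases x with e | e <;> rw [e] <;> decide)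
  change ZT d L t univ ≤ ∑ x, ∑ y, (sg x : ℝ) * sg y * (if x = y then t * ZT d L t (univ.erase x)
    else t ^ 2 * ZT d L t ((univ.erase x).erase y)) at pb
  set Z := ZT d L t univ with hZd
  set Z1 := ZT d L t (univ.erase 0) with hZ1
  have Zp : 0 < Z := hZ.pos ht _
  set nb : Tor d L → Finset (Tor d L) := fun y => nbG y ∩ univ with hnb
  set W : List (Tor d L) → ℝ := fun l => ZT d L t (rem univ l) ^ 2 with hW
  have chi : ∀ x, t * ∑ l ∈ paths nb x, W l = Z * Z1 := fun x => by
    rw [hZ1, ← ZT_one hL t x]; exact hZ.chi (mem_univ x)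
  have e1 : ∀ x y, Z * (if x = y then t * ZT d L t (univ.erase x)
      else t ^ 2 * ZT d L t ((univ.erase x).erase y)) = t ^ 2 * (Z1 ^ 2 - ∑ l ∈ paths nb x,
        if l.head? = some y then (-1) ^ (l.length + 1) * W l else 0) +
        if x = y then t ^ 2 * ∑ l ∈ paths nb x, W l else 0 := by
    intro x y
    split_ifs with h
    · subst h
      rw [Finset.sum_eq_single [x]]
      · simp only [List.head?_cons, if_true, List.length_cons, List.length_nil, hW, rem_cons,
          rem_nil, ZT_one hL t x, ← hZ1]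
        linear_combination (-t) * chi x
      · intro l hl hne
        rw [if_neg]
        intro hh
        rcases (mem_paths.1 hl).cases' with e | ⟨w, z, l', rfl, h1, h2⟩
        · exact hne e
        · simp only [List.head?_cons, Option.some.injEq] at hh
          exact (mem_ch.1 h2).2 (hh ▸ h1.mem_root)
      · intro h; exact absurd (mem_paths.2 IsP.root) h
    · have := hZ.godsil (mem_univ x) (mem_univ y) h
      rw [ZT_one hL t x, ZT_one hL t y] at this
      simp only [hW, hnb]
      rw [← this]; ring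
  have e2 : ∀ x, Z * ∑ y, (sg x : ℝ) * sg y * (if x = y then t * ZT d L t (univ.erase x)
      else t ^ 2 * ZT d L t ((univ.erase x).erase y)) = t ^ 2 * Z1 ^ 2 * sg x +
        t ^ 2 * ∑ l ∈ paths nb 0, (1 - (sg x : ℝ) * sg (l.headD 0 + x) * (-1) ^ (l.length + 1)) *
          W l := by
    intro x
    have s1 : ∑ y : Tor d L, (sg y : ℝ) = 1 := by exact_mod_cast sum_sg hodd
    have s2 : (sg x : ℝ) * sg x = 1 := by rcases sg_cases x with e | e <;> rw [e] <;> norm_num
    have s3 : ∑ y, (sg y : ℝ) * (∑ l ∈ paths nb x,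
        if l.head? = some y then (-1) ^ (l.length + 1) * W l else 0) =
        ∑ l ∈ paths nb x, sg (l.headD x) * ((-1) ^ (l.length + 1) * W l) := by
      simp only [Finset.mul_sum]
      rw [Finset.sum_comm]
      refine Finset.sum_congr rfl fun l hl => ?_
      cases l with
      | nil => exact absurd rfl (mem_paths.1 hl).ne_nil
      | cons z l => simp
    have s4 : ∀ g : List (Tor d L) → ℝ, ∑ l ∈ paths nb x, g l =
        ∑ l ∈ paths nb 0, g (l.map (Equiv.addRight x)) := by
      intro g
      rw [← sum_paths_map nb (Equiv.addRight x) (fun a b => by simp [hnb, nbG_add]) 0 g]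
      simp
    have s5 : ∀ l, W (l.map (Equiv.addRight x)) = W l := by
      intro l
      simp only [hW]
      rw [← ZT_map hL t x (rem univ l)]
      congr 2
      ext a
      obtain ⟨a, rfl⟩ := (Equiv.addRight x).surjective a
      simp [mem_rem]
    have s6 : ∑ l ∈ paths nb x, W l - sg x * ∑ l ∈ paths nb x,
        sg (l.headD x) * ((-1) ^ (l.length + 1) * W l) = ∑ l ∈ paths nb 0,
          (1 - (sg x : ℝ) * sg (l.headD 0 + x) * (-1) ^ (l.length + 1)) * W l := by
      rw [Finset.mul_sum, ← Finset.sum_sub_distrib, s4]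
      refine Finset.sum_congr rfl fun l hl => ?_
      rw [s5, List.length_map]
      cases l with
      | nil => exact absurd rfl (mem_paths.1 hl).ne_nil
      | cons z l => simp; ring
    rw [Finset.mul_sum, ← s6, ← s3]
    simp only [mul_left_comm Z, e1]
    simp only [mul_add, Finset.sum_add_distrib, mul_ite, mul_zero,
      Finset.sum_ite_eq, mem_univ, if_true, s2]
    have s7 : ∑ y, (sg x : ℝ) * sg y * (t ^ 2 * (Z1 ^ 2 - ∑ l ∈ paths nb x,
        if l.head? = some y then (-1) ^ (l.length + 1) * W l else 0)) =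
        t ^ 2 * Z1 ^ 2 * sg x * ∑ y : Tor d L, (sg y : ℝ) - t ^ 2 * sg x * ∑ y, (sg y : ℝ) *
          (∑ l ∈ paths nb x, if l.head? = some y then (-1) ^ (l.length + 1) * W l else 0) := by
      rw [Finset.mul_sum, Finset.mul_sum, ← Finset.sum_sub_distrib]
      exact Finset.sum_congr rfl fun y _ => by ring
    rw [s7, s1]; ring
  have pb2 := mul_le_mul_of_nonneg_left pb Zp.le
  rw [Finset.mul_sum] at pb2
  simp only [e2, Finset.sum_add_distrib, ← Finset.mul_sum] at pb2
  rw [show ∑ y : Tor d L, (sg y : ℝ) = 1 by exact_mod_cast sum_sg hodd, Finset.sum_comm] at pb2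
  have e3 : ∑ l ∈ paths nb 0, ∑ x : Tor d L,
      (1 - (sg x : ℝ) * sg (l.headD 0 + x) * (-1) ^ (l.length + 1)) * W l ≤
      2 * k * (L : ℝ) ^ (d - 1) * ∑ l ∈ paths nb 0, W l +
        2 * (L : ℝ) ^ d * ∑ l ∈ (paths nb 0).filter (fun l => k < l.length), W l := by
    rw [Finset.sum_filter, Finset.mul_sum, Finset.mul_sum, ← Finset.sum_add_distrib]
    refine Finset.sum_le_sum fun l hl => ?_
    have W0 : 0 ≤ W l := sq_nonneg _
    rw [← Finset.sum_mul]
    split_ifs with h
    · have : ∑ x : Tor d L, (1 - (sg x : ℝ) * sg (l.headD 0 + x) * (-1) ^ (l.length + 1)) ≤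
          2 * (L : ℝ) ^ d := by
        refine (Finset.sum_le_card_nsmul _ _ 2 fun x _ => ?_).trans
          (le_of_eq (by simp [ZMod.card, mul_comm]))
        rcases sg_cases x with e1 | e1 <;> rcases sg_cases (l.headD 0 + x) with e2 | e2 <;>
          rcases neg_one_pow_eq_or ℝ (l.length + 1) with e4 | e4 <;>
          rw [e1, e2, e4] <;> norm_num
      have h2 : 0 ≤ 2 * k * (L : ℝ) ^ (d - 1) * W l := by positivity
      nlinarith
    · have h1 := bad_count (mem_paths.1 hl)
      have h2 : (l.length : ℝ) ≤ k := by exact_mod_cast not_lt.1 h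
      rw [mul_zero, add_zero]
      refine mul_le_mul_of_nonneg_right (h1.trans ?_) W0
      gcongr
  have e4 : ∑ l ∈ paths nb 0, W l = Z * Z1 / t := by rw [← chi 0]; field_simp
  rw [e4] at e3
  simp only [div_pow]
  rw [← Finset.sum_div]
  refine le_of_mul_le_mul_left ?_ (mul_pos Zp Zp)
  refine le_trans (le_of_eq (mul_one _)) (pb2.trans ?_)
  refine (add_le_add_right (mul_le_mul_of_nonneg_left e3 (sq_nonneg t)) _).trans (le_of_eq ?_)
  simp only [hW]
  field_simp
  ring

end Pool.Agent.Lib.MP_3755f6_co
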