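import Pool.Agent.Lib.MP_3755f6_co.Cheb
import Pool.Agent.Lib.MP_3755f6_co.Three
import Pool.Agent.Lib.MP_3755f6_co.Two

namespace Pool.Agent.Lib.MP_3755f6_co

open Finset MeasureTheory Polynomial

lemma mm_of_approx {V : Type*} (G : SimpleGraph V) (u : V) {q : ℝ} (hq : 0 < q)
    (h : ∀ D : ℕ, ∃ ν, Good q ν ∧ ∀ n ≤ D, ∫ x, x ^ n ∂ν = moment G u n) :
    (∃ ν, IsMatchingMeasure G u ν) ∧ ∀ ν, IsMatchingMeasure G u ν →
      Good q ν ∧ ∀ n, ∫ x, x ^ n ∂ν = moment G u n := by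
  obtain ⟨ν0, h1, h2⟩ := exists_limit hq.le _ h
  refine ⟨⟨ν0, h1.1, fun n _ => ⟨h1.integrable (by fun_prop), h2 n⟩⟩, fun ν hν => ⟨?_, ?_⟩⟩
  · refine good_of_moments hq hν.1 fun n hn => ⟨(hν.2 n hn).1, ?_⟩
    rw [(hν.2 n hn).2, ← h2]
    exact h1.moment_le n
  · intro n
    rcases Nat.eq_zero_or_pos n with rfl | hn
    · have := hν.1
      have := h1.1
      rw [← h2]; simp
    · exact (hν.2 n hn).2

variable {d : ℕ}

lemma mm_lattice (o : Fin d → ℤ) :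
    (∃ ν, IsMatchingMeasure (lattice d) o ν) ∧ ∀ ν, IsMatchingMeasure (lattice d) o ν →
      Good (((2 * d : ℕ) : ℝ) + 1) ν ∧ ∀ n, ∫ x, x ^ n ∂ν = moment (lattice d) o n := by
  refine mm_of_approx _ _ (by positivity) fun D => ?_
  obtain ⟨ν, h1, h2, -⟩ := finite_spec (V := Tor d (2 * (D + 1) + 1)) nbG (2 * d) card_nbG univ
    (red _ o) (mem_univ _)
  exact ⟨ν, h1, fun n hn => by rw [h2, moment_lattice (L := 2 * (D + 1) + 1) o n (by omega)]⟩

lemma red_adj {L : ℕ} (hL : 3 ≤ L) {o v : Fin d → ℤ} (hv : (lattice d).Adj o v) :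
    red L v ∈ nbG (red L o) ∧ red L v ≠ red L o := by
  obtain ⟨s, rfl⟩ := mem_nbG.1 ((mem_nbG_lattice _ _).2 hv)
  rw [red_step]
  exact ⟨mem_nbG.2 ⟨s, rfl⟩, fun h => step_ne_zero (zmod_one_ne hL) s (by simpa using h)⟩

lemma mm_delete (o v : Fin d → ℤ) (hv : (lattice d).Adj o v) :
    (∃ ν, IsMatchingMeasure (deleteVertex (lattice d) o) ⟨v, hv.ne'⟩ ν) ∧
      ∀ ν, IsMatchingMeasure (deleteVertex (lattice d) o) ⟨v, hv.ne'⟩ ν →
      Good (((2 * d : ℕ) : ℝ) + 1) ν ∧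
        ∀ n, ∫ x, x ^ n ∂ν = moment (deleteVertex (lattice d) o) ⟨v, hv.ne'⟩ n := by
  refine mm_of_approx _ _ (by positivity) fun D => ?_
  obtain ⟨ν, h1, h2, -⟩ := finite_spec (V := Tor d (2 * (D + 1) + 1)) nbG (2 * d) card_nbG
    (univ.erase (red _ o)) (red _ v) (mem_erase.2 ⟨(red_adj (by omega) hv).2, mem_univ _⟩)
  exact ⟨ν, h1, fun n hn => by rw [h2, moment_delete (L := 2 * (D + 1) + 1) o v hv n (by omega)]⟩

lemma compare_one {q t : ℝ} (hq : 0 < q) (ht : 0 < t) {ν ν' : Measure ℝ} (h : Good q ν)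
    (h' : Good q ν') (n : ℕ) (hm : ∀ k ≤ 2 * n, ∫ x, x ^ k ∂ν = ∫ x, x ^ k ∂ν')
    (hn : q ≤ n * t) :
    ∫ x, 1 / (t ^ 2 + x ^ 2) ∂ν ≤ 2 * ∫ x, 1 / (t ^ 2 + x ^ 2) ∂ν' := by
  simpa using compare hq ht h h' hm n hn 1 (by simp)

lemma res_le (o : Fin d → ℤ) {ν : Measure ℝ} (hν : IsMatchingMeasure (lattice d) o ν) {t : ℝ}
    (ht : 0 < t) (n L : ℕ) [NeZero L] (hn : ((2 * d : ℕ) : ℝ) + 1 ≤ n * t)
    (hL : 2 * (2 * n + 1) < L) :
    ∫ x, 1 / (t ^ 2 + x ^ 2) ∂ν ≤ 2 * (ZT d L t (univ.erase 0) / (t * ZT d L t univ)) := by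
  obtain ⟨g1, g2⟩ := (mm_lattice o).2 ν hν
  obtain ⟨ν', h1, h2, h3⟩ := finite_spec (V := Tor d L) nbG (2 * d) card_nbG univ
    (red _ o) (mem_univ _)
  have := compare_one (by positivity) ht g1 h1 n
    (fun k hk => by rw [g2, h2, moment_lattice (L := L) o k (by omega)]) hn
  rwa [(h3 t _ ht (isZ_ZT (by omega) t)).1, ZT_one (by omega)] at this

lemma atom_lattice (hd : 0 < d) (o : Fin d → ℤ) {ν : Measure ℝ}
    (hν : IsMatchingMeasure (lattice d) o ν) : ν {0} = 0 := by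
  obtain ⟨g1, -⟩ := (mm_lattice o).2 ν hν
  have := g1.1
  rw [← measureReal_eq_zero_iff]
  refine le_antisymm ?_ measureReal_nonneg
  have key : ∀ s : ℝ, 0 < s → ν.real {0} * s ≤ 2 * Real.log (((2 * d : ℕ) : ℝ) + 1) := by
    intro s hs
    set t := Real.exp (-s) with htd
    have ht : 0 < t := Real.exp_pos _
    obtain ⟨n, hn⟩ := exists_nat_ge ((((2 * d : ℕ) : ℝ) + 1) / t)
    rw [div_le_iff₀ ht] at hn
    have h1 := res_le o hν ht n (2 * (2 * n + 2)) hn (by omega)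
    have h2 := atom_le ht g1
    have h3 := density_bound (tor_rep (d := d) (L := 2 * (2 * n + 2)) (by omega)) (2 * d) card_nbG
      ht univ (ZT_one_le hd (by omega) (dvd_mul_right _ _) ht.le)
    change (∑ x, t * ZT d _ t (univ.erase x) / ZT d _ t univ) * _ ≤ _ at h3
    rw [Finset.sum_congr rfl fun x _ => by rw [ZT_one (by omega) t x]] at h3
    rw [Finset.sum_const, nsmul_eq_mul, htd, Real.log_exp, neg_neg, ← htd, mul_assoc] at h3
    have h4 := le_of_mul_le_mul_left h3 (by exact_mod_cast card_pos.2 univ_nonempty)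
    have h5 : ν.real {0} ≤ 2 * (t * ZT d (2 * (2 * n + 2)) t (univ.erase 0) /
        ZT d (2 * (2 * n + 2)) t univ) := by
      refine h2.trans ((mul_le_mul_of_nonneg_left h1 (sq_nonneg t)).trans (le_of_eq ?_))
      field_simp
    nlinarith
  by_contra hc
  push Not at hc
  have hl : 0 ≤ Real.log (((2 * d : ℕ) : ℝ) + 1) := Real.log_nonneg (by
    linarith [(Nat.cast_nonneg (2 * d) : (0:ℝ) ≤ _)])
  have := key ((2 * Real.log (((2 * d : ℕ) : ℝ) + 1) + 1) / ν.real {0}) (by positivity)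
  rw [mul_div_cancel₀ _ hc.ne'] at this
  linarith

lemma atom_delete (o v : Fin d → ℤ) (hv : (lattice d).Adj o v) {ν : Measure ℝ}
    (hν : IsMatchingMeasure (deleteVertex (lattice d) o) ⟨v, hv.ne'⟩ ν) {t : ℝ}
    (ht : 0 < t) (n L : ℕ) [NeZero L] (hn : ((2 * d : ℕ) : ℝ) + 1 ≤ n * t)
    (hL : 2 * (2 * n + 1) < L) :
    ν.real {0} * (ZT d L t (univ.erase 0) / (t * ZT d L t univ)) ≤ 2 := by
  have hL3 : 3 ≤ L := by omega
  obtain ⟨g1, g2⟩ := (mm_delete o v hv).2 ν hν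
  obtain ⟨r1, r2⟩ := red_adj hL3 hv
  obtain ⟨ν', h1, h2, h3⟩ := finite_spec (V := Tor d L) nbG (2 * d) card_nbG
    (univ.erase (red _ o)) (red _ v) (mem_erase.2 ⟨r2, mem_univ _⟩)
  have hZ := isZ_ZT (d := d) hL3 t
  have c1 := compare_one (by positivity) ht g1 h1 n
    (fun k hk => by rw [g2, h2, moment_delete (L := L) o v hv k (by omega)]) hn
  rw [(h3 t _ ht hZ).1] at c1
  have c2 := atom_le ht g1
  have c3 := hZ.2 univ (red L o) (mem_univ _)
  have c4 := Finset.single_le_sum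
    (f := fun w => ZT d L t ((univ.erase (red L o)).erase w)) (fun w _ => hZ.nonneg ht.le _)
    (mem_inter.2 ⟨r1, mem_erase.2 ⟨r2, mem_univ _⟩⟩)
  have p1 := hZ.pos ht univ
  have p2 := hZ.pos ht (univ.erase (red L o))
  have c5 : ZT d L t ((univ.erase (red L o)).erase (red L v)) ≤ ZT d L t univ := by
    have := mul_pos ht p2
    linarith
  rw [← ZT_one hL3 t (red L o), ← mul_div_assoc, div_le_iff₀ (by positivity)]
  have c6 : ν.real {0} ≤ 2 * (t * ZT d L t univ) / ZT d L t (univ.erase (red L o)) := by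
    refine c2.trans ((mul_le_mul_of_nonneg_left c1 (sq_nonneg t)).trans ?_)
    rw [show t ^ 2 * (2 * (ZT d L t ((univ.erase (red L o)).erase (red L v)) /
      (t * ZT d L t (univ.erase (red L o))))) = 2 * (t * ZT d L t ((univ.erase (red L o)).erase
      (red L v))) / ZT d L t (univ.erase (red L o)) by field_simp]
    gcongr
  rwa [le_div_iff₀ p2] at c6

lemma final_arith {t A χ X K T k L c : ℝ} (ht : 0 < t) (t2 : t ≤ 1) (hA0 : 0 < A) (χ0 : 0 ≤ χ)
    (hχ : χ ≤ X) (hK0 : 0 ≤ K) (T0 : 0 ≤ T) (T1 : T ≤ 2 * (1 / (16 * A ^ 2)) + t ^ 2 * K * X)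
    (hk : 0 ≤ k) (hL : 0 ≤ L) (hLA : t * L ≤ A) (hc : 0 ≤ c)
    (t1 : t * (X ^ 2 + 2 * A * k * X + 2 * A ^ 2 * K * X + c) ≤ 1 / 2)
    (vb : 1 ≤ (t ^ 2 * χ) ^ 2 + 2 * t ^ 2 * k * L * χ + 2 * t ^ 2 * L ^ 2 * T) : False := by
  have hX0 : 0 ≤ X := χ0.trans hχ
  have u1 : (t ^ 2 * χ) ^ 2 ≤ t * X ^ 2 := by
    have : (t ^ 2 * χ) ^ 2 = t ^ 4 * χ ^ 2 := by ring
    rw [this]
    have : t ^ 4 ≤ t := pow_le_of_le_one ht.le t2 (by norm_num)
    gcongr
  have u2 : 2 * t ^ 2 * k * L * χ ≤ t * (2 * A * k * X) := by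
    have : 2 * t ^ 2 * k * L * χ = t * (2 * (t * L) * k * χ) := by ring
    rw [this]; gcongr
  have u3 : 2 * t ^ 2 * L ^ 2 * T ≤ 1 / 4 + t * (2 * A ^ 2 * K * X) := by
    have e : 2 * t ^ 2 * L ^ 2 * T = 2 * (t * L) ^ 2 * T := by ring
    have e2 : 2 * (t * L) ^ 2 * T ≤ 2 * A ^ 2 * (2 * (1 / (16 * A ^ 2)) + t ^ 2 * K * X) := by
      gcongr
    have e3 : 2 * A ^ 2 * (2 * (1 / (16 * A ^ 2)) + t ^ 2 * K * X) =
        1 / 4 + t ^ 2 * (2 * A ^ 2 * K * X) := by field_simp; ring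
    have e4 : t ^ 2 * (2 * A ^ 2 * K * X) ≤ t * (2 * A ^ 2 * K * X) := by
      have : t ^ 2 ≤ t := pow_le_of_le_one ht.le t2 (by norm_num)
      gcongr
    linarith
  have u4 : 0 ≤ t * c := by positivity
  linarith

lemma unbounded_two (X : ℝ) (h : ∀ t : ℝ, 0 < t → ∀ (n L : ℕ) [NeZero L],
    ((2 * 2 : ℕ) : ℝ) + 1 ≤ n * t → 2 * (2 * n + 1) < L →
      ZT 2 L t (univ.erase 0) / (t * ZT 2 L t univ) ≤ X) : False := by
  set q : ℝ := ((2 * 2 : ℕ) : ℝ) + 1 with hq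
  have hq0 : 0 < q := by positivity
  obtain ⟨ν, hν⟩ := (mm_lattice (0 : Fin 2 → ℤ)).1
  obtain ⟨g1, g2⟩ := (mm_lattice (0 : Fin 2 → ℤ)).2 ν hν
  have hX : ∀ t, 0 < t → ∫ x, 1 / (t ^ 2 + x ^ 2) ∂ν ≤ 2 * X := by
    intro t ht
    obtain ⟨n, hn⟩ := exists_nat_ge (q / t)
    rw [div_le_iff₀ ht] at hn
    have := res_le 0 hν ht n (2 * (2 * n + 1) + 1) hn (by omega)
    have := h t ht n (2 * (2 * n + 1) + 1) hn (by omega)
    linarith
  have hX0 : 0 ≤ X := by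
    have := le_trans (integral_nonneg fun x => by positivity) (hX 1 one_pos)
    linarith
  set A : ℝ := 4 * q + 1 with hA
  have hA0 : 0 < A := by positivity
  obtain ⟨j, t0, ht0, hj⟩ := small_tail hq0 g1 hX (show 0 < 1 / (16 * A ^ 2) by positivity)
  set r : ℝ[X] := (1 - C (1 / q ^ 2) * Polynomial.X ^ 2) ^ j with hr
  set p : ℝ[X] := -r.divX with hp
  have hrp : ∀ y, 1 - y * p.eval y = r.eval y := by
    intro y
    have e := congrArg (eval y) (X_mul_divX_add r)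
    have e0 : r.coeff 0 = 1 := by rw [coeff_zero_eq_eval_zero]; simp [hr]
    simp only [eval_add, eval_mul, eval_X, eval_C, e0] at e
    rw [hp, eval_neg]; linarith
  have hre : ∀ y, r.eval y = (1 - y ^ 2 / q ^ 2) ^ j := by
    intro y; simp [hr, div_eq_inv_mul]
  obtain ⟨K, hK⟩ := (isCompact_Icc (a := -q) (b := q)).exists_bound_of_continuousOn
    (f := fun y => p.eval y ^ 2) (by fun_prop)
  have hK0 : 0 ≤ K := (norm_nonneg _).trans (hK 0 ⟨by linarith, hq0.le⟩)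
  set k := p.natDegree + 1 with hk
  set B : ℝ := X ^ 2 + 2 * A * k * X + 2 * A ^ 2 * K * X + (4 * r.natDegree + 7) with hB
  have hB0 : 0 < B := by positivity
  set t := min t0 (1 / (2 * B)) with htd
  have ht : 0 < t := by positivity
  have t1 : t * B ≤ 1 / 2 := by
    have : t ≤ 1 / (2 * B) := min_le_right _ _
    rw [le_div_iff₀ (by positivity)] at this
    linarith
  have b1 : t * (4 * r.natDegree + 7) ≤ 1 / 2 := by
    refine le_trans (mul_le_mul_of_nonneg_left ?_ ht.le) t1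
    rw [hB]
    have : 0 ≤ X ^ 2 + 2 * A * k * X + 2 * A ^ 2 * K * X := by positivity
    linarith
  have t2 : t ≤ 1 := by
    have : 0 ≤ t * r.natDegree := by positivity
    linarith
  set n := ⌈q / t⌉₊ with hnd
  have hn : q ≤ n * t := by rw [← div_le_iff₀ ht]; exact Nat.le_ceil _
  have hn2 : n * t ≤ q + t := by
    have := (Nat.ceil_lt_add_one (show 0 ≤ q / t by positivity)).le
    have := mul_le_mul_of_nonneg_right this ht.le
    rwa [add_mul, div_mul_cancel₀ _ ht.ne', one_mul] at this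
  set L := 2 * (2 * r.natDegree + 2 * n + 1) + 1 with hLd
  have hL3 : 3 ≤ L := by omega
  have hLA : t * L ≤ A := by
    have : t * L = t * (4 * r.natDegree + 7) + 4 * (n * t) - 4 * t := by
      rw [hLd]; push_cast; ring
    rw [this, hA]; linarith
  have hχ := h t ht n L hn (by omega)
  have vb := var_bound (d := 2) hL3 ⟨_, rfl⟩ ht k
  obtain ⟨ν', h1, h2, h3⟩ := finite_spec (V := Tor 2 L) nbG (2 * 2) card_nbG univ 0 (mem_univ _)
  obtain ⟨h4, h5⟩ := h3 t _ ht (isZ_ZT hL3 t)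
  have h6 := h5 p k (Nat.lt_succ_self _)
  have c1 := compare hq0 ht h1 g1 (D := 2 * r.natDegree + 2 * n) (fun m hm => by
    rw [g2, h2, moment_lattice (L := L) 0 m (by omega)]
    rw [show red L (0 : Fin 2 → ℤ) = 0 by ext i; simp [red]]) n hn r le_rfl
  have c2 := hj t ht (min_le_left _ _)
  simp only [← hre] at c2
  have hc : Continuous fun x : ℝ => 1 / (t ^ 2 + x ^ 2) :=
    Continuous.div (by fun_prop) (by fun_prop) fun x => by positivity
  have hc2 : Continuous fun x : ℝ => r.eval x ^ 2 / (t ^ 2 + x ^ 2) :=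
    Continuous.div (by fun_prop) (by fun_prop) fun x => by positivity
  have c3 : ∫ y, ((1 - y * p.eval y) ^ 2 + t ^ 2 * p.eval y ^ 2) / (t ^ 2 + y ^ 2) ∂ν' ≤
      ∫ y, (r.eval y ^ 2 / (t ^ 2 + y ^ 2) + t ^ 2 * K * (1 / (t ^ 2 + y ^ 2))) ∂ν' := by
    refine integral_mono_ae (h1.integrable (Continuous.div (by fun_prop) (by fun_prop)
      fun x => by positivity)) (h1.integrable (by fun_prop)) ?_
    filter_upwards [h1.2] with y hy
    have := (le_abs_self _).trans (hK y (abs_le.1 hy))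
    rw [hrp, add_div, mul_one_div]
    gcongr
  rw [integral_add (h1.integrable hc2) (h1.integrable (by fun_prop)), integral_const_mul, h4] at c3
  set χ := ZT 2 L t (univ.erase 0) / (t * ZT 2 L t univ) with hχd
  have hZ := isZ_ZT (d := 2) hL3 t
  have p1 := hZ.pos ht univ
  have p2 := hZ.pos ht (univ.erase 0)
  have χ0 : 0 ≤ χ := by positivity
  have e1 : t * ZT 2 L t (univ.erase 0) / ZT 2 L t univ = t ^ 2 * χ := by
    rw [hχd]; field_simp
  rw [e1] at vb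
  set T := ∑ l ∈ (paths (fun y => nbG y ∩ univ) (0 : Tor 2 L)).filter (fun l => k < l.length),
    (ZT 2 L t (rem univ l) / ZT 2 L t univ) ^ 2 with hT
  have T0 : 0 ≤ T := Finset.sum_nonneg fun _ _ => sq_nonneg _
  have T1 : T ≤ 2 * (1 / (16 * A ^ 2)) + t ^ 2 * K * X := by
    have : t ^ 2 * K * χ ≤ t ^ 2 * K * X := by gcongr
    linarith
  exact final_arith ht t2 hA0 χ0 hχ hK0 T0 T1 (Nat.cast_nonneg k) (Nat.cast_nonneg L) hLA
    (by positivity : (0:ℝ) ≤ 4 * r.natDegree + 7) t1 (by simpa using vb)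

theorem neutral (hd : 2 ≤ d) (o : Fin d → ℤ) : IsNeutral (lattice d) 0 o := by
  refine ⟨⟨(mm_lattice o).1, fun ν hν => atom_lattice (by omega) o hν⟩,
    fun v hv => ⟨(mm_delete o v hv).1, fun ν hν => ?_⟩⟩
  have := hν.1
  rw [← measureReal_eq_zero_iff]
  refine le_antisymm (not_lt.1 fun hc => ?_) measureReal_nonneg
  have key : ∀ t : ℝ, 0 < t → ∀ (n L : ℕ) [NeZero L], ((2 * d : ℕ) : ℝ) + 1 ≤ n * t →
      2 * (2 * n + 1) < L → ZT d L t (univ.erase 0) / (t * ZT d L t univ) ≤ 2 / ν.real {0} := by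
    intro t ht n L _ hn hL
    rw [le_div_iff₀ hc, mul_comm]
    exact atom_delete o v hv hν ht n L hn hL
  rcases hd.eq_or_lt with rfl | hd3
  · exact unbounded_two _ key
  · obtain ⟨t, L0, ht, h⟩ := chi_three (d := d) hd3 (2 / ν.real {0})
    obtain ⟨n, hn⟩ := exists_nat_ge ((((2 * d : ℕ) : ℝ) + 1) / t)
    rw [div_le_iff₀ ht] at hn
    have h1 := h t ht le_rfl (2 * (2 * n + 1 + L0 + 1)) (2 * n + 1 + L0 + 1) rfl (by omega)
    have h2 := key t ht n (2 * (2 * n + 1 + L0 + 1)) hn (by omega)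
    linarith

end Pool.Agent.Lib.MP_3755f6_co
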