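import Pool.Agent.Lib.MP_3755f6_co.ExtDefs
import Pool.Agent.Lib.MP_3755f6_co.ExtFlow
import Pool.Agent.Lib.MP_3755f6_co.Main

/-! From the monomer-dimer model on tori to the matching measure near zero. -/

namespace Pool.Agent.Lib.MP_3755f6_co

open Finset MeasureTheory Filter Topology

variable {d : ℕ}

lemma res_ge (o : Fin d → ℤ) {ν : Measure ℝ} (hν : IsMatchingMeasure (lattice d) o ν) {t : ℝ}
    (ht : 0 < t) (n L : ℕ) [NeZero L] (hn : ((2 * d : ℕ) : ℝ) + 1 ≤ n * t)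
    (hL : 2 * (2 * n + 1) < L) :
    ZT d L t (univ.erase 0) / (t * ZT d L t univ) ≤ 2 * ∫ x, 1 / (t ^ 2 + x ^ 2) ∂ν := by
  obtain ⟨g1, g2⟩ := (mm_lattice o).2 ν hν
  obtain ⟨ν', h1, h2, h3⟩ := finite_spec (V := Tor d L) nbG (2 * d) card_nbG univ
    (red _ o) (mem_univ _)
  have := compare_one (by positivity) ht h1 g1 n
    (fun k hk => by rw [g2, h2, moment_lattice (L := L) o k (by omega)]) hn
  rwa [(h3 t _ ht (isZ_ZT (by omega) t)).1, ZT_one (by omega)] at this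

lemma res_cont {t : ℝ} (ht : 0 < t) : Continuous fun x : ℝ => 1 / (t ^ 2 + x ^ 2) :=
  Continuous.div (by fun_prop) (by fun_prop) fun x => by positivity

lemma window_le {q t : ℝ} (ht : 0 < t) {ν : Measure ℝ} (h : Good q ν) :
    ν.real (Set.Icc (-t) t) ≤ 2 * t ^ 2 * ∫ x, 1 / (t ^ 2 + x ^ 2) ∂ν := by
  have := h.1
  have hc := res_cont ht
  rw [← integral_const_mul, ← integral_indicator_one measurableSet_Icc]
  refine integral_mono ((integrable_const 1).indicator measurableSet_Icc)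
    (h.integrable (by fun_prop)) fun x => ?_
  by_cases hx : x ∈ Set.Icc (-t) t
  · rw [Set.indicator_of_mem hx, Pi.one_apply]
    change 1 ≤ 2 * t ^ 2 * (1 / (t ^ 2 + x ^ 2))
    rw [mul_one_div, le_div_iff₀ (by positivity)]
    nlinarith [hx.1, hx.2]
  · rw [Set.indicator_of_notMem hx]
    positivity

lemma res_split {q t s : ℝ} (ht : 0 < t) (hs : 0 < s) {ν : Measure ℝ} (h : Good q ν) :
    ∫ x, 1 / (t ^ 2 + x ^ 2) ∂ν ≤
      1 / t ^ 2 * ν.real (Set.Icc (-s) s) + 2 * ∫ x, 1 / (s ^ 2 + x ^ 2) ∂ν := by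
  have := h.1
  have i1 : Integrable ((Set.Icc (-s) s).indicator (1 : ℝ → ℝ)) ν :=
    (integrable_const 1).indicator measurableSet_Icc
  have i2 := h.integrable (res_cont hs)
  rw [← integral_indicator_one measurableSet_Icc, ← integral_const_mul, ← integral_const_mul,
    ← integral_add (i1.const_mul _) (i2.const_mul _)]
  refine integral_mono (h.integrable (res_cont ht)) ((i1.const_mul _).add (i2.const_mul _))
    fun x => ?_
  change 1 / (t ^ 2 + x ^ 2) ≤
    1 / t ^ 2 * (Set.Icc (-s) s).indicator 1 x + 2 * (1 / (s ^ 2 + x ^ 2))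
  by_cases hx : x ∈ Set.Icc (-s) s
  · rw [Set.indicator_of_mem hx, Pi.one_apply, mul_one]
    have h1 : 1 / (t ^ 2 + x ^ 2) ≤ 1 / t ^ 2 :=
      one_div_le_one_div_of_le (by positivity) (by nlinarith [sq_nonneg x])
    have h2 : 0 ≤ 2 * (1 / (s ^ 2 + x ^ 2)) := by positivity
    linarith
  · rw [Set.indicator_of_notMem hx, mul_zero, zero_add, mul_one_div,
      div_le_div_iff₀ (by positivity) (by positivity)]
    have h1 : s ^ 2 ≤ x ^ 2 := by
      rw [Set.mem_Icc, ← abs_le, not_le] at hx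
      rw [← sq_abs x]
      exact pow_le_pow_left₀ hs.le hx.le 2
    nlinarith [sq_nonneg t]

theorem ext_three (hd : 3 ≤ d) (o : Fin d → ℤ) {ν : Measure ℝ}
    (hν : IsMatchingMeasure (lattice d) o ν) : HasExtendedStates ν 0 := by
  intro hno
  obtain ⟨g1, -⟩ := (mm_lattice o).2 ν hν
  obtain ⟨c, hc, hm⟩ := mag_lower hd
  have low : ∀ t, 0 < t → t ≤ 1 → c / 2 ≤ t * ∫ x, 1 / (t ^ 2 + x ^ 2) ∂ν := by
    intro t ht t1
    obtain ⟨L0, hL0⟩ := hm t ht t1
    obtain ⟨n, hn⟩ := exists_nat_ge ((((2 * d : ℕ) : ℝ) + 1) / t)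
    rw [div_le_iff₀ ht] at hn
    have h1 := hL0 (2 * (2 * n + 1 + L0 + 1)) (2 * n + 1 + L0 + 1) rfl (by omega)
    have h2 := res_ge o hν ht n (2 * (2 * n + 1 + L0 + 1)) hn (by omega)
    have h3 := (isZ_ZT (d := d) (L := 2 * (2 * n + 1 + L0 + 1)) (by omega) t).pos ht univ
    rw [div_le_iff₀ (by positivity)] at h2
    refine le_of_mul_le_mul_right ?_ h3
    linarith
  have h0 : ν.real {0} = 0 := by
    rw [Measure.real, atom_lattice (by omega) o hν, ENNReal.toReal_zero]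
  have ev := (hno.eventually (gt_mem_nhds (show (0 : ℝ) < c / 32 by positivity))).and
    self_mem_nhdsWithin
  obtain ⟨δ0, hδ0, hδ⟩ := (nhdsGT_basis (0 : ℝ)).eventually_iff.1 ev
  set s0 := min (δ0 / 2) 1 with hs0
  have hs : 0 < s0 := by positivity
  have win : ∀ s, 0 < s → s ≤ s0 → ν.real (Set.Icc (-s) s) ≤ c / 32 * s := by
    intro s h1 h2
    have h3 := (hδ (show s ∈ Set.Ioo 0 δ0 from
      ⟨h1, by linarith [h2.trans (min_le_left _ _)]⟩)).1
    rw [h0, zero_sub, zero_add, sub_zero, one_div, inv_mul_lt_iff₀ h1] at h3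
    linarith
  set G : ℝ → ℝ := fun t => t * ∫ x, 1 / (t ^ 2 + x ^ 2) ∂ν with hG
  have step : ∀ s, 0 < s → s ≤ s0 → G (s / 4) ≤ c / 8 + G s / 2 := by
    intro s h1 h2
    have h3 := mul_le_mul_of_nonneg_left
      (res_split (show 0 < s / 4 by positivity) h1 g1) (show 0 ≤ s / 4 by positivity)
    have h4 : s / 4 * (1 / (s / 4) ^ 2 * ν.real (Set.Icc (-s) s)) ≤ c / 8 := by
      refine (mul_le_mul_of_nonneg_left (mul_le_mul_of_nonneg_left (win s h1 h2)
        (by positivity)) (by positivity)).trans (le_of_eq ?_)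
      field_simp
      ring
    simp only [hG]
    linarith
  have iter : ∀ j : ℕ, G (s0 / 4 ^ j) ≤ c / 4 + G s0 * (1 / 2) ^ j := by
    intro j
    induction j with
    | zero => simp; positivity
    | succ j ih =>
      have h1 := step (s0 / 4 ^ j) (by positivity) (div_le_self hs.le (one_le_pow₀ (by norm_num)))
      rw [div_div, ← pow_succ] at h1
      rw [pow_succ (1 / 2 : ℝ)]
      linarith
  have G0 : 0 < G s0 := lt_of_lt_of_le (by positivity) (low s0 hs (min_le_right _ _))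
  obtain ⟨j, hj⟩ := exists_pow_lt_of_lt_one (show 0 < c / 4 / G s0 by positivity)
    (show (1 / 2 : ℝ) < 1 by norm_num)
  rw [lt_div_iff₀ G0] at hj
  have h1 := iter j
  have h2 := low (s0 / 4 ^ j) (by positivity)
    ((div_le_self hs.le (one_le_pow₀ (by norm_num))).trans (min_le_right _ _))
  simp only [hG] at h1 hj
  linarith

theorem ext_two_of (hd : 0 < d) (mw : ∀ ε : ℝ, 0 < ε → ∃ t0 : ℝ, 0 < t0 ∧ ∀ t, 0 < t → t ≤ t0 →
      ∃ L0 : ℕ, ∀ (L M : ℕ) [NeZero L], L = 2 * M → L0 ≤ L →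
        ZT d L t (univ.erase 0) ≤ ε * ZT d L t univ)
    (o : Fin d → ℤ) {ν : Measure ℝ} (hν : IsMatchingMeasure (lattice d) o ν) :
    NoExtendedStates ν 0 := by
  obtain ⟨g1, -⟩ := (mm_lattice o).2 ν hν
  have h0 : ν.real {0} = 0 := by
    rw [Measure.real, atom_lattice hd o hν, ENNReal.toReal_zero]
  refine Metric.tendsto_nhds.2 fun ε hε => ?_
  obtain ⟨t0, ht0, hm⟩ := mw (ε / 8) (by positivity)
  filter_upwards [Ioo_mem_nhdsGT ht0] with t ht
  obtain ⟨L0, hL0⟩ := hm t ht.1 ht.2.le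
  have ht1 := ht.1
  obtain ⟨n, hn⟩ := exists_nat_ge ((((2 * d : ℕ) : ℝ) + 1) / t)
  rw [div_le_iff₀ ht1] at hn
  have h1 := hL0 (2 * (2 * n + 1 + L0 + 1)) (2 * n + 1 + L0 + 1) rfl (by omega)
  have h2 := res_le o hν ht1 n (2 * (2 * n + 1 + L0 + 1)) hn (by omega)
  have h3 := (isZ_ZT (d := d) (L := 2 * (2 * n + 1 + L0 + 1)) (by omega) t).pos ht1 univ
  have h4 : ∫ x, 1 / (t ^ 2 + x ^ 2) ∂ν ≤ 2 * (ε / 8 / t) := by
    refine h2.trans (mul_le_mul_of_nonneg_left ?_ (by norm_num))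
    rw [div_le_div_iff₀ (by positivity) ht1]
    nlinarith
  have h5 := (window_le ht1 g1).trans (mul_le_mul_of_nonneg_left h4 (by positivity))
  rw [show 2 * t ^ 2 * (2 * (ε / 8 / t)) = t * (ε / 2) by field_simp; ring] at h5
  rw [h0, zero_sub, zero_add, sub_zero, Real.dist_eq, sub_zero, abs_of_nonneg (by positivity),
    one_div, inv_mul_lt_iff₀ ht1]
  nlinarith

end Pool.Agent.Lib.MP_3755f6_co
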