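import Pool.Agent.Lib.MP_3755f6_co.Tree

namespace Pool.Agent.Lib.MP_3755f6_co

open Finset

variable {V : Type*} [DecidableEq V]

/-- the monomer-dimer recursion -/
def IsZ (nb : V → Finset V) (t : ℝ) (Z : Finset V → ℝ) : Prop :=
  Z ∅ = 1 ∧ ∀ S x, x ∈ S →
    Z S = t * Z (S.erase x) + ∑ w ∈ nb x ∩ S.erase x, Z ((S.erase x).erase w)

lemma IsZ.nonneg {nb : V → Finset V} {t : ℝ} {Z : Finset V → ℝ} (h : IsZ nb t Z) (ht : 0 ≤ t)
    (S : Finset V) : 0 ≤ Z S := by
  induction S using Finset.strongInduction with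
  | H S ih =>
    rcases S.eq_empty_or_nonempty with rfl | ⟨x, hx⟩
    · rw [h.1]; norm_num
    · rw [h.2 S x hx]
      have h1 := ih _ (erase_ssubset hx)
      have h2 : 0 ≤ ∑ w ∈ nb x ∩ S.erase x, Z ((S.erase x).erase w) :=
        Finset.sum_nonneg fun w _ => ih _ ((erase_subset _ _).trans_ssubset (erase_ssubset hx))
      positivity

lemma IsZ.pos {nb : V → Finset V} {t : ℝ} {Z : Finset V → ℝ} (h : IsZ nb t Z) (ht : 0 < t)
    (S : Finset V) : 0 < Z S := by
  induction S using Finset.strongInduction with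
  | H S ih =>
    rcases S.eq_empty_or_nonempty with rfl | ⟨x, hx⟩
    · rw [h.1]; norm_num
    · rw [h.2 S x hx]
      have h1 := ih _ (erase_ssubset hx)
      have h2 : 0 ≤ ∑ w ∈ nb x ∩ S.erase x, Z ((S.erase x).erase w) :=
        Finset.sum_nonneg fun w _ => h.nonneg ht.le _
      positivity

lemma IsZ.unique {nb : V → Finset V} {t : ℝ} {Z Z' : Finset V → ℝ} (h : IsZ nb t Z)
    (h' : IsZ nb t Z') (S : Finset V) : Z S = Z' S := by
  induction S using Finset.strongInduction with
  | H S ih =>
    rcases S.eq_empty_or_nonempty with rfl | ⟨x, hx⟩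
    · rw [h.1, h'.1]
    · rw [h.2 S x hx, h'.2 S x hx, ih _ (erase_ssubset hx)]
      congr 1
      exact Finset.sum_congr rfl fun w _ =>
        ih _ ((erase_subset _ _).trans_ssubset (erase_ssubset hx))

lemma IsZ.map {nb : V → Finset V} {t : ℝ} {Z : Finset V → ℝ} (h : IsZ nb t Z) (φ : V ≃ V)
    (hφ : ∀ x y, φ y ∈ nb (φ x) ↔ y ∈ nb x) (S : Finset V) :
    Z (S.map φ.toEmbedding) = Z S := by
  refine IsZ.unique (Z := fun S => Z (S.map φ.toEmbedding)) ⟨by simpa using h.1, ?_⟩ h S
  intro S x hx
  have hx' : φ x ∈ S.map φ.toEmbedding := by simpa using hx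
  have e1 : (S.map φ.toEmbedding).erase (φ x) = (S.erase x).map φ.toEmbedding := by
    rw [Finset.map_erase]; rfl
  beta_reduce
  rw [h.2 _ _ hx', e1]
  congr 1
  have e2 : nb (φ x) ∩ (S.erase x).map φ.toEmbedding = (nb x ∩ S.erase x).map φ.toEmbedding := by
    ext y
    obtain ⟨y, rfl⟩ := φ.surjective y
    simp [hφ]
  rw [e2, Finset.sum_map]
  refine Finset.sum_congr rfl fun w _ => ?_
  rw [← Finset.map_erase]

lemma IsZ.odd {nb : V → Finset V} {Z : Finset V → ℝ} (h : IsZ nb 0 Z)
    (S : Finset V) (hS : Odd S.card) : Z S = 0 := by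
  induction S using Finset.strongInduction with
  | H S ih =>
    rcases S.eq_empty_or_nonempty with rfl | ⟨x, hx⟩
    · simp at hS
    · rw [h.2 S x hx, zero_mul, zero_add]
      refine Finset.sum_eq_zero fun w hw => ih _ ((erase_subset _ _).trans_ssubset
        (erase_ssubset hx)) ?_
      have h1 := card_erase_of_mem hx
      have h2 := card_erase_of_mem (mem_inter.1 hw).2
      have h3 := card_pos.2 ⟨w, (mem_inter.1 hw).2⟩
      rw [h2, h1]
      obtain ⟨k, hk⟩ := hS
      exact ⟨k - 1, by omega⟩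

lemma IsZ.one_le {nb : V → Finset V} {t : ℝ} {Z : Finset V → ℝ} (h : IsZ nb t Z) (ht : 0 ≤ t)
    (σ : V → V) (h1 : ∀ x, σ (σ x) = x) (h2 : ∀ x, σ x ∈ nb x) (h3 : ∀ x, σ x ≠ x)
    (S : Finset V) (hS : ∀ x ∈ S, σ x ∈ S) : 1 ≤ Z S := by
  induction S using Finset.strongInduction with
  | H S ih =>
    rcases S.eq_empty_or_nonempty with rfl | ⟨x, hx⟩
    · rw [h.1]
    · rw [h.2 S x hx]
      have a1 := mul_nonneg ht (h.nonneg ht (S.erase x))
      have a2 : σ x ∈ nb x ∩ S.erase x := by simp [h2, h3, hS x hx]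
      have a3 := Finset.single_le_sum (f := fun w => Z ((S.erase x).erase w))
        (fun w _ => h.nonneg ht _) a2
      have a4 := ih ((S.erase x).erase (σ x))
        ((erase_subset _ _).trans_ssubset (erase_ssubset hx)) (by
          intro y hy
          simp only [mem_erase] at hy ⊢
          refine ⟨fun e => hy.2.1 ?_, fun e => hy.1 ?_, hS y hy.2.2⟩
          · rw [← h1 y, e, h1]
          · rw [← e, h1])
      linarith

lemma IsZ.le_pow {nb : V → Finset V} {Z : Finset V → ℝ} (h : IsZ nb 1 Z) (q : ℕ)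
    (hq : ∀ x, (nb x).card ≤ q) (S : Finset V) : Z S ≤ (q + 1 : ℝ) ^ S.card := by
  induction S using Finset.strongInduction with
  | H S ih =>
    rcases S.eq_empty_or_nonempty with rfl | ⟨x, hx⟩
    · rw [h.1]; simp
    · rw [h.2 S x hx]
      have a1 := ih _ (erase_ssubset hx)
      have hc : S.card = (S.erase x).card + 1 := by
        rw [card_erase_of_mem hx]; have := card_pos.2 ⟨x, hx⟩; omega
      have a2 : ∑ w ∈ nb x ∩ S.erase x, Z ((S.erase x).erase w)
          ≤ (nb x ∩ S.erase x).card • (q + 1 : ℝ) ^ (S.erase x).card := by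
        refine Finset.sum_le_card_nsmul _ _ _ fun w _ => ?_
        refine (ih _ ((erase_subset _ _).trans_ssubset (erase_ssubset hx))).trans ?_
        exact pow_le_pow_right₀ (by linarith [(Nat.cast_nonneg q : (0:ℝ) ≤ q)])
          (card_le_card (erase_subset _ _))
      have a3 : ((nb x ∩ S.erase x).card : ℝ) ≤ q := by
        exact_mod_cast (card_le_card inter_subset_left).trans (hq x)
      rw [nsmul_eq_mul] at a2
      rw [hc, pow_succ]
      have a4 : (0:ℝ) ≤ (q + 1 : ℝ) ^ (S.erase x).card := by positivity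
      nlinarith

/-- paths from `x` (last vertex first) -/
inductive IsP (nb : V → Finset V) (x : V) : List V → Prop
  | root : IsP nb x [x]
  | cons {z w : V} {l : List V} : IsP nb x (z :: l) → w ∈ ch nb (z :: l) → IsP nb x (w :: z :: l)

lemma IsP.nodup {nb : V → Finset V} {x : V} {l : List V} (h : IsP nb x l) : l.Nodup := by
  induction h with
  | root => simp
  | cons _ hw ih => exact List.nodup_cons.2 ⟨(mem_ch.1 hw).2, ih⟩

lemma IsP.ne_nil {nb : V → Finset V} {x : V} {l : List V} (h : IsP nb x l) : l ≠ [] := by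
  cases h <;> simp

lemma IsP.cases' {nb : V → Finset V} {x : V} {l : List V} (h : IsP nb x l) :
    l = [x] ∨ ∃ w z l', l = w :: z :: l' ∧ IsP nb x (z :: l') ∧ w ∈ ch nb (z :: l') := by
  cases h with
  | root => exact Or.inl rfl
  | cons h1 h2 => exact Or.inr ⟨_, _, _, rfl, h1, h2⟩

lemma IsP.subset {nb : V → Finset V} {S : Finset V} {x : V} (hx : x ∈ S) {l : List V}
    (h : IsP (fun y => nb y ∩ S) x l) : ∀ a ∈ l, a ∈ S := by
  induction h with
  | root => simpa using hx
  | cons _ hw ih =>
    intro a ha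
    rcases List.mem_cons.1 ha with rfl | ha
    · exact (mem_inter.1 (mem_ch.1 hw).1).2
    · exact ih a ha

variable [Fintype V]

lemma finite_IsP (nb : V → Finset V) (x : V) : {l | IsP nb x l}.Finite :=
  (List.finite_length_le V (Fintype.card V)).subset fun _ h => h.nodup.length_le_card

/-- the finite set of paths -/
noncomputable def paths (nb : V → Finset V) (x : V) : Finset (List V) := (finite_IsP nb x).toFinset

lemma mem_paths {nb : V → Finset V} {x : V} {l : List V} : l ∈ paths nb x ↔ IsP nb x l := by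
  simp [paths]

lemma cons_mem_paths {nb : V → Finset V} {x w : V} {l : List V} (hl : l ∈ paths nb x)
    (hw : w ∈ ch nb l) : w :: l ∈ paths nb x := by
  rw [mem_paths] at hl ⊢
  cases l with
  | nil => exact absurd rfl hl.ne_nil
  | cons z l => exact hl.cons hw

lemma sum_paths (nb : V → Finset V) (x : V) (g : List V → ℝ) :
    ∑ l ∈ paths nb x, g l = g [x] + ∑ l ∈ paths nb x, ∑ w ∈ ch nb l, g (w :: l) := by
  have hx : [x] ∈ paths nb x := mem_paths.2 IsP.root
  rw [← Finset.add_sum_erase _ _ hx, Finset.sum_sigma']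
  congr 1
  symm
  refine Finset.sum_bij (fun p _ => p.2 :: p.1) ?_ ?_ ?_ (fun _ _ => rfl)
  · rintro ⟨l, w⟩ hp
    rw [mem_sigma] at hp
    refine mem_erase.2 ⟨fun e => ?_, cons_mem_paths hp.1 hp.2⟩
    exact (mem_paths.1 hp.1).ne_nil (List.cons.inj e).2
  · rintro ⟨l, w⟩ _ ⟨l', w'⟩ _ e
    obtain ⟨e1, e2⟩ := List.cons.inj e
    simp only at e1 e2
    subst e1; subst e2; rfl
  · intro l hl
    rcases (mem_paths.1 (mem_erase.1 hl).2).cases' with e | ⟨w, z, l', rfl, h1, h2⟩
    · exact absurd e (mem_erase.1 hl).1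
    · exact ⟨⟨z :: l', w⟩, mem_sigma.2 ⟨mem_paths.2 h1, h2⟩, rfl⟩

/-- vertices of `S` off the path -/
def rem (S : Finset V) (l : List V) : Finset V := S \ l.toFinset

omit [Fintype V] in
lemma rem_nil (S : Finset V) : rem S [] = S := by simp [rem]

omit [Fintype V] in
lemma rem_cons (S : Finset V) (z : V) (l : List V) : rem S (z :: l) = (rem S l).erase z := by
  ext a; simp [rem]; tauto

omit [Fintype V] in
lemma mem_rem {S : Finset V} {l : List V} {a : V} : a ∈ rem S l ↔ a ∈ S ∧ a ∉ l := by
  simp [rem]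

omit [Fintype V] in
lemma ch_eq (nb : V → Finset V) (S : Finset V) (z : V) (l : List V) :
    ch (fun y => nb y ∩ S) (z :: l) = nb z ∩ (rem S l).erase z := by
  ext w; simp [mem_ch, mem_rem]; tauto

lemma IsZ.path_rec {nb : V → Finset V} {t : ℝ} {Z : Finset V → ℝ} (h : IsZ nb t Z)
    {S : Finset V} {x : V} (hx : x ∈ S) {l : List V} (hl : l ∈ paths (fun y => nb y ∩ S) x) :
    Z (rem S l.tail) = t * Z (rem S l) + ∑ w ∈ ch (fun y => nb y ∩ S) l, Z (rem S (w :: l)) := by
  rw [mem_paths] at hl
  cases l with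
  | nil => exact absurd rfl hl.ne_nil
  | cons z l =>
    have hz : z ∈ rem S l := mem_rem.2 ⟨hl.subset hx z (by simp), (List.nodup_cons.1 hl.nodup).1⟩
    rw [List.tail_cons, h.2 _ z hz, ch_eq]
    simp only [rem_cons]

lemma IsZ.chi {nb : V → Finset V} {t : ℝ} {Z : Finset V → ℝ} (h : IsZ nb t Z)
    {S : Finset V} {x : V} (hx : x ∈ S) :
    t * ∑ l ∈ paths (fun y => nb y ∩ S) x, Z (rem S l) ^ 2 = Z S * Z (S.erase x) := by
  have h1 := sum_paths (fun y => nb y ∩ S) x (fun l => Z (rem S l.tail) * Z (rem S l))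
  have h2 : ∑ l ∈ paths (fun y => nb y ∩ S) x, Z (rem S l.tail) * Z (rem S l)
      = t * ∑ l ∈ paths (fun y => nb y ∩ S) x, Z (rem S l) ^ 2 +
        ∑ l ∈ paths (fun y => nb y ∩ S) x, ∑ w ∈ ch (fun y => nb y ∩ S) l,
          Z (rem S l) * Z (rem S (w :: l)) := by
    rw [Finset.mul_sum, ← Finset.sum_add_distrib]
    refine Finset.sum_congr rfl fun l hl => ?_
    rw [h.path_rec hx hl, ← Finset.mul_sum]; ring
  simp only [List.tail_cons, rem_nil] at h1
  rw [rem_cons, rem_nil] at h1
  linarith

lemma IsZ.godsil {nb : V → Finset V} {t : ℝ} {Z : Finset V → ℝ} (h : IsZ nb t Z)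
    {S : Finset V} {x y : V} (hx : x ∈ S) (hy : y ∈ S) (hxy : x ≠ y) :
    Z (S.erase x) * Z (S.erase y) - Z S * Z ((S.erase x).erase y) =
      ∑ l ∈ paths (fun y => nb y ∩ S) x,
        if l.head? = some y then (-1) ^ (l.length + 1) * Z (rem S l) ^ 2 else 0 := by
  set D : List V → ℝ := fun l => if y ∈ l then 0 else (-1) ^ (l.length + 1) *
    (Z (rem S l) * Z ((rem S l.tail).erase y) - Z (rem S l.tail) * Z ((rem S l).erase y)) with hD
  set R : List V → ℝ := fun l =>
    if l.head? = some y then (-1) ^ (l.length + 1) * Z (rem S l) ^ 2 else 0 with hR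
  have key : ∀ l ∈ paths (fun y => nb y ∩ S) x, D l =
      ∑ w ∈ ch (fun y => nb y ∩ S) l, D (w :: l) + ∑ w ∈ ch (fun y => nb y ∩ S) l, R (w :: l) := by
    intro l hl
    have hl' := mem_paths.1 hl
    cases l with
    | nil => exact absurd rfl hl'.ne_nil
    | cons z l =>
    by_cases hyl : y ∈ z :: l
    · have e1 : D (z :: l) = 0 := by simp only [hD]; rw [if_pos hyl]
      rw [e1, Finset.sum_eq_zero, Finset.sum_eq_zero, add_zero]
      · intro w hw
        simp only [hR, List.head?_cons, Option.some.injEq]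
        rw [if_neg]
        rintro rfl
        exact (mem_ch.1 hw).2 hyl
      · intro w _
        simp only [hD]; rw [if_pos (List.mem_cons_of_mem _ hyl)]
    · have hz : z ∈ rem S l :=
        mem_rem.2 ⟨hl'.subset hx z (by simp), (List.nodup_cons.1 hl'.nodup).1⟩
      have hzy : z ≠ y := by rintro rfl; simp at hyl
      have r1 := h.2 _ z hz
      have r2 := h.2 ((rem S l).erase y) z (mem_erase.2 ⟨hzy, hz⟩)
      rw [ch_eq, ← Finset.sum_add_distrib]
      set A := rem S l with hA
      have c1 : (A.erase y).erase z = (A.erase z).erase y := Finset.erase_right_comm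
      have r3 : ∑ w ∈ nb z ∩ (A.erase y).erase z, Z (((A.erase y).erase z).erase w) =
          ∑ w ∈ nb z ∩ A.erase z, if w = y then 0 else Z (((A.erase z).erase w).erase y) := by
        rw [c1, ← Finset.sum_filter_ne_zero (nb z ∩ A.erase z)]
        rw [Finset.sum_filter_ne_zero]
        have : nb z ∩ (A.erase z).erase y = (nb z ∩ A.erase z).filter (fun w => ¬ w = y) := by
          ext w; simp; tauto
        rw [this, Finset.sum_filter]
        refine Finset.sum_congr rfl fun w _ => ?_
        by_cases hw : w = y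
        · simp [hw]
        · simp only [hw, not_false_eq_true, if_true, if_false]
          rw [Finset.erase_right_comm]
      have e1 : D (z :: l) = (-1) ^ (l.length + 1 + 1) *
          (Z (A.erase z) * Z (A.erase y) - Z A * Z ((A.erase z).erase y)) := by
        simp only [hD]; rw [if_neg hyl, List.tail_cons, rem_cons, List.length_cons]
      rw [e1, r2, r3, r1, c1]
      have e2 : ∀ w ∈ nb z ∩ A.erase z, D (w :: z :: l) + R (w :: z :: l) =
          (-1) ^ (l.length + 1 + 1) * (Z (A.erase z) *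
            (if w = y then 0 else Z (((A.erase z).erase w).erase y)) -
            Z ((A.erase z).erase w) * Z ((A.erase z).erase y)) := by
        intro w _
        by_cases hw : w = y
        · subst hw
          simp only [hD, hR, List.mem_cons, true_or, if_true, List.head?_cons, rem_cons,
            List.length_cons, ← hA]
          ring
        · have : y ∉ w :: z :: l := by
            intro hh
            rcases List.mem_cons.1 hh with e | hh
            · exact hw e.symm
            · exact hyl hh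
          simp only [hD, hR]
          rw [if_neg this, if_neg (by simpa using hw), if_neg hw]
          simp only [List.tail_cons, rem_cons, List.length_cons, ← hA]
          ring
      rw [Finset.sum_congr rfl e2, ← Finset.mul_sum, Finset.sum_sub_distrib, ← Finset.mul_sum,
        ← Finset.sum_mul]
      ring
  have s1 := sum_paths (fun y => nb y ∩ S) x D
  have s2 := sum_paths (fun y => nb y ∩ S) x R
  have s3 := Finset.sum_congr rfl key
  rw [Finset.sum_add_distrib] at s3
  have e1 : D [x] = Z (S.erase x) * Z (S.erase y) - Z S * Z ((S.erase x).erase y) := by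
    simp only [hD]
    rw [if_neg (by simpa using hxy.symm)]
    simp [rem_cons, rem_nil]
  have e2 : R [x] = 0 := by
    simp only [hR]; rw [if_neg (by simpa using hxy)]
  linarith

lemma paths_map (nb : V → Finset V) (φ : V ≃ V)
    (hφ : ∀ x y, φ y ∈ nb (φ x) ↔ y ∈ nb x) (x : V) {l : List V} (hl : l ∈ paths nb x) :
    l.map φ ∈ paths nb (φ x) := by
  rw [mem_paths] at hl ⊢
  induction hl with
  | root => exact IsP.root
  | @cons z w l _ hw ih =>
    refine IsP.cons ih ?_
    rw [mem_ch] at hw ⊢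
    refine ⟨(hφ _ _).2 hw.1, fun hh => hw.2 ?_⟩
    rw [← List.map_cons, List.mem_map] at hh
    obtain ⟨a, ha, e⟩ := hh
    exact φ.injective e ▸ ha

lemma sum_paths_map (nb : V → Finset V) (φ : V ≃ V)
    (hφ : ∀ x y, φ y ∈ nb (φ x) ↔ y ∈ nb x) (x : V) (g : List V → ℝ) :
    ∑ l ∈ paths nb (φ x), g l = ∑ l ∈ paths nb x, g (l.map φ) := by
  symm
  refine Finset.sum_bij' (fun l _ => l.map φ) (fun l _ => l.map φ.symm) ?_ ?_ ?_ ?_
    (fun _ _ => rfl)
  · intro l hl; exact paths_map nb φ hφ x hl
  · intro l hl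
    have := paths_map nb φ.symm (fun a b => by
      rw [← hφ]; simp) (φ x) hl
    simpa using this
  · intro l _; simp
  · intro l _; simp

end Pool.Agent.Lib.MP_3755f6_co
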