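import Pool.Agent.Lib.MP_3755f6_co.Fin

/-! Reflection positivity for the monomer-dimer model, combinatorial form. -/

namespace Pool.Agent.Lib.MP_3755f6_co

open Finset

variable {V : Type*} [DecidableEq V]

/-- a reflection of the graph in a pair of edge-bisecting planes -/
structure Cut (nb : V → Finset V) where
  θ : V ≃ V
  P : Finset V
  B : Finset V
  inv : ∀ x, θ (θ x) = x
  side : ∀ x, θ x ∈ P ↔ x ∉ P
  nbθ : ∀ x y, θ y ∈ nb (θ x) ↔ y ∈ nb x
  BP : B ⊆ P
  cross : ∀ x ∈ P, ∀ y, y ∉ P → (y ∈ nb x ↔ x ∈ B ∧ y = θ x)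

variable {nb : V → Finset V} {t : ℝ} {Z : Finset V → ℝ}

namespace Cut

variable (c : Cut nb)

/-- mirror image of a set -/
def im (T : Finset V) : Finset V := T.map c.θ.toEmbedding

omit [DecidableEq V] in
lemma mem_im {T : Finset V} {y : V} : y ∈ c.im T ↔ c.θ y ∈ T := by
  unfold im
  simp only [mem_map, Equiv.coe_toEmbedding]
  constructor
  · rintro ⟨a, ha, rfl⟩; rwa [c.inv]
  · intro h; exact ⟨_, h, c.inv y⟩

lemma glue (h : IsZ nb t Z) (S : Finset V) : S ⊆ c.P → ∀ T, T ⊆ c.P →
    Z (S ∪ c.im T) = ∑ A ∈ (c.B ∩ S ∩ T).powerset, Z (S \ A) * Z (T \ A) := by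
  induction S using Finset.strongInduction with
  | H S ih =>
    intro hS T hT
    rcases S.eq_empty_or_nonempty with rfl | ⟨x, hx⟩
    · simp [h.1, im, h.map c.θ c.nbθ]
    · have hxP := hS hx
      have hxT : x ∉ c.im T := fun hh => (c.side x).1 (hT (c.mem_im.1 hh)) hxP
      have e1 : (S ∪ c.im T).erase x = S.erase x ∪ c.im T := by
        rw [erase_union_distrib, erase_eq_of_notMem hxT]
      have hd : Disjoint (nb x ∩ S.erase x) (nb x ∩ c.im T) := by
        rw [Finset.disjoint_left]
        intro w h1 h2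
        exact (c.side w).1 (hT (c.mem_im.1 (mem_inter.1 h2).2))
          (hS (mem_of_mem_erase (mem_inter.1 h1).2))
      rw [h.2 _ x (mem_union_left _ hx), e1, inter_union_distrib_left, sum_union hd]
      have s1 : S.erase x ⊂ S := erase_ssubset hx
      have k1 := ih _ s1 (s1.subset.trans hS) T hT
      have k2 : ∑ w ∈ nb x ∩ S.erase x, Z ((S.erase x ∪ c.im T).erase w) =
          ∑ A ∈ (c.B ∩ S.erase x ∩ T).powerset,
            (∑ w ∈ nb x ∩ (S \ A).erase x, Z (((S \ A).erase x).erase w)) * Z (T \ A) := by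
        have : ∀ w ∈ nb x ∩ S.erase x, Z ((S.erase x ∪ c.im T).erase w) =
            ∑ A ∈ (c.B ∩ S.erase x ∩ T).powerset, if w ∈ A then 0 else
              Z (((S \ A).erase x).erase w) * Z (T \ A) := by
          intro w hw
          have hwP := hS (mem_of_mem_erase (mem_inter.1 hw).2)
          have hwT : w ∉ c.im T := fun hh => (c.side w).1 (hT (c.mem_im.1 hh)) hwP
          rw [erase_union_distrib, erase_eq_of_notMem hwT,
            ih _ ((erase_subset _ _).trans_ssubset s1)
              (((erase_subset _ _).trans s1.subset).trans hS) T hT, ← Finset.sum_filter_add_sum_filter_not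
              (c.B ∩ S.erase x ∩ T).powerset (fun A => w ∈ A)]
          rw [Finset.sum_eq_zero (s := filter _ _) (fun A hA => if_pos (mem_filter.1 hA).2),
            zero_add]
          refine Finset.sum_congr ?_ ?_
          · ext A
            simp only [mem_powerset, mem_filter, subset_iff, mem_inter, mem_erase]
            constructor
            · intro hA
              exact ⟨fun a ha => ⟨⟨(hA ha).1.1, (hA ha).1.2.2⟩, (hA ha).2⟩,
                fun hw => (hA hw).1.2.1 rfl⟩
            · rintro ⟨hA, hw⟩ a ha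
              exact ⟨⟨(hA ha).1.1, fun e => hw (e ▸ ha), (hA ha).1.2⟩, (hA ha).2⟩
          · intro A hA
            rw [if_neg (mem_filter.1 hA).2]
            congr 2
            ext a; simp only [mem_sdiff, mem_erase]; tauto
        rw [Finset.sum_congr rfl this, Finset.sum_comm]
        refine Finset.sum_congr rfl fun A _ => ?_
        rw [Finset.sum_mul, ← Finset.sum_filter_add_sum_filter_not _ (fun w => w ∈ A),
          Finset.sum_eq_zero (s := filter _ _) (fun w hw => if_pos (mem_filter.1 hw).2), zero_add]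
        refine Finset.sum_congr ?_ fun w hw => ?_
        · ext w; simp only [mem_filter, mem_inter, mem_erase, mem_sdiff]; tauto
        · rw [if_neg (mem_sdiff.1 (mem_of_mem_erase (mem_inter.1 hw).2)).2]
      have k3 : ∑ A ∈ (c.B ∩ S.erase x ∩ T).powerset, Z (S \ A) * Z (T \ A) =
          t * Z (S.erase x ∪ c.im T) + ∑ w ∈ nb x ∩ S.erase x, Z ((S.erase x ∪ c.im T).erase w) := by
        rw [k1, k2, Finset.mul_sum, ← Finset.sum_add_distrib]
        refine Finset.sum_congr rfl fun A hA => ?_
        have hxA : x ∉ A := fun hh => by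
          have := mem_powerset.1 hA hh
          simp at this
        rw [h.2 (S \ A) x (mem_sdiff.2 ⟨hx, hxA⟩)]
        have : (S \ A).erase x = S.erase x \ A := by
          ext a; simp only [mem_sdiff, mem_erase]; tauto
        rw [this]; ring
      rw [← add_assoc, ← k3]
      by_cases hb : x ∈ c.B ∧ x ∈ T
      · have e2 : nb x ∩ c.im T = {c.θ x} := by
          ext w
          simp only [mem_inter, mem_singleton, c.mem_im]
          constructor
          · rintro ⟨h1, h2⟩
            exact ((c.cross x hxP w ((c.side w).1 (hT h2))).1 h1).2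
          · rintro rfl
            exact ⟨(c.cross x hxP _ (fun hh => (c.side x).1 hh hxP)).2 ⟨hb.1, rfl⟩,
              by rw [c.inv]; exact hb.2⟩
        have e3 : c.B ∩ S ∩ T = insert x (c.B ∩ S.erase x ∩ T) := by
          ext a
          simp only [mem_inter, mem_insert, mem_erase]
          constructor
          · rintro ⟨⟨h1, h2⟩, h3⟩
            by_cases ha : a = x
            · exact Or.inl ha
            · exact Or.inr ⟨⟨h1, ha, h2⟩, h3⟩
          · rintro (rfl | ⟨⟨h1, -, h2⟩, h3⟩)
            · exact ⟨⟨hb.1, hx⟩, hb.2⟩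
            · exact ⟨⟨h1, h2⟩, h3⟩
        have e4 : (S.erase x ∪ c.im T).erase (c.θ x) = S.erase x ∪ c.im (T.erase x) := by
          ext a
          simp only [mem_erase, mem_union, c.mem_im]
          constructor
          · rintro ⟨h1, h2 | h2⟩
            · exact Or.inl h2
            · exact Or.inr ⟨fun e => h1 (by rw [← e, c.inv]), h2⟩
          · rintro (h2 | ⟨h1, h2⟩)
            · exact ⟨fun e => (c.side x).1 (e ▸ hS h2.2) hxP, Or.inl h2⟩
            · exact ⟨fun e => h1 (by rw [e, c.inv]), Or.inr h2⟩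
        rw [e2, sum_singleton, e3, Finset.sum_powerset_insert (by simp), e4,
          ih _ s1 (s1.subset.trans hS) _ ((erase_subset _ _).trans hT)]
        congr 1
        refine Finset.sum_congr ?_ fun A _ => ?_
        · congr 1
          ext a; simp only [mem_inter, mem_erase]; tauto
        · congr 2 <;> (ext a; simp only [mem_sdiff, mem_erase, mem_insert]; tauto)
      · have e2 : nb x ∩ c.im T = ∅ := by
          refine eq_empty_of_forall_notMem fun w hw => hb ?_
          obtain ⟨h1, h2⟩ := mem_inter.1 hw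
          rw [c.mem_im] at h2
          obtain ⟨h3, rfl⟩ := (c.cross x hxP w ((c.side w).1 (hT h2))).1 h1
          exact ⟨h3, by rwa [c.inv] at h2⟩
        have e3 : c.B ∩ S ∩ T = c.B ∩ S.erase x ∩ T := by
          ext a
          simp only [mem_inter, mem_erase]
          constructor
          · rintro ⟨⟨h1, h2⟩, h3⟩
            exact ⟨⟨h1, fun e => hb (e ▸ ⟨h1, h3⟩), h2⟩, h3⟩
          · tauto
        rw [e2, sum_empty, add_zero, e3]

/-- vectors of the reflection positivity Hilbert space -/
noncomputable def vec (Z : Finset V → ℝ) (D D' S : Finset V) (A : Finset V) : ℝ :=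
  if D ⊆ A ∧ Disjoint (A \ D') S then Z (c.P \ (A \ D' ∪ S)) else 0

/-- the inner product -/
noncomputable def ip (f g : Finset V → ℝ) : ℝ := ∑ A ∈ c.B.powerset, f A * g A

variable [Fintype V]

lemma ip_vec_aux (h : IsZ nb t Z) (ht : 0 ≤ t) {D₁ D₁' S₁ D₂ D₂' S₂ : Finset V}
    (h1 : D₁' ⊆ D₁) (h2 : D₂' ⊆ D₂) (b1 : D₁ ⊆ c.B) (b2 : D₂ ⊆ c.B) (p1 : S₁ ⊆ c.P)
    (p2 : S₂ ⊆ c.P) :
    c.ip (c.vec Z D₁ D₁' S₁) (c.vec Z D₂ D₂' S₂) ≤
      Z (univ \ (((D₁ ∪ D₂) \ D₁' ∪ S₁) ∪ c.im ((D₁ ∪ D₂) \ D₂' ∪ S₂))) ∧
    (Disjoint D₁' D₂' → c.ip (c.vec Z D₁ D₁' S₁) (c.vec Z D₂ D₂' S₂) =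
      if Disjoint ((D₁ ∪ D₂) \ D₁') S₁ ∧ Disjoint ((D₁ ∪ D₂) \ D₂') S₂ then
      Z (univ \ (((D₁ ∪ D₂) \ D₁' ∪ S₁) ∪ c.im ((D₁ ∪ D₂) \ D₂' ∪ S₂))) else 0) := by
  set D := D₁ ∪ D₂ with hD
  set U₁ := D \ D₁' ∪ S₁ with hU₁
  set U₂ := D \ D₂' ∪ S₂ with hU₂
  have hDB : D ⊆ c.B := union_subset b1 b2
  have hU1 : U₁ ⊆ c.P := union_subset (sdiff_subset.trans (hDB.trans c.BP)) p1
  have hU2 : U₂ ⊆ c.P := union_subset (sdiff_subset.trans (hDB.trans c.BP)) p2
  have e0 : univ \ (U₁ ∪ c.im U₂) = (c.P \ U₁) ∪ c.im (c.P \ U₂) := by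
    ext a
    simp only [mem_sdiff, mem_univ, true_and, mem_union, c.mem_im, c.side]
    by_cases ha : a ∈ c.P
    · have : c.θ a ∉ U₂ := fun hh => (c.side a).1 (hU2 hh) ha
      simp [ha, this]
    · have : a ∉ U₁ := fun hh => ha (hU1 hh)
      simp [ha, this]
  have g := c.glue h (c.P \ U₁) sdiff_subset (c.P \ U₂) sdiff_subset
  rw [← e0] at g
  have e1 : c.ip (c.vec Z D₁ D₁' S₁) (c.vec Z D₂ D₂' S₂) =
      if Disjoint (D \ D₁') S₁ ∧ Disjoint (D \ D₂') S₂ then
        ∑ A ∈ (c.B \ (D ∪ S₁ ∪ S₂)).powerset, Z ((c.P \ U₁) \ A) * Z ((c.P \ U₂) \ A) else 0 := by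
    unfold ip vec
    split_ifs with hd
    · rw [← Finset.sum_filter_add_sum_filter_not _
        (fun A => D ⊆ A ∧ Disjoint (A \ D) (S₁ ∪ S₂))]
      rw [Finset.sum_eq_zero (s := filter (fun A => ¬ _) _), add_zero]
      · symm
        refine Finset.sum_nbij' (fun A => A ∪ D) (fun A => A \ D) ?_ ?_ ?_ ?_ ?_
        · intro A hA
          have hA' := mem_powerset.1 hA
          refine mem_filter.2 ⟨mem_powerset.2 (union_subset (hA'.trans sdiff_subset) hDB),
            subset_union_right, ?_⟩
          rw [Finset.disjoint_left]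
          intro a ha ha'
          have : a ∈ A := by
            simp only [mem_sdiff, mem_union] at ha; tauto
          have := hA' this
          simp only [mem_sdiff, mem_union] at this ha'; tauto
        · intro A hA
          obtain ⟨hA1, -, hA3⟩ := mem_filter.1 hA
          refine mem_powerset.2 fun a ha => ?_
          have k1 := mem_powerset.1 hA1 (mem_sdiff.1 ha).1
          have k2 := Finset.disjoint_left.1 hA3 ha
          have k3 := (mem_sdiff.1 ha).2
          simp only [mem_sdiff, mem_union] at k2 ⊢; tauto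
        · intro A hA
          have hA' := mem_powerset.1 hA
          ext a
          have := @hA' a
          simp only [mem_sdiff, mem_union] at this ⊢; tauto
        · intro A hA
          exact sdiff_union_of_subset (mem_filter.1 hA).2.1
        · intro A hA
          have hA' := mem_powerset.1 hA
          have k : ∀ a ∈ A, a ∉ D ∧ a ∉ S₁ ∧ a ∉ S₂ := fun a ha => by
            have := hA' ha
            simp only [mem_sdiff, mem_union] at this; tauto
          have f1 : (A ∪ D) \ D₁' = A ∪ D \ D₁' := by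
            ext a
            have := k a
            have := @h1 a
            simp only [mem_sdiff, mem_union, hD] at *; tauto
          have f2 : (A ∪ D) \ D₂' = A ∪ D \ D₂' := by
            ext a
            have := k a
            have := @h2 a
            simp only [mem_sdiff, mem_union, hD] at *; tauto
          rw [if_pos, if_pos, f1, f2]
          · congr 2 <;> (ext a; simp only [mem_sdiff, mem_union, hU₁, hU₂]; tauto)
          · refine ⟨subset_union_right.trans subset_union_right, ?_⟩
            rw [f2, disjoint_union_left]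
            exact ⟨Finset.disjoint_left.2 fun a ha => (k a ha).2.2, hd.2⟩
          · refine ⟨subset_union_left.trans subset_union_right, ?_⟩
            rw [f1, disjoint_union_left]
            exact ⟨Finset.disjoint_left.2 fun a ha => (k a ha).2.1, hd.1⟩
      · intro A hA
        have hA2 := (mem_filter.1 hA).2
        split_ifs with a1 a2
        · refine absurd ⟨union_subset a1.1 a2.1, ?_⟩ hA2
          rw [disjoint_union_right]
          exact ⟨a1.2.mono_left (sdiff_subset_sdiff le_rfl (h1.trans subset_union_left)),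
            a2.2.mono_left (sdiff_subset_sdiff le_rfl (h2.trans subset_union_right))⟩
        all_goals simp
    · refine Finset.sum_eq_zero fun A _ => ?_
      split_ifs with a1 a2
      · have : D ⊆ A := union_subset a1.1 a2.1
        exact absurd ⟨a1.2.mono_left (sdiff_subset_sdiff this le_rfl),
          a2.2.mono_left (sdiff_subset_sdiff this le_rfl)⟩ hd
      all_goals simp
  have sub : c.B \ (D ∪ S₁ ∪ S₂) ⊆ c.B ∩ (c.P \ U₁) ∩ (c.P \ U₂) := by
    intro a ha
    have := c.BP (mem_sdiff.1 ha).1
    simp only [mem_sdiff, mem_union, mem_inter, hU₁, hU₂] at ha ⊢; tauto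
  constructor
  · rw [e1, g]
    split_ifs
    · exact Finset.sum_le_sum_of_subset_of_nonneg (powerset_mono.2 sub)
        fun A _ _ => mul_nonneg (h.nonneg ht _) (h.nonneg ht _)
    · exact Finset.sum_nonneg fun A _ => mul_nonneg (h.nonneg ht _) (h.nonneg ht _)
  · intro hdd
    have : c.B \ (D ∪ S₁ ∪ S₂) = c.B ∩ (c.P \ U₁) ∩ (c.P \ U₂) := by
      refine subset_antisymm sub fun a ha => ?_
      have := @Finset.disjoint_left.1 hdd a
      simp only [mem_sdiff, mem_union, mem_inter, hU₁, hU₂] at ha ⊢; tauto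
    rw [e1, g, this]

end Cut

end Pool.Agent.Lib.MP_3755f6_co
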