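import Pool.Agent.Lib.MP_3755f6_co.MW1

/-! The monomer-dimer measure on matchings, written as involutions. -/

namespace Pool.Agent.Lib.MP_3755f6_co

open Finset

variable {V : Type*} [DecidableEq V] [Fintype V]

/-- matchings of the subgraph on `S`, as involutions -/
def Conf (nb : V → Finset V) (S : Finset V) : Finset (V → V) :=
  univ.filter fun π => ∀ x, π (π x) = x ∧ (π x = x ∨ (x ∈ S ∧ π x ∈ S ∧ π x ∈ nb x))

/-- weight of a matching -/
noncomputable def wt (t : ℝ) (S : Finset V) (π : V → V) : ℝ := ∏ x ∈ S, if π x = x then t else 1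

/-- unnormalised expectation -/
noncomputable def Ex (nb : V → Finset V) (t : ℝ) (S : Finset V) (g : (V → V) → ℝ) : ℝ :=
  ∑ π ∈ Conf nb S, wt t S π * g π

/-- indicator that `x` is matched with `w` -/
noncomputable def dm (x w : V) (π : V → V) : ℝ := if π x = w then 1 else 0

variable {nb : V → Finset V} {t : ℝ} {Z : Finset V → ℝ}

lemma mem_Conf {S : Finset V} {π : V → V} : π ∈ Conf nb S ↔
    ∀ x, π (π x) = x ∧ (π x = x ∨ (x ∈ S ∧ π x ∈ S ∧ π x ∈ nb x)) := by simp [Conf]

omit [Fintype V] in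
lemma wt_nonneg (ht : 0 ≤ t) (S : Finset V) (π : V → V) : 0 ≤ wt t S π :=
  Finset.prod_nonneg fun x _ => by split_ifs <;> [exact ht; norm_num]

lemma Ex_mono (ht : 0 ≤ t) (S : Finset V) {f g : (V → V) → ℝ} (h : ∀ π ∈ Conf nb S, f π ≤ g π) :
    Ex nb t S f ≤ Ex nb t S g :=
  Finset.sum_le_sum fun π hπ => mul_le_mul_of_nonneg_left (h π hπ) (wt_nonneg ht S π)

lemma Ex_congr (S : Finset V) {f g : (V → V) → ℝ} (h : ∀ π ∈ Conf nb S, f π = g π) :
    Ex nb t S f = Ex nb t S g :=
  Finset.sum_congr rfl fun π hπ => by rw [h π hπ]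

lemma Ex_add (S : Finset V) (f g : (V → V) → ℝ) :
    Ex nb t S (fun π => f π + g π) = Ex nb t S f + Ex nb t S g := by
  simp only [Ex, mul_add, Finset.sum_add_distrib]

lemma Ex_smul (S : Finset V) (a : ℝ) (f : (V → V) → ℝ) :
    Ex nb t S (fun π => a * f π) = a * Ex nb t S f := by
  simp only [Ex, Finset.mul_sum]
  exact Finset.sum_congr rfl fun π _ => by ring

lemma Ex_sum {ι : Type*} (S : Finset V) (I : Finset ι) (f : ι → (V → V) → ℝ) :
    Ex nb t S (fun π => ∑ i ∈ I, f i π) = ∑ i ∈ I, Ex nb t S (f i) := by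
  simp only [Ex, Finset.mul_sum]
  rw [Finset.sum_comm]

lemma Ex_zero (S : Finset V) : Ex nb t S (fun _ => 0) = 0 := by simp [Ex]

lemma Ex_monomer (S : Finset V) {x : V} (hx : x ∈ S) (g : (V → V) → ℝ) :
    Ex nb t S (fun π => dm x x π * g π) = t * Ex nb t (S.erase x) g := by
  unfold Ex
  rw [← Finset.sum_filter_add_sum_filter_not _ (fun π => π x = x),
    Finset.sum_eq_zero (s := filter (fun π => ¬ _) _)
      (fun π hπ => by simp [dm, (mem_filter.1 hπ).2]), add_zero, Finset.mul_sum]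
  refine Finset.sum_congr ?_ fun π hπ => ?_
  · ext π
    simp only [mem_filter, mem_Conf, mem_erase]
    constructor
    · rintro ⟨h1, h2⟩ y
      refine ⟨(h1 y).1, ?_⟩
      by_cases hy : π y = y
      · exact Or.inl hy
      · rcases (h1 y).2 with h3 | h3
        · exact Or.inl h3
        · refine Or.inr ⟨⟨fun e => hy (e ▸ h2), h3.1⟩, ⟨fun e => hy ?_, h3.2.1⟩, h3.2.2⟩
          rw [e, ← (h1 y).1, e, h2]
    · intro h1
      refine ⟨fun y => ⟨(h1 y).1, ?_⟩, ?_⟩
      · rcases (h1 y).2 with h3 | h3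
        · exact Or.inl h3
        · exact Or.inr ⟨h3.1.2, h3.2.1.2, h3.2.2⟩
      · rcases (h1 x).2 with h3 | h3
        · exact h3
        · exact absurd rfl h3.1.1
  · have h2 : π x = x := by
      rcases (mem_Conf.1 hπ x).2 with h3 | h3
      · exact h3
      · simp at h3
    unfold wt
    rw [← Finset.mul_prod_erase S _ hx]
    simp [dm, h2]; ring

lemma Ex_dimer (hs : ∀ x y, y ∈ nb x → x ∈ nb y) (S : Finset V) {x w : V} (hx : x ∈ S)
    (hw : w ∈ S) (hn : w ∈ nb x) (hne : w ≠ x) (g : (V → V) → ℝ) :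
    Ex nb t S (fun π => dm x w π * g π) =
      Ex nb t ((S.erase x).erase w) (fun π => g (π ∘ Equiv.swap x w)) := by
  unfold Ex
  rw [← Finset.sum_filter_add_sum_filter_not _ (fun π => π x = w),
    Finset.sum_eq_zero (s := filter (fun π => ¬ _) _)
      (fun π hπ => by simp [dm, (mem_filter.1 hπ).2]), add_zero]
  have fx : ∀ π ∈ Conf nb ((S.erase x).erase w), π x = x ∧ π w = w := by
    intro π hπ
    constructor
    · rcases (mem_Conf.1 hπ x).2 with h3 | h3
      · exact h3
      · simp at h3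
    · rcases (mem_Conf.1 hπ w).2 with h3 | h3
      · exact h3
      · simp at h3
  symm
  refine Finset.sum_nbij' (fun π => π ∘ Equiv.swap x w) (fun π => π ∘ Equiv.swap x w)
    ?_ ?_ ?_ ?_ ?_
  · intro π hπ
    obtain ⟨f1, f2⟩ := fx π hπ
    have h1 := mem_Conf.1 hπ
    refine mem_filter.2 ⟨mem_Conf.2 fun y => ?_, by simp [f2]⟩
    by_cases a1 : y = x
    · subst a1; simp [f1, f2, hx, hw, hn]
    by_cases a2 : y = w
    · subst a2; simp [f1, f2, hx, hw, hs _ _ hn]
    have b1 : π y ≠ x := fun e => a1 (by rw [← (h1 y).1, e, f1])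
    have b2 : π y ≠ w := fun e => a2 (by rw [← (h1 y).1, e, f2])
    simp only [Function.comp, Equiv.swap_apply_of_ne_of_ne a1 a2,
      Equiv.swap_apply_of_ne_of_ne b1 b2]
    refine ⟨(h1 y).1, ?_⟩
    rcases (h1 y).2 with h3 | h3
    · exact Or.inl h3
    · exact Or.inr ⟨mem_of_mem_erase (mem_of_mem_erase h3.1),
        mem_of_mem_erase (mem_of_mem_erase h3.2.1), h3.2.2⟩
  · intro π hπ
    obtain ⟨hπ1, f1⟩ := mem_filter.1 hπ
    have h1 := mem_Conf.1 hπ1
    have f2 : π w = x := by rw [← f1, (h1 x).1]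
    refine mem_Conf.2 fun y => ?_
    by_cases a1 : y = x
    · subst a1; simp [f2]
    by_cases a2 : y = w
    · subst a2; simp [f1]
    have b1 : π y ≠ x := fun e => a2 (by rw [← (h1 y).1, e, f1])
    have b2 : π y ≠ w := fun e => a1 (by rw [← (h1 y).1, e, f2])
    simp only [Function.comp, Equiv.swap_apply_of_ne_of_ne a1 a2,
      Equiv.swap_apply_of_ne_of_ne b1 b2]
    refine ⟨(h1 y).1, ?_⟩
    rcases (h1 y).2 with h3 | h3
    · exact Or.inl h3
    · exact Or.inr ⟨by simp [a1, a2, h3.1], by simp [b1, b2, h3.2.1], h3.2.2⟩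
  · intro π _; ext y; simp
  · intro π _; ext y; simp
  · intro π hπ
    obtain ⟨f1, f2⟩ := fx π hπ
    have hw' : w ∈ S.erase x := mem_erase.2 ⟨hne, hw⟩
    have : wt t S (π ∘ Equiv.swap x w) = wt t ((S.erase x).erase w) π := by
      unfold wt
      rw [← Finset.mul_prod_erase S _ hx, ← Finset.mul_prod_erase _ _ hw']
      simp only [Function.comp, Equiv.swap_apply_left, Equiv.swap_apply_right, f1, f2, hne,
        hne.symm, if_false, one_mul]
      refine Finset.prod_congr rfl fun y hy => ?_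
      simp only [Equiv.swap_apply_of_ne_of_ne (mem_erase.1 (mem_of_mem_erase hy)).1
        (mem_erase.1 hy).1]
    rw [this]
    simp [dm, f2]

lemma one_eq_sum_dm {S : Finset V} {π : V → V} (hπ : π ∈ Conf nb S) (x : V) :
    (1 : ℝ) = dm x x π + ∑ w ∈ nb x ∩ S.erase x, dm x w π := by
  simp only [dm, Finset.sum_ite_eq, mem_inter, mem_erase]
  by_cases h : π x = x
  · simp [h]
  · rcases (mem_Conf.1 hπ x).2 with h3 | h3
    · exact absurd h3 h
    · simp [h, h3]

lemma isZ_Ex (hs : ∀ x y, y ∈ nb x → x ∈ nb y) : IsZ nb t (fun S => Ex nb t S fun _ => 1) := by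
  constructor
  · have : Conf nb ∅ = {id} := by
      ext π
      simp only [mem_Conf, mem_singleton, notMem_empty, false_and, or_false]
      constructor
      · intro h; ext y; exact (h y).2
      · rintro rfl; simp
    simp [Ex, this, wt]
  · intro S x hx
    beta_reduce
    rw [Ex_congr S (g := fun π => dm x x π * 1 + ∑ w ∈ nb x ∩ S.erase x, dm x w π * 1)
      (fun π hπ => by simpa using one_eq_sum_dm hπ x), Ex_add, Ex_sum, Ex_monomer S hx]
    congr 1
    refine Finset.sum_congr rfl fun w hw => ?_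
    obtain ⟨h1, h2⟩ := mem_inter.1 hw
    rw [Ex_dimer hs S hx (mem_of_mem_erase h2) h1 (mem_erase.1 h2).1]

lemma Ex_one (hs : ∀ x y, y ∈ nb x → x ∈ nb y) (h : IsZ nb t Z) (S : Finset V) :
    Ex nb t S (fun _ => 1) = Z S := (isZ_Ex hs).unique h S

lemma Ex_mu (hs : ∀ x y, y ∈ nb x → x ∈ nb y) (h : IsZ nb t Z) (x : V) :
    Ex nb t univ (dm x x) = t * Z (univ.erase x) := by
  rw [← Ex_one hs h, ← Ex_monomer univ (mem_univ x)]
  simp

lemma Ex_dm (hs : ∀ x y, y ∈ nb x → x ∈ nb y) (h : IsZ nb t Z) (S : Finset V) {x w : V}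
    (hn : w ∈ nb x) (hne : w ≠ x) :
    Ex nb t S (dm x w) = if x ∈ S ∧ w ∈ S then Z (S \ {x, w}) else 0 := by
  split_ifs with hS
  · have := Ex_dimer (t := t) hs S hS.1 hS.2 hn hne (fun _ => 1)
    simp only [mul_one] at this
    rw [this, Ex_one hs h]
    congr 1
    ext a; simp only [mem_erase, mem_sdiff, mem_insert, mem_singleton]; tauto
  · rw [← Ex_zero (nb := nb) (t := t) S]
    refine Ex_congr S fun π hπ => ?_
    rw [dm, if_neg]
    rintro rfl
    rcases (mem_Conf.1 hπ x).2 with h3 | h3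
    · exact hne h3
    · exact hS ⟨h3.1, h3.2.1⟩

/-- the two-dimer correlation -/
lemma Ex_dm_dm (hs : ∀ x y, y ∈ nb x → x ∈ nb y) (h : IsZ nb t Z) {x w y z : V}
    (hn : w ∈ nb x) (hne : w ≠ x) (hn' : z ∈ nb y) (hne' : z ≠ y) :
    Ex nb t univ (fun π => dm x w π * dm y z π) =
      if (y = x ∧ z = w) ∨ (y = w ∧ z = x) then Z (univ \ {x, w}) else
        if Disjoint ({x, w} : Finset V) {y, z} then Z (univ \ ({x, w} ∪ {y, z})) else 0 := by
  have e0 : (univ.erase x).erase w = univ \ {x, w} := by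
    ext a; simp only [mem_erase, mem_sdiff, mem_insert, mem_singleton]; tauto
  rw [Ex_dimer hs univ (mem_univ x) (mem_univ w) hn hne, e0]
  have fx : ∀ π ∈ Conf nb (univ \ {x, w}), π x = x ∧ π w = w := by
    intro π hπ
    constructor
    · rcases (mem_Conf.1 hπ x).2 with h3 | h3
      · exact h3
      · simp at h3
    · rcases (mem_Conf.1 hπ w).2 with h3 | h3
      · exact h3
      · simp at h3
  by_cases a1 : y = x
  · subst a1
    by_cases a2 : z = w
    · subst a2
      rw [if_pos (Or.inl ⟨rfl, rfl⟩), ← Ex_one hs h]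
      exact Ex_congr _ fun π hπ => by simp [dm, (fx π hπ).2]
    · rw [if_neg (by tauto), if_neg (by simp), ← Ex_zero (nb := nb) (t := t) (univ \ {y, w})]
      exact Ex_congr _ fun π hπ => by simp [dm, (fx π hπ).2, Ne.symm a2]
  by_cases a2 : y = w
  · subst a2
    by_cases a3 : z = x
    · subst a3
      rw [if_pos (Or.inr ⟨rfl, rfl⟩), ← Ex_one hs h]
      exact Ex_congr _ fun π hπ => by simp [dm, (fx π hπ).1]
    · rw [if_neg (by tauto), if_neg (by simp), ← Ex_zero (nb := nb) (t := t) (univ \ {x, y})]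
      exact Ex_congr _ fun π hπ => by simp [dm, (fx π hπ).1, Ne.symm a3]
  rw [if_neg (by tauto)]
  rw [Ex_congr _ (g := dm y z) (fun π _ => by
    simp [dm, Equiv.swap_apply_of_ne_of_ne a1 a2]), Ex_dm hs h _ hn' hne']
  have e1 : (univ \ {x, w}) \ {y, z} = univ \ ({x, w} ∪ {y, z} : Finset V) := by
    ext a; simp only [mem_sdiff, mem_union]; tauto
  rw [e1]
  refine if_congr ?_ rfl rfl
  simp only [mem_sdiff, mem_univ, true_and, Finset.disjoint_right, mem_insert, mem_singleton,
    forall_eq_or_imp, forall_eq]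

/-- invariance of the measure under automorphisms -/
lemma Ex_conj (φ : V ≃ V) (hφ : ∀ x y, φ y ∈ nb (φ x) ↔ y ∈ nb x) (g : (V → V) → ℝ) :
    Ex nb t univ (fun π => g (φ.symm ∘ π ∘ φ)) = Ex nb t univ g := by
  unfold Ex
  refine Finset.sum_nbij' (fun π => φ.symm ∘ π ∘ φ) (fun π => φ ∘ π ∘ φ.symm) ?_ ?_ ?_ ?_ ?_
  · intro π hπ
    refine mem_Conf.2 fun y => ?_
    have := mem_Conf.1 hπ (φ y)
    simp only [Function.comp, Equiv.apply_symm_apply, this.1, Equiv.symm_apply_apply, mem_univ,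
      true_and, Equiv.symm_apply_eq] at this ⊢
    rw [← hφ, Equiv.apply_symm_apply]
    exact this
  · intro π hπ
    refine mem_Conf.2 fun y => ?_
    have := mem_Conf.1 hπ (φ.symm y)
    obtain ⟨y, rfl⟩ := φ.surjective y
    simp only [Function.comp, Equiv.symm_apply_apply, mem_univ, true_and,
      EmbeddingLike.apply_eq_iff_eq, hφ] at this ⊢
    exact this
  · intro π _; ext y; simp
  · intro π _; ext y; simp
  · intro π _
    congr 1
    unfold wt
    rw [← Equiv.prod_comp φ]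
    refine Finset.prod_congr rfl fun y _ => ?_
    simp [Equiv.symm_apply_eq]

end Pool.Agent.Lib.MP_3755f6_co
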