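import Pool.Agent.Lib.MP_3755f6_co.MW2

/-! Gaussian domination step for dimers parallel to the reflection planes. -/

namespace Pool.Agent.Lib.MP_3755f6_co

open Finset

variable {V : Type*} [DecidableEq V] [Fintype V]

/-- correlation of the two dimers `{x, s x}` and `{y, s y}` -/
noncomputable def C4 (Z : Finset V → ℝ) (s : V → V) (x y : V) : ℝ :=
  if Disjoint ({x, s x} : Finset V) {y, s y} then Z (univ \ ({x, s x} ∪ {y, s y})) else 0

/-- the quadratic form of dimer correlations -/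
noncomputable def Bq (Z : Finset V → ℝ) (s : V → V) (φ : V → ℝ) : ℝ :=
  ∑ x, ∑ y, φ x * φ y * C4 Z s x y

/-- bilinear forms on a half -/
noncomputable def bil (P : Finset V) (K : V → V → ℝ) (a b : V → ℝ) : ℝ :=
  ∑ x ∈ P, ∑ y ∈ P, a x * b y * K x y

variable {nb : V → Finset V} {t : ℝ} {Z : Finset V → ℝ}

omit [DecidableEq V] [Fintype V] in
lemma bil_comm (P : Finset V) {K : V → V → ℝ} (hK : ∀ x y, K x y = K y x) (a b : V → ℝ) :
    bil P K a b = bil P K b a := by
  unfold bil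
  rw [Finset.sum_comm]
  exact Finset.sum_congr rfl fun x _ => Finset.sum_congr rfl fun y _ => by rw [hK]; ring

omit [DecidableEq V] [Fintype V] in
lemma bil_lin (P : Finset V) (K : V → V → ℝ) (a b c : V → ℝ) (p q r p' q' r' : ℝ) :
    bil P K (fun x => p * a x + q * b x + r * c x) (fun x => p' * a x + q' * b x + r' * c x) =
      p * p' * bil P K a a + p * q' * bil P K a b + p * r' * bil P K a c +
      q * p' * bil P K b a + q * q' * bil P K b b + q * r' * bil P K b c +
      r * p' * bil P K c a + r * q' * bil P K c b + r * r' * bil P K c c := by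
  simp only [bil, Finset.mul_sum, ← Finset.sum_add_distrib]
  exact Finset.sum_congr rfl fun x _ => Finset.sum_congr rfl fun y _ => by ring

omit [DecidableEq V] [Fintype V] in
lemma bil_congr (P : Finset V) (K : V → V → ℝ) {a b a' b' : V → ℝ} (ha : ∀ x ∈ P, a x = a' x)
    (hb : ∀ x ∈ P, b x = b' x) : bil P K a b = bil P K a' b' :=
  Finset.sum_congr rfl fun x hx => Finset.sum_congr rfl fun y hy => by rw [ha x hx, hb y hy]

lemma C4_comm (s : V → V) (x y : V) : C4 Z s x y = C4 Z s y x := by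
  unfold C4
  rw [union_comm]
  exact if_congr disjoint_comm rfl rfl

lemma C4_nonneg (h : IsZ nb t Z) (ht : 0 ≤ t) (s : V → V) (x y : V) : 0 ≤ C4 Z s x y := by
  unfold C4; split_ifs
  · exact h.nonneg ht _
  · exact le_rfl

omit [Fintype V] in
lemma dm_mem (x w : V) (π : V → V) : 0 ≤ dm x w π ∧ dm x w π ≤ 1 := by
  unfold dm; split_ifs <;> norm_num

lemma C4_le (hs : ∀ x y, y ∈ nb x → x ∈ nb y) (h : IsZ nb t Z) (ht : 0 ≤ t) {s : V → V}
    (s1 : ∀ x, s x ∈ nb x) (s2 : ∀ x, s x ≠ x) (x y : V) : C4 Z s x y ≤ Z univ := by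
  have := Ex_dm_dm hs h (s1 x) (s2 x) (s1 y) (s2 y)
  have h2 : Ex nb t univ (fun π => dm x (s x) π * dm y (s y) π) ≤ Ex nb t univ fun _ => 1 :=
    Ex_mono ht _ fun π _ => by
      have a := dm_mem x (s x) π
      have b := dm_mem y (s y) π
      nlinarith
  rw [Ex_one hs h] at h2
  unfold C4
  split_ifs with hd
  · rw [if_neg, if_pos hd] at this
    · linarith
    · rintro (⟨rfl, -⟩ | ⟨rfl, -⟩) <;> simp at hd
  · exact h.nonneg ht _

namespace Cut

variable (c : Cut nb)

omit [DecidableEq V] in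
lemma sum_split (f : V → ℝ) : ∑ x, f x = ∑ x ∈ c.P, f x + ∑ x ∈ c.P, f (c.θ x) := by
  classical
  rw [← Finset.sum_add_sum_compl c.P]
  congr 1
  symm
  refine Finset.sum_nbij' c.θ c.θ ?_ ?_ (fun x _ => c.inv x) (fun x _ => c.inv x) fun _ _ => rfl
  · intro x hx; simpa [c.side] using hx
  · intro x hx; simpa [c.side] using hx

lemma Z_im (h : IsZ nb t Z) (U : Finset V) : Z (univ \ c.im U) = Z (univ \ U) := by
  rw [← h.map c.θ c.nbθ (univ \ U)]
  congr 1
  ext a
  have := @c.mem_im _ _ (univ \ U) a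
  unfold im at this
  rw [this]; simp [c.mem_im]

omit [Fintype V] in
lemma im_pair (x y : V) : c.im {x, y} = {c.θ x, c.θ y} := by
  simp [im, map_insert]

omit [Fintype V] in
lemma im_union (S T : Finset V) : c.im (S ∪ T) = c.im S ∪ c.im T := by
  simp [im, map_union]

omit [Fintype V] [DecidableEq V] in
lemma im_empty : c.im ∅ = ∅ := by simp [im]

omit [Fintype V] [DecidableEq V] in
lemma disj_im {S T : Finset V} (hS : S ⊆ c.P) (hT : T ⊆ c.P) : Disjoint S (c.im T) :=
  Finset.disjoint_left.2 fun a ha hb => (c.side a).1 (hT (c.mem_im.1 hb)) (hS ha)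

lemma C4_θ (h : IsZ nb t Z) {s : V → V} (sθ : ∀ x, c.θ (s x) = s (c.θ x)) (x y : V) :
    C4 Z s (c.θ x) (c.θ y) = C4 Z s x y := by
  unfold C4
  rw [← sθ, ← sθ, ← c.im_pair, ← c.im_pair, ← c.im_union, c.Z_im h]
  refine if_congr ?_ rfl rfl
  unfold im
  exact Finset.disjoint_map _

omit [Fintype V] [DecidableEq V] in
lemma ip_sum {ι κ : Type*} (I : Finset ι) (J : Finset κ) (a : ι → ℝ) (b : κ → ℝ)
    (f : ι → Finset V → ℝ) (g : κ → Finset V → ℝ) :
    c.ip (fun A => ∑ i ∈ I, a i * f i A) (fun A => ∑ j ∈ J, b j * g j A) =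
      ∑ i ∈ I, ∑ j ∈ J, a i * b j * c.ip (f i) (g j) := by
  simp only [ip, Finset.sum_mul_sum]
  simp only [Finset.mul_sum]
  rw [Finset.sum_comm]
  refine Finset.sum_congr rfl fun i _ => ?_
  rw [Finset.sum_comm]
  exact Finset.sum_congr rfl fun j _ => Finset.sum_congr rfl fun A _ => by ring

omit [Fintype V] [DecidableEq V] in
lemma ip_comm (f g : Finset V → ℝ) : c.ip f g = c.ip g f :=
  Finset.sum_congr rfl fun _ _ => mul_comm _ _

omit [Fintype V] [DecidableEq V] in
lemma ip_sub (f g : Finset V → ℝ) : 2 * c.ip f g ≤ c.ip f f + c.ip g g := by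
  simp only [ip, Finset.mul_sum, ← Finset.sum_add_distrib]
  exact Finset.sum_le_sum fun A _ => by nlinarith [sq_nonneg (f A - g A)]

lemma Bq_split (h : IsZ nb t Z) {s : V → V} (sθ : ∀ x, c.θ (s x) = s (c.θ x)) (φ a b : V → ℝ)
    (ha : ∀ x ∈ c.P, φ x = a x) (hb : ∀ x ∈ c.P, φ (c.θ x) = b x) :
    Bq Z s φ = bil c.P (C4 Z s) a a + bil c.P (C4 Z s) b b +
      2 * bil c.P (fun x y => C4 Z s x (c.θ y)) a b := by
  have k : ∀ x y, C4 Z s x (c.θ y) = C4 Z s y (c.θ x) := by
    intro x y; rw [← c.C4_θ h sθ, c.inv, C4_comm]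
  rw [two_mul]
  nth_rewrite 2 [bil_comm c.P k a b]
  unfold Bq bil
  rw [c.sum_split]
  simp only [c.sum_split (fun y => _ * φ y * C4 Z s _ y), Finset.sum_add_distrib]
  have e1 : ∑ x ∈ c.P, ∑ y ∈ c.P, φ x * φ y * C4 Z s x y =
      ∑ x ∈ c.P, ∑ y ∈ c.P, a x * a y * C4 Z s x y :=
    Finset.sum_congr rfl fun x hx => Finset.sum_congr rfl fun y hy => by rw [ha x hx, ha y hy]
  have e2 : ∑ x ∈ c.P, ∑ y ∈ c.P, φ x * φ (c.θ y) * C4 Z s x (c.θ y) =
      ∑ x ∈ c.P, ∑ y ∈ c.P, a x * b y * C4 Z s x (c.θ y) :=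
    Finset.sum_congr rfl fun x hx => Finset.sum_congr rfl fun y hy => by rw [ha x hx, hb y hy]
  have e3 : ∑ x ∈ c.P, ∑ y ∈ c.P, φ (c.θ x) * φ y * C4 Z s (c.θ x) y =
      ∑ x ∈ c.P, ∑ y ∈ c.P, b x * a y * C4 Z s x (c.θ y) :=
    Finset.sum_congr rfl fun x hx => Finset.sum_congr rfl fun y hy => by
      rw [hb x hx, ha y hy, C4_comm, k]
  have e4 : ∑ x ∈ c.P, ∑ y ∈ c.P, φ (c.θ x) * φ (c.θ y) * C4 Z s (c.θ x) (c.θ y) =
      ∑ x ∈ c.P, ∑ y ∈ c.P, b x * b y * C4 Z s x y :=
    Finset.sum_congr rfl fun x hx => Finset.sum_congr rfl fun y hy => by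
      rw [hb x hx, hb y hy, c.C4_θ h sθ]
  rw [e1, e2, e3, e4]; ring

/-- the reflection step -/
lemma step4 (hs : ∀ x y, y ∈ nb x → x ∈ nb y) (h : IsZ nb t Z) (ht : 0 ≤ t) {s : V → V}
    (s1 : ∀ x, s x ∈ nb x) (s2 : ∀ x, s x ≠ x) (sθ : ∀ x, c.θ (s x) = s (c.θ x))
    (sP : ∀ x ∈ c.P, s x ∈ c.P) (sB : ∀ x ∈ c.B, s x ∈ c.B)
    (s3 : ∀ x, (univ.filter fun y => ¬ Disjoint ({x, s x} : Finset V) {y, s y}).card ≤ 3)
    (α β γ φ φp φm : V → ℝ) (hγ : ∀ x, x ∉ c.B → γ x = 0)
    (h1 : ∀ x ∈ c.P, φ x = α x + γ x) (h2 : ∀ x ∈ c.P, φ (c.θ x) = β x - γ x)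
    (h3 : ∀ x ∈ c.P, φp x = α x) (h4 : ∀ x ∈ c.P, φp (c.θ x) = α x)
    (h5 : ∀ x ∈ c.P, φm x = β x) (h6 : ∀ x ∈ c.P, φm (c.θ x) = β x) :
    2 * Bq Z s φ ≤ Bq Z s φp + Bq Z s φm + 6 * Z univ * ∑ x ∈ c.P, γ x ^ 2 := by
  set K := C4 Z s with hK
  set K' : V → V → ℝ := fun x y => C4 Z s x (c.θ y) with hK'
  have k : ∀ x y, K' x y = K' y x := by
    intro x y; simp only [hK']; rw [← c.C4_θ h sθ, c.inv, C4_comm]
  have k0 : ∀ x y, K x y = K y x := C4_comm s
  have prP : ∀ x ∈ c.P, ({x, s x} : Finset V) ⊆ c.P := fun x hx => by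
    simp [insert_subset_iff, hx, sP x hx]
  have prB : ∀ x ∈ c.B, ({x, s x} : Finset V) ⊆ c.B := fun x hx => by
    simp [insert_subset_iff, hx, sB x hx]
  set v : V → Finset V → ℝ := fun x => c.vec Z ∅ ∅ {x, s x} with hv
  set w : V → Finset V → ℝ := fun x => c.vec Z {x, s x} {x, s x} ∅ with hw
  have KR : ∀ x ∈ c.P, ∀ y ∈ c.P, K' x y = Z (univ \ ({x, s x} ∪ c.im {y, s y})) := by
    intro x hx y hy
    simp only [hK', C4]
    rw [← sθ, ← c.im_pair, if_pos (c.disj_im (prP x hx) (prP y hy))]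
  have vv : ∀ x ∈ c.P, ∀ y ∈ c.P, c.ip (v x) (v y) = K' x y := by
    intro x hx y hy
    rw [KR x hx y hy, (c.ip_vec_aux h ht (subset_refl _) (subset_refl _) (empty_subset _)
      (empty_subset _) (prP x hx) (prP y hy)).2 (by simp)]
    simp
  have vw : ∀ x ∈ c.P, ∀ y ∈ c.B, c.ip (v x) (w y) = K x y := by
    intro x hx y hy
    rw [(c.ip_vec_aux h ht (subset_refl _) (subset_refl _) (empty_subset _)
      (prB y hy) (prP x hx) (empty_subset _)).2 (by simp), k0]
    simp [hK, C4, c.im_empty]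
  have ww1 : ∀ x ∈ c.B, c.ip (w x) (w x) ≤ Z univ := by
    intro x hx
    have := (c.ip_vec_aux h ht (subset_refl _) (subset_refl _) (prB x hx)
      (prB x hx) (empty_subset _) (empty_subset _)).1
    simpa [c.im_empty] using this
  have ww2 : ∀ x ∈ c.B, ∀ y ∈ c.B, Disjoint ({x, s x} : Finset V) {y, s y} →
      c.ip (w x) (w y) = K' x y := by
    intro x hx y hy hd
    rw [(c.ip_vec_aux h ht (subset_refl _) (subset_refl _) (prB x hx)
      (prB y hy) (empty_subset _) (empty_subset _)).2 hd, k, KR y (c.BP hy) x (c.BP hx),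
      union_sdiff_cancel_left hd, union_sdiff_cancel_right hd]
    simp
  have ww0 : ∀ x y, 0 ≤ c.ip (w x) (w y) := fun x y => Finset.sum_nonneg fun A _ => by
    simp only [hw, vec]
    split_ifs
    · exact mul_nonneg (h.nonneg ht _) (h.nonneg ht _)
    all_goals simp
  have cc : bil c.P (fun x y => c.ip (w x) (w y)) γ γ ≤
      bil c.P K' γ γ + 3 * Z univ * ∑ x ∈ c.P, γ x ^ 2 := by
    have hZ := h.nonneg ht univ
    have a1 : ∀ x y, γ x * γ y * c.ip (w x) (w y) ≤ γ x * γ y * K' x y +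
        ((if ¬ Disjoint ({x, s x} : Finset V) {y, s y} then Z univ * γ x ^ 2 / 2 else 0) +
        (if ¬ Disjoint ({y, s y} : Finset V) {x, s x} then Z univ * γ y ^ 2 / 2 else 0)) := by
      intro x y
      by_cases hd : Disjoint ({x, s x} : Finset V) {y, s y}
      · simp only [hd, hd.symm, not_true_eq_false, if_false, add_zero]
        by_cases hx : x ∈ c.B
        · by_cases hy : y ∈ c.B
          · rw [ww2 x hx y hy hd]
          · simp [hγ y hy]
        · simp [hγ x hx]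
      · rw [if_pos hd, if_pos (fun e => hd e.symm)]
        by_cases hx : x ∈ c.B
        · by_cases hy : y ∈ c.B
          · have b1 := c.ip_sub (w x) (w y)
            have b2 := ww1 x hx
            have b3 := ww1 y hy
            have b4 := ww0 x y
            have b5 : 0 ≤ K' x y := C4_nonneg h ht s _ _
            have b6 : K' x y ≤ Z univ := C4_le hs h ht s1 s2 _ _
            have b7 : 0 ≤ (Z univ - (c.ip (w x) (w y) - K' x y)) * (γ x + γ y) ^ 2 :=
              mul_nonneg (by linarith) (sq_nonneg _)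
            have b8 : 0 ≤ (Z univ + (c.ip (w x) (w y) - K' x y)) * (γ x - γ y) ^ 2 :=
              mul_nonneg (by linarith) (sq_nonneg _)
            nlinarith
          · simp only [hγ y hy]; have := sq_nonneg (γ x); nlinarith
        · simp only [hγ x hx]; have := sq_nonneg (γ y); nlinarith
    have a2 : ∑ x ∈ c.P, ∑ y ∈ c.P, (if ¬ Disjoint ({x, s x} : Finset V) {y, s y} then
        Z univ * γ x ^ 2 / 2 else 0) ≤ 3 * Z univ * (∑ x ∈ c.P, γ x ^ 2) / 2 := by
      rw [Finset.mul_sum, Finset.sum_div]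
      refine Finset.sum_le_sum fun x _ => ?_
      rw [← Finset.sum_filter, Finset.sum_const, nsmul_eq_mul]
      have b1 : ((c.P.filter fun y => ¬ Disjoint ({x, s x} : Finset V) {y, s y}).card : ℝ) ≤ 3 := by
        exact_mod_cast (card_le_card (filter_subset_filter _ (subset_univ _))).trans (s3 x)
      have b2 : 0 ≤ Z univ * γ x ^ 2 / 2 := by positivity
      nlinarith
    have a3 := Finset.sum_le_sum fun x (_ : x ∈ c.P) => Finset.sum_le_sum fun y (_ : y ∈ c.P) =>
      a1 x y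
    simp only [Finset.sum_add_distrib] at a3
    rw [Finset.sum_comm (f := fun x y => if ¬ Disjoint ({y, s y} : Finset V) {x, s x} then
      Z univ * γ y ^ 2 / 2 else 0)] at a3
    unfold bil
    linarith
  set δ : V → ℝ := fun x => 1 * α x + (-1) * β x + 1 * γ x with hδ
  have p := c.ip_sub (fun A => ∑ x ∈ c.P, δ x * v x A) (fun A => ∑ x ∈ c.P, γ x * w x A)
  rw [c.ip_sum, c.ip_sum, c.ip_sum] at p
  have p1 : ∑ x ∈ c.P, ∑ y ∈ c.P, δ x * γ y * c.ip (v x) (w y) =
      bil c.P K δ (fun x => 0 * α x + 0 * β x + 1 * γ x) :=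
    Finset.sum_congr rfl fun x hx => Finset.sum_congr rfl fun y _ => by
      by_cases hy : y ∈ c.B
      · rw [vw x hx y hy]; ring
      · simp [hγ y hy]
  have p2 : ∑ x ∈ c.P, ∑ y ∈ c.P, δ x * δ y * c.ip (v x) (v y) = bil c.P K' δ δ :=
    Finset.sum_congr rfl fun x hx => Finset.sum_congr rfl fun y hy => by rw [vv x hx y hy]
  rw [p1, p2, hδ, bil_lin, bil_lin] at p
  have q1 := c.Bq_split h sθ φ (fun x => 1 * α x + 0 * β x + 1 * γ x)
    (fun x => 0 * α x + 1 * β x + (-1) * γ x) (fun x hx => by rw [h1 x hx]; ring)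
    (fun x hx => by rw [h2 x hx]; ring)
  rw [bil_lin, bil_lin, bil_lin] at q1
  have q2 := c.Bq_split h sθ φp α α h3 h4
  have q3 := c.Bq_split h sθ φm β β h5 h6
  have r1 := bil_comm c.P k α β
  have r2 := bil_comm c.P k α γ
  have r3 := bil_comm c.P k β γ
  have r4 := bil_comm c.P k0 α γ
  have r5 := bil_comm c.P k0 β γ
  change bil c.P (fun x y => c.ip (w x) (w y)) γ γ ≤ _ at cc
  change _ ≤ _ + bil c.P (fun x y => c.ip (w x) (w y)) γ γ at p
  simp only [← hK] at q1 q2 q3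
  linarith

end Cut

omit [DecidableEq V] in
/-- the maximiser argument -/
lemma maxim (Q : (V → ℝ) → ℝ) (hQ : Q 0 = 0)
    (H : ∀ e0 : V, ∃ (τ : V → V) (L R : V → Prop) (_ : DecidablePred L) (_ : DecidablePred R),
      (∀ e, τ (τ e) = e) ∧ ¬ L e0 ∧ ¬ R e0 ∧ ∀ h : V → ℝ,
        2 * Q h ≤ Q (fun e => if L e then h e else if R e then -h (τ e) else 0) +
          Q (fun e => if L e then -h (τ e) else if R e then h e else 0))
    (h : V → ℝ) : Q h ≤ 0 := by
  classical
  set W : Finset ℝ := insert 0 (univ.image h ∪ univ.image fun e => -h e) with hW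
  have hWneg : ∀ y ∈ W, -y ∈ W := by
    intro y hy
    simp only [hW, mem_insert, mem_union, mem_image, mem_univ, true_and] at hy ⊢
    rcases hy with rfl | ⟨e, rfl⟩ | ⟨e, rfl⟩
    · simp
    · exact Or.inr (Or.inr ⟨e, rfl⟩)
    · exact Or.inr (Or.inl ⟨e, by simp⟩)
  set HH := Fintype.piFinset (fun _ : V => W) with hH
  have hh : h ∈ HH := by
    simp only [hH, Fintype.mem_piFinset, hW, mem_insert, mem_union, mem_image, mem_univ, true_and]
    exact fun e => Or.inr (Or.inl ⟨e, rfl⟩)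
  obtain ⟨k0, hk0, hmax0⟩ := Finset.exists_max_image HH Q ⟨h, hh⟩
  set N : (V → ℝ) → ℝ := fun k => ∑ e, if k e = 0 then 0 else 1 with hN
  obtain ⟨k, hk, hmin⟩ := Finset.exists_min_image
    (HH.filter fun k => Q k = Q k0) N ⟨k0, by simp [hk0]⟩
  obtain ⟨hkH, hkq⟩ := mem_filter.1 hk
  have hz : k = 0 := by
    by_contra hne
    obtain ⟨e0, he0⟩ := Function.ne_iff.1 hne
    obtain ⟨τ, L, R, _, _, hτ, hL, hR, hst⟩ := H e0
    have htl : ∀ e, -k (τ e) ∈ W := fun e => hWneg _ (Fintype.mem_piFinset.1 hkH _)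
    set km : V → ℝ := fun e => if L e then k e else if R e then -k (τ e) else 0 with hkm
    set kp : V → ℝ := fun e => if L e then -k (τ e) else if R e then k e else 0 with hkp
    have m1 : km ∈ HH := Fintype.mem_piFinset.2 fun e => by
      simp only [hkm]
      split_ifs
      · exact Fintype.mem_piFinset.1 hkH e
      · exact htl e
      · exact mem_insert_self _ _
    have m2 : kp ∈ HH := Fintype.mem_piFinset.2 fun e => by
      simp only [hkp]
      split_ifs
      · exact htl e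
      · exact Fintype.mem_piFinset.1 hkH e
      · exact mem_insert_self _ _
    have s := hst k
    have s1 := hmax0 _ m1
    have s2 := hmax0 _ m2
    have n1 := hmin km (mem_filter.2 ⟨m1, by linarith⟩)
    have n2 := hmin kp (mem_filter.2 ⟨m2, by linarith⟩)
    have n3 : N km + N kp < N k + ∑ e, if k (τ e) = 0 then (0:ℝ) else 1 := by
      simp only [hN, ← Finset.sum_add_distrib]
      refine Finset.sum_lt_sum (fun e _ => ?_) ⟨e0, mem_univ _, ?_⟩
      · by_cases h1 : L e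
        · simp only [hkm, hkp, h1, if_true, neg_eq_zero]; linarith
        · by_cases h2 : R e
          · simp only [hkm, hkp, h1, h2, if_false, if_true, neg_eq_zero]
            linarith
          · simp only [hkm, hkp, h1, h2, if_false, if_true]
            split_ifs <;> norm_num
      · simp only [hkm, hkp, hL, hR, if_false, if_true]
        rw [if_neg (show ¬ k e0 = 0 from he0)]
        split_ifs <;> norm_num
    have n4 := Equiv.sum_comp (Function.Involutive.toPerm τ hτ)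
      (fun e => if k e = 0 then (0:ℝ) else 1)
    simp only [Function.Involutive.coe_toPerm] at n4
    have n5 : (∑ e, if k (τ e) = 0 then (0:ℝ) else 1) = N k := by
      simp only [hN]; convert n4
    linarith
  have := hmax0 h hh
  rw [← hkq, hz, hQ] at this
  exact this

end Pool.Agent.Lib.MP_3755f6_co
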