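import Pool.Agent.Lib.MP_3755f6_co.MW3

/-! The uncertainty inequality from reflection positivity. -/

namespace Pool.Agent.Lib.MP_3755f6_co

open Finset

variable {V : Type*} [DecidableEq V] [Fintype V]
variable {nb : V → Finset V} {t : ℝ} {Z : Finset V → ℝ}

lemma IsZ.sdiff_map (h : IsZ nb t Z) (φ : V ≃ V) (hφ : ∀ x y, φ y ∈ nb (φ x) ↔ y ∈ nb x)
    (U : Finset V) : Z (univ \ U.map φ.toEmbedding) = Z (univ \ U) := by
  rw [← h.map φ hφ (univ \ U)]
  congr 1
  ext a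
  obtain ⟨a, rfl⟩ := φ.surjective a
  simp

namespace Cut

variable (c : Cut nb)

lemma uncertainty (hs : ∀ x y, y ∈ nb x → x ∈ nb y) (h : IsZ nb t Z) (ht : 0 ≤ t)
    (B0 : Finset V) (hB : B0 ⊆ c.B) (dn : V → V) (d1 : ∀ x ∈ B0, dn x ∈ c.P)
    (d2 : ∀ x ∈ B0, dn x ∈ nb x) (d3 : ∀ x ∈ B0, dn x ∉ B0) (ρ : V ≃ V)
    (hρ : ∀ x y, ρ y ∈ nb (ρ x) ↔ y ∈ nb x) (r1 : ∀ x ∈ B0, ρ x = x)
    (r2 : ∀ x ∈ B0, ρ (c.θ x) = dn x) (b : V) (hb : b ∈ B0) (ψ : V → ℝ) :
    (ψ b * Z (univ.erase b)) ^ 2 ≤ Z univ *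
      Ex nb t univ (fun π => (∑ x ∈ B0, ψ x * (dm x (c.θ x) π - dm x (dn x) π)) ^ 2) := by
  set up : V → Finset V → ℝ := fun x => c.vec Z {x} ∅ ∅ with hup
  set dw : V → Finset V → ℝ := fun x => c.vec Z ∅ ∅ {x, dn x} with hdw
  set w : Finset V → ℝ := c.vec Z {b} {b} ∅ with hw
  have sB : ∀ x ∈ B0, ({x} : Finset V) ⊆ c.B := fun x hx => by simpa using hB hx
  have xP : ∀ x ∈ B0, x ∈ c.P := fun x hx => c.BP (hB hx)
  have sP : ∀ x ∈ B0, ({x, dn x} : Finset V) ⊆ c.P := fun x hx => by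
    simp [insert_subset_iff, xP x hx, d1 x hx]
  have nP : ∀ x ∈ c.P, c.θ x ∉ c.P := fun x hx hh => (c.side x).1 hh hx
  have ne1 : ∀ x ∈ c.P, ∀ y ∈ c.P, c.θ x ≠ y := fun x hx y hy e => nP x hx (e ▸ hy)
  have nbθ : ∀ x ∈ B0, c.θ x ∈ nb x := fun x hx =>
    (c.cross x (xP x hx) _ (nP x (xP x hx))).2 ⟨hB hx, rfl⟩
  have dne : ∀ x ∈ B0, ∀ y ∈ B0, dn x ≠ y := fun x hx y hy e => d3 x hx (e ▸ hy)
  have uu : ∀ i ∈ B0, ∀ j ∈ B0, c.ip (up i) (up j) =
      Ex nb t univ (fun π => dm i (c.θ i) π * dm (c.θ j) j π) := by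
    intro i hi j hj
    rw [(c.ip_vec_aux h ht (empty_subset _) (empty_subset _) (sB i hi) (sB j hj)
      (empty_subset _) (empty_subset _)).2 (by simp),
      Ex_dm_dm hs h (nbθ i hi) (ne1 i (xP i hi) i (xP i hi)) (hs _ _ (nbθ j hj))
      (ne1 j (xP j hj) j (xP j hj)).symm]
    by_cases e : j = i
    · subst e; simp [im]
    · have a1 := ne1 j (xP j hj) i (xP i hi)
      have a2 := ne1 i (xP i hi) j (xP j hj)
      rw [if_pos (by simp), if_neg (by simp [e, a1]), if_pos (by simp [a1, a2.symm, e])]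
      congr 2
      ext a
      simp only [mem_union, mem_sdiff, mem_singleton, notMem_empty, not_false_eq_true, and_true,
        or_false, c.mem_im, mem_insert]
      have b1 : c.θ a = i ↔ a = c.θ i := ⟨fun e => by rw [← e, c.inv], fun e => by rw [e, c.inv]⟩
      have b2 : c.θ a = j ↔ a = c.θ j := ⟨fun e => by rw [← e, c.inv], fun e => by rw [e, c.inv]⟩
      rw [b1, b2]; tauto
  have ud : ∀ i ∈ B0, ∀ j ∈ B0, c.ip (up i) (dw j) =
      Ex nb t univ (fun π => dm i (c.θ i) π * dm (c.θ j) (c.θ (dn j)) π) := by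
    intro i hi j hj
    rw [(c.ip_vec_aux h ht (empty_subset _) (empty_subset _) (sB i hi) (empty_subset _)
      (empty_subset _) (sP j hj)).2 (by simp),
      Ex_dm_dm hs h (nbθ i hi) (ne1 i (xP i hi) i (xP i hi)) ((c.nbθ _ _).2 (d2 j hj))
      (fun e => dne j hj j hj (c.θ.injective e))]
    have a1 := ne1 j (xP j hj) i (xP i hi)
    have a2 := ne1 _ (d1 j hj) i (xP i hi)
    rw [if_neg (show ¬ ((c.θ j = i ∧ _) ∨ (_ ∧ c.θ (dn j) = i)) by simp [a1, a2])]
    refine if_congr (by simp [a1, a2, eq_comm]) ?_ rfl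
    congr 2
    rw [c.im_union, c.im_pair]
    ext a
    simp [im]; tauto
  have du : ∀ i ∈ B0, ∀ j ∈ B0, c.ip (dw i) (up j) =
      Ex nb t univ (fun π => dm i (dn i) π * dm (c.θ j) j π) := by
    intro i hi j hj
    rw [(c.ip_vec_aux h ht (empty_subset _) (empty_subset _) (empty_subset _) (sB j hj)
      (sP i hi) (empty_subset _)).2 (by simp),
      Ex_dm_dm hs h (d2 i hi) (dne i hi i hi) (hs _ _ (nbθ j hj))
      (ne1 j (xP j hj) j (xP j hj)).symm]
    have a1 := ne1 j (xP j hj) i (xP i hi)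
    have a2 := ne1 j (xP j hj) _ (d1 i hi)
    rw [if_neg (show ¬ ((c.θ j = i ∧ _) ∨ (c.θ j = dn i ∧ _)) by simp [a1, a2])]
    refine if_congr ?_ ?_ rfl
    · simp only [empty_union, sdiff_empty, disjoint_empty_right, and_true, disjoint_insert_right,
        disjoint_singleton_right, mem_insert, mem_singleton, a1, a2]
      tauto
    · congr 2
      ext a
      simp [im]; tauto
  have dd : ∀ i ∈ B0, ∀ j ∈ B0, c.ip (dw i) (dw j) =
      Ex nb t univ (fun π => dm i (dn i) π * dm (c.θ j) (c.θ (dn j)) π) := by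
    intro i hi j hj
    rw [(c.ip_vec_aux h ht (empty_subset _) (empty_subset _) (empty_subset _) (empty_subset _)
      (sP i hi) (sP j hj)).2 (by simp),
      Ex_dm_dm hs h (d2 i hi) (dne i hi i hi) ((c.nbθ _ _).2 (d2 j hj))
      (fun e => dne j hj j hj (c.θ.injective e))]
    have a1 := ne1 j (xP j hj) i (xP i hi)
    have a2 := ne1 j (xP j hj) _ (d1 i hi)
    rw [if_neg (show ¬ ((c.θ j = i ∧ _) ∨ (c.θ j = dn i ∧ _)) by simp [a1, a2]), ← c.im_pair,
      if_pos (c.disj_im (sP i hi) (sP j hj))]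
    simp
  have uw : ∀ j ∈ B0, c.ip (up j) w - c.ip (dw j) w = if j = b then Z (univ.erase b) else 0 := by
    intro j hj
    rw [(c.ip_vec_aux h ht (empty_subset _) (subset_refl _) (sB j hj) (sB b hb)
      (empty_subset _) (empty_subset _)).2 (by simp),
      (c.ip_vec_aux h ht (empty_subset _) (subset_refl _) (empty_subset _) (sB b hb)
      (sP j hj) (empty_subset _)).2 (by simp)]
    by_cases e : j = b
    · subst e
      simp [c.im_empty, sdiff_singleton_eq_erase]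
    · rw [if_pos (by simp), if_pos (by simp [Ne.symm e, (dne j hj b hb).symm]), if_neg e,
        ← h.sdiff_map ρ hρ, sub_eq_zero]
      congr 2
      have : ({j} ∪ {b}) \ {b} = ({j} : Finset V) := by
        ext a; simp only [mem_sdiff, mem_union, mem_singleton]
        constructor
        · tauto
        · rintro rfl; tauto
      rw [this]
      ext a
      simp [im, map_insert, r1 j hj, r1 b hb, r2 j hj]
  have ww : c.ip w w ≤ Z univ := by
    have := (c.ip_vec_aux h ht (subset_refl _) (subset_refl _) (sB b hb)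
      (sB b hb) (empty_subset _) (empty_subset _)).1
    simpa [c.im_empty] using this
  set Fh : Finset V → ℝ := fun A => ∑ x ∈ B0, ψ x * (up x A - dw x A) with hFh
  set F : (V → V) → ℝ := fun π => ∑ x ∈ B0, ψ x * (dm x (c.θ x) π - dm x (dn x) π) with hF
  have p1 : c.ip Fh w = ψ b * Z (univ.erase b) := by
    have : c.ip Fh w = ∑ x ∈ B0, ψ x * (c.ip (up x) w - c.ip (dw x) w) := by
      simp only [ip, hFh, Finset.sum_mul, ← Finset.sum_sub_distrib, Finset.mul_sum]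
      rw [Finset.sum_comm]
      exact Finset.sum_congr rfl fun x _ => Finset.sum_congr rfl fun A _ => by ring
    rw [this, Finset.sum_congr rfl fun x hx => by rw [uw x hx]]
    simp [hb]
  have dθ : ∀ x y (π : V → V), dm x y (c.θ.symm ∘ π ∘ c.θ) = dm (c.θ x) (c.θ y) π := by
    intro x y π
    simp [dm, Equiv.symm_apply_eq]
  have p2 : c.ip Fh Fh = Ex nb t univ (fun π => F π * F (c.θ.symm ∘ π ∘ c.θ)) := by
    rw [hFh, c.ip_sum]
    simp only [hF, Finset.sum_mul_sum, Ex_sum, dθ, c.inv]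
    refine Finset.sum_congr rfl fun i hi => Finset.sum_congr rfl fun j hj => ?_
    have e1 : c.ip (fun A => up i A - dw i A) (fun A => up j A - dw j A) =
        c.ip (up i) (up j) + (-1) * c.ip (up i) (dw j) + (-1) * c.ip (dw i) (up j) +
          c.ip (dw i) (dw j) := by
      simp only [ip, Finset.mul_sum, ← Finset.sum_add_distrib]
      exact Finset.sum_congr rfl fun A _ => by ring
    rw [e1, uu i hi j hj, ud i hi j hj, du i hi j hj, dd i hi j hj, ← Ex_smul, ← Ex_smul,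
      ← Ex_add, ← Ex_add, ← Ex_add, ← Ex_smul]
    exact Ex_congr _ fun π _ => by ring
  have p3 : 2 * Ex nb t univ (fun π => F π * F (c.θ.symm ∘ π ∘ c.θ)) ≤
      Ex nb t univ (fun π => F π ^ 2) + Ex nb t univ (fun π => F (c.θ.symm ∘ π ∘ c.θ) ^ 2) := by
    rw [← Ex_smul, ← Ex_add]
    exact Ex_mono ht _ fun π _ => by nlinarith [sq_nonneg (F π - F (c.θ.symm ∘ π ∘ c.θ))]
  rw [Ex_conj c.θ c.nbθ (fun π => F π ^ 2)] at p3
  have p4 : c.ip Fh w ^ 2 ≤ c.ip Fh Fh * c.ip w w := by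
    simp only [ip, ← sq]
    exact Finset.sum_mul_sq_le_sq_mul_sq _ _ _
  have p5 : 0 ≤ c.ip Fh Fh := Finset.sum_nonneg fun A _ => mul_self_nonneg _
  have p6 := h.nonneg ht univ
  rw [← p1]
  calc c.ip Fh w ^ 2 ≤ c.ip Fh Fh * Z univ := p4.trans (mul_le_mul_of_nonneg_left ww p5)
    _ ≤ Ex nb t univ (fun π => F π ^ 2) * Z univ :=
      mul_le_mul_of_nonneg_right (by linarith) p6
    _ = _ := mul_comm _ _

end Cut

end Pool.Agent.Lib.MP_3755f6_co
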