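import Pool.Agent.Lib.MP_3755f6_co.RP

namespace Pool.Agent.Lib.MP_3755f6_co

open Finset

section general

variable {d : ℕ} {A : Type*} [CommRing A] [DecidableEq A]

/-- unit steps -/
def step (A : Type*) [CommRing A] (s : Fin d × Bool) : Fin d → A :=
  if s.2 then Pi.single s.1 1 else -Pi.single s.1 1

/-- lattice neighbours -/
def nbG (x : Fin d → A) : Finset (Fin d → A) := univ.image fun s => x + step A s

lemma mem_nbG {x y : Fin d → A} : y ∈ nbG x ↔ ∃ s, x + step A s = y := by simp [nbG]

lemma card_nbG (x : Fin d → A) : (nbG x).card ≤ 2 * d :=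
  card_image_le.trans (by simp [mul_comm])

lemma nbG_add (a x y : Fin d → A) : y + a ∈ nbG (x + a) ↔ y ∈ nbG x := by
  simp only [mem_nbG]
  refine exists_congr fun s => ?_
  rw [add_right_comm, add_left_inj]

omit [DecidableEq A] in
lemma step_ne_zero (h1 : (1 : A) ≠ 0) (s : Fin d × Bool) : step A s ≠ 0 := by
  intro h
  have := congrFun h s.1
  unfold step at this
  split_ifs at this <;> simp [h1] at this

omit [DecidableEq A] in
lemma step_inj (h1 : (1 : A) ≠ 0) (h2 : (2 : A) ≠ 0) : Function.Injective (step (d := d) A) := by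
  rintro ⟨i, b⟩ ⟨j, c⟩ h
  have hi := congrFun h i
  by_cases hij : i = j
  · subst hij
    cases b <;> cases c <;> simp [step] at hi ⊢
    · apply h2; linear_combination -hi
    · apply h2; linear_combination hi
  · cases b <;> cases c <;> simp [step, hij, h1] at hi

lemma sum_nbG (h1 : (1 : A) ≠ 0) (h2 : (2 : A) ≠ 0) (x : Fin d → A) (g : (Fin d → A) → ℝ) :
    ∑ w ∈ nbG x, g w = ∑ i, (g (x + Pi.single i 1) + g (x - Pi.single i 1)) := by
  rw [nbG, Finset.sum_image fun a _ b _ h => step_inj h1 h2 (add_left_cancel h),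
    Fintype.sum_prod_type]
  simp [step, sub_eq_add_neg]

end general

lemma mem_nbG_lattice {d : ℕ} (x y : Fin d → ℤ) : y ∈ nbG x ↔ (lattice d).Adj x y := by
  rw [mem_nbG, lattice, SimpleGraph.fromRel_adj]
  constructor
  · rintro ⟨s, rfl⟩
    refine ⟨fun h => step_ne_zero one_ne_zero s (by simpa using h), ?_⟩
    obtain ⟨i, b⟩ := s
    cases b
    · exact Or.inr ⟨i, by simp [step]⟩
    · exact Or.inl ⟨i, by simp [step]⟩
  · rintro ⟨-, ⟨i, rfl⟩ | ⟨i, rfl⟩⟩
    · exact ⟨(i, true), by simp [step]⟩
    · exact ⟨(i, false), by simp [step]⟩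

/-- the discrete torus -/
abbrev Tor (d L : ℕ) := Fin d → ZMod L

variable {d L : ℕ}

/-- source of a torus edge -/
def tsrc (e : Tor d L × Fin d) : Tor d L := e.1

/-- target of a torus edge -/
def ttgt (e : Tor d L × Fin d) : Tor d L := e.1 + Pi.single e.2 1

lemma zmod_one_ne (hL : 3 ≤ L) : (1 : ZMod L) ≠ 0 := by
  intro h
  have : ((1 : ℕ) : ZMod L) = 0 := by simpa using h
  rw [ZMod.natCast_eq_zero_iff] at this
  have := Nat.le_of_dvd one_pos this; omega

lemma zmod_two_ne (hL : 3 ≤ L) : (2 : ZMod L) ≠ 0 := by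
  intro h
  have : ((2 : ℕ) : ZMod L) = 0 := by simpa using h
  rw [ZMod.natCast_eq_zero_iff] at this
  have := Nat.le_of_dvd two_pos this; omega

variable [NeZero L]

lemma tor_rep (hL : 3 ≤ L) : Rep (tsrc (d := d) (L := L)) ttgt nbG := by
  have h1 := zmod_one_ne hL
  have h2 := zmod_two_ne hL
  refine ⟨fun e h => ?_, fun x y hxy => ?_⟩
  · have := congrFun h e.2
    simp [tsrc, ttgt, h1] at this
  · have e1 : ∀ e : Tor d L × Fin d, kap tsrc ttgt x e * kap tsrc ttgt y e =
        -((if e.1 = x then (if x + Pi.single e.2 1 = y then 1 else 0) else 0) +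
          (if e.1 = y then (if x - Pi.single e.2 1 = y then 1 else 0) else 0)) := by
      rintro ⟨z, i⟩
      simp only [kap, tsrc, ttgt]
      by_cases a1 : z = x
      · subst a1
        have : ¬ z + Pi.single i 1 = z := fun h => by simpa [h1] using congrFun h i
        simp [hxy, this]
      · by_cases a2 : z = y
        · subst a2
          have : ¬ z + Pi.single i 1 = z := fun h => by simpa [h1] using congrFun h i
          have e2 : (x - Pi.single i 1 = z) ↔ (z + Pi.single i 1 = x) := by
            rw [sub_eq_iff_eq_add, eq_comm]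
          simp [a1, this, e2]
        · simp only [a1, a2, if_false]
          split_ifs with b1 b2
          · exact absurd (b1.symm.trans b2) hxy
          all_goals simp
    simp only [e1, Finset.sum_neg_distrib, Finset.sum_add_distrib]
    rw [Fintype.sum_prod_type_right, Fintype.sum_prod_type_right]
    simp only [Finset.sum_ite_eq', mem_univ, if_true]
    rw [← Finset.sum_add_distrib, ← sum_nbG h1 h2 x (fun w => if w = y then 1 else 0)]
    simp only [Finset.sum_ite_eq']
    split_ifs <;> simp

/-- the torus partition function -/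
noncomputable def ZT (d L : ℕ) [NeZero L] (t : ℝ) : Finset (Tor d L) → ℝ := ZZ tsrc ttgt t

lemma isZ_ZT (hL : 3 ≤ L) (t : ℝ) : IsZ nbG t (ZT d L t) := isZ_ZZ (tor_rep hL) t

lemma ZT_map (hL : 3 ≤ L) (t : ℝ) (a : Tor d L) (S : Finset (Tor d L)) :
    ZT d L t (S.map (Equiv.addRight a).toEmbedding) = ZT d L t S :=
  (isZ_ZT hL t).map (Equiv.addRight a) (fun x y => nbG_add a x y) S

lemma ZT_one (hL : 3 ≤ L) (t : ℝ) (x : Tor d L) :
    ZT d L t (univ.erase x) = ZT d L t (univ.erase 0) := by
  rw [← ZT_map hL t (-x), Finset.map_erase, Finset.map_univ_equiv]; simp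

lemma ZT_two (hL : 3 ≤ L) (t : ℝ) (x y : Tor d L) :
    ZT d L t ((univ.erase x).erase y) = ZT d L t ((univ.erase 0).erase (y - x)) := by
  rw [← ZT_map hL t (-x), Finset.map_erase, Finset.map_erase, Finset.map_univ_equiv]
  simp [sub_eq_add_neg]

lemma ZT_rec (hL : 3 ≤ L) (t : ℝ) : ZT d L t univ = t * ZT d L t (univ.erase 0) +
    2 * ∑ i, ZT d L t ((univ.erase 0).erase (Pi.single i 1)) := by
  have h1 := zmod_one_ne hL
  rw [(isZ_ZT hL t).2 univ 0 (mem_univ _)]
  congr 1
  have : nbG (0 : Tor d L) ∩ univ.erase 0 = nbG 0 := by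
    refine inter_eq_left.2 fun y hy => ?_
    obtain ⟨s, rfl⟩ := mem_nbG.1 hy
    simpa using step_ne_zero h1 s
  rw [this, sum_nbG h1 (zmod_two_ne hL), Finset.mul_sum]
  refine Finset.sum_congr rfl fun i _ => ?_
  rw [Finset.erase_right_comm (b := 0 - Pi.single i 1), ZT_two hL t (0 - Pi.single i 1)]
  simp only [zero_add, zero_sub, sub_neg_eq_add]
  ring

omit [NeZero L] in
lemma val_neg_one_sub [NeZero L] (a : ZMod L) : (-1 - a).val = L - 1 - a.val := by
  have h := ZMod.val_lt a
  have : -1 - a = ((L - 1 - a.val : ℕ) : ZMod L) := by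
    rw [Nat.cast_sub (by omega), Nat.cast_sub (by omega)]; simp
  rw [this, ZMod.val_natCast_of_lt (by omega)]

omit [NeZero L] in
lemma val_sub_one [NeZero L] (a : ZMod L) (ha : a ≠ 0) : (a - 1).val = a.val - 1 := by
  have h := ZMod.val_lt a
  have h0 : a.val ≠ 0 := by simpa using ha
  have : a - 1 = ((a.val - 1 : ℕ) : ZMod L) := by
    rw [Nat.cast_sub (by omega)]; simp
  rw [this, ZMod.val_natCast_of_lt (by omega)]

lemma tor_refl (M : ℕ) (hM : L = 2 * M) (e0 : Tor d L × Fin d) :
    ∃ r : Refl (tsrc (d := d) (L := L)) ttgt, r.L e0 = false ∧ r.R e0 = false := by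
  obtain ⟨x0, i⟩ := e0
  have hM0 : 0 < M := by have := NeZero.pos L; omega
  set c := x0 i with hc
  set θ : Tor d L → Tor d L := fun x => Function.update x i (2 * c + 1 - x i) with hθ
  set side : Tor d L → Bool := fun x => decide ((c - x i).val < M) with hside
  have t1 : ∀ x, θ (θ x) = x := by
    intro x; simp [hθ]
  have t2 : ∀ x, θ (x + Pi.single i 1) + Pi.single i 1 = θ x := by
    intro x; ext j
    by_cases h : j = i
    · subst h; simp [hθ]; ring
    · simp [hθ, h]
  have t3 : ∀ x j, j ≠ i → θ x + Pi.single j 1 = θ (x + Pi.single j 1) := by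
    intro x j hj; ext k
    by_cases h : k = i
    · subst h; simp [hθ, hj.symm]
    · simp [hθ, h]
  have t4 : ∀ x y, θ x = y ↔ x = θ y := fun x y =>
    ⟨fun h => by rw [← h, t1], fun h => by rw [h, t1]⟩
  have t5 : ∀ x, side (θ x) = !side x := by
    intro x
    simp only [hside, hθ, Function.update_self]
    rw [show c - (2 * c + 1 - x i) = -1 - (c - x i) by ring, val_neg_one_sub]
    have := ZMod.val_lt (c - x i)
    by_cases h : (c - x i).val < M
    · simp only [h, decide_true, Bool.not_true, decide_eq_false_iff_not]; omega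
    · simp only [h, decide_false, Bool.not_false, decide_eq_true_eq]; omega
  refine ⟨{ θV := θ
            θE := fun e => if e.2 = i then (θ (e.1 + Pi.single i 1), i) else (θ e.1, e.2)
            ε := fun e => if e.2 = i then 1 else -1
            side := side
            L := fun e => side (tsrc e) && side (ttgt e)
            R := fun e => !side (tsrc e) && !side (ttgt e)
            invV := t1
            invE := ?_
            εθ := ?_
            sideθ := t5
            kapθ := ?_
            LR := ?_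
            Lθ := ?_
            cross := ?_
            kapR := ?_ }, ?_, ?_⟩
  · rintro ⟨x, j⟩
    by_cases h : j = i
    · subst h; simp [t2, t1]
    · simp [h, t1]
  · rintro ⟨x, j⟩
    by_cases h : j = i <;> simp [h]
  · rintro y ⟨x, j⟩
    by_cases h : j = i
    · subst h; simp [kap, tsrc, ttgt, t2, t4]; congr
    · simp [h, kap, tsrc, ttgt, t3 x j h, t4]; congr
  · intro e; simp only [Bool.and_eq_true]; rintro ⟨h1, -⟩; simp [h1]
  · rintro ⟨x, j⟩
    by_cases h : j = i
    · subst h; simp [tsrc, ttgt, t2, t5, Bool.and_comm]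
    · simp [h, tsrc, ttgt, t3 x j h, t5]
  · rintro ⟨x, j⟩ h1 h2
    have hne : side x ≠ side (x + Pi.single j 1) := by
      simp only [tsrc, ttgt] at h1 h2
      intro h
      rw [← h] at h1 h2
      cases hh : side x <;> simp [hh] at h1 h2
    by_cases h : j = i
    · subst h
      simp only [if_true, and_true, Prod.mk.injEq]
      have : 2 * (c - x j) = 0 := by
        by_cases h0 : c - x j = 0
        · rw [h0, mul_zero]
        · simp only [hside, Pi.add_apply, Pi.single_eq_same] at hne
          rw [← sub_sub, val_sub_one _ h0] at hne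
          have : (c - x j).val = M := by
            by_contra hh
            apply hne
            congr 1
            apply propext
            omega
          rw [← ZMod.natCast_zmod_val (c - x j), this]
          have : ((2 * M : ℕ) : ZMod L) = 0 := by rw [← hM]; simp
          simpa using this
      ext k
      by_cases hk : k = j
      · subst hk; simp only [hθ, Function.update_self, Pi.add_apply, Pi.single_eq_same]
        linear_combination this
      · simp [hθ, hk]
    · exfalso; apply hne
      simp [hside, Ne.symm h]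
  · intro x e h1 h2
    simp only [Bool.and_eq_true, Bool.not_eq_true'] at h2
    rw [kap, if_neg, if_neg, sub_zero]
    · rintro rfl; simp [h1] at h2
    · rintro rfl; simp [h1] at h2
  · have := val_neg_one_sub (0 : ZMod L)
    simp only [sub_zero, ZMod.val_zero] at this
    simp only [tsrc, ttgt, hside, Pi.add_apply, Pi.single_eq_same, ← hc, sub_add_cancel_left,
      this, Bool.and_eq_false_imp, decide_eq_true_eq, decide_eq_false_iff_not]
    omega
  · simp [tsrc, hside, ← hc, hM0]

lemma ZT_one_le (hd : 0 < d) (hL : 3 ≤ L) (h2 : 2 ∣ L) {t : ℝ} (ht : 0 ≤ t) :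
    1 ≤ ZT d L t univ := by
  set i0 : Fin d := ⟨0, hd⟩
  set par := ZMod.castHom h2 (ZMod 2)
  refine (isZ_ZT hL t).one_le ht (fun x => x + step (ZMod L) (i0, decide (par (x i0) = 0)))
    (fun x => ?_) (fun x => mem_nbG.2 ⟨_, rfl⟩)
    (fun x h => step_ne_zero (zmod_one_ne hL) _ (by simpa using h)) univ (fun x _ => mem_univ _)
  by_cases h : par (x i0) = 0
  · simp [h, step]
  · have h1 : par (x i0) = 1 := by
      generalize par (x i0) = z at h
      revert z; decide
    simp [h1, step, show (1 + 1 : ZMod 2) = 0 from rfl]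

/-- reduction modulo `L` -/
def red (L : ℕ) (x : Fin d → ℤ) : Tor d L := fun i => (x i : ZMod L)

/-- distance from `o` -/
def dst (o x : Fin d → ℤ) : ℕ := ∑ i, (x i - o i).natAbs

omit [NeZero L] in
lemma red_step (x : Fin d → ℤ) (s : Fin d × Bool) :
    red L (x + step ℤ s) = red L x + step (ZMod L) s := by
  ext i
  unfold step
  split_ifs <;> by_cases h : i = s.1 <;> simp [red, h]

omit [NeZero L] in
lemma dst_step (o x : Fin d → ℤ) (s : Fin d × Bool) : dst o (x + step ℤ s) ≤ dst o x + 1 := by
  have : (1 : ℕ) = ∑ i, (step ℤ s i).natAbs := by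
    rw [Finset.sum_eq_single s.1]
    · unfold step; split_ifs <;> simp
    · intro b _ hb; unfold step; split_ifs <;> simp [hb]
    · simp
  rw [this, dst, dst, ← Finset.sum_add_distrib]
  refine Finset.sum_le_sum fun i _ => ?_
  rw [Pi.add_apply, show x i + step ℤ s i - o i = (x i - o i) + step ℤ s i by ring]
  exact Int.natAbs_add_le _ _

omit [NeZero L] in
lemma red_inj (o a b : Fin d → ℤ) (R : ℕ) (hR : 2 * R < L) (ha : dst o a ≤ R) (hb : dst o b ≤ R)
    (h : red L a = red L b) : a = b := by
  ext i
  have h1 := (ZMod.intCast_eq_intCast_iff_dvd_sub _ _ _).1 (congrFun h i)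
  have h2 : (a i - o i).natAbs ≤ dst o a :=
    Finset.single_le_sum (f := fun i => (a i - o i).natAbs) (fun _ _ => Nat.zero_le _) (mem_univ i)
  have h3 : (b i - o i).natAbs ≤ dst o b :=
    Finset.single_le_sum (f := fun i => (b i - o i).natAbs) (fun _ _ => Nat.zero_le _) (mem_univ i)
  have := Int.eq_zero_of_dvd_of_natAbs_lt_natAbs h1 (by omega)
  omega

lemma moment_lattice (o : Fin d → ℤ) (n : ℕ) (hn : 2 * (n + 1) < L) :
    moment (lattice d) o n = NN (fun y => nbG y ∩ univ) n [red L o] := by
  rw [moment_eq (lattice d) nbG mem_nbG_lattice]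
  refine NN_map_single nbG _ (red L) (dst o) (n + 1) ?_ (fun a b => red_inj o a b _ hn) ?_ n o
    (by simp [dst]) le_rfl
  · intro z w hw
    obtain ⟨s, rfl⟩ := mem_nbG.1 hw
    exact dst_step o z s
  · intro z _
    rw [inter_univ, nbG, nbG, image_image]
    congr 1
    ext s : 1
    simp [red_step]

lemma moment_delete (o v : Fin d → ℤ) (hv : (lattice d).Adj o v) (n : ℕ) (hn : 2 * (n + 1) < L) :
    moment (deleteVertex (lattice d) o) ⟨v, hv.ne'⟩ n =
      NN (fun y => nbG y ∩ univ.erase (red L o)) n [red L v] := by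
  rw [moment_eq (deleteVertex (lattice d) o) (fun x => (nbG x.1).subtype (fun y => y ≠ o))
    (fun x y => by rw [mem_subtype, mem_nbG_lattice]; rfl)]
  refine NN_map_single _ _ (fun x : {v // v ≠ o} => red L x.1) (fun x => dst o x.1) (n + 1) ?_
    (fun a b ha hb h => Subtype.ext (red_inj o a b _ hn ha hb h)) ?_ n ⟨v, hv.ne'⟩ ?_ le_rfl
  · intro z w hw
    obtain ⟨s, hs⟩ := mem_nbG.1 (mem_subtype.1 hw)
    simp only [← hs]
    exact dst_step o z s
  · intro z hz
    ext y
    simp only [mem_inter, mem_erase, mem_univ, and_true, mem_image, mem_subtype, mem_nbG]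
    constructor
    · rintro ⟨⟨s, rfl⟩, hy⟩
      refine ⟨⟨z.1 + step ℤ s, fun h => hy ?_⟩, ⟨s, rfl⟩, red_step _ _⟩
      rw [← red_step, h]
    · rintro ⟨w, ⟨s, hs⟩, rfl⟩
      refine ⟨⟨s, by rw [← hs, red_step]⟩, fun h => w.2 ?_⟩
      refine red_inj o _ _ _ hn ?_ (by simp [dst]) h
      have := dst_step o z s
      rw [hs] at this
      omega
  · obtain ⟨s, rfl⟩ := mem_nbG.1 ((mem_nbG_lattice _ _).2 hv)
    simpa [dst] using dst_step o o s

end Pool.Agent.Lib.MP_3755f6_co
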