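import Pool.Agent.Lib.MP_3755f6_co.MW4
import Pool.Agent.Lib.MP_3755f6_co.Torus

/-! Reflections of the torus, Gaussian domination for dimers. -/

namespace Pool.Agent.Lib.MP_3755f6_co

open Finset

variable {d L : ℕ} [NeZero L]

lemma val_succ (a : ZMod L) :
    (a + 1).val = a.val + 1 ∨ (a.val + 1 = L ∧ (a + 1).val = 0) := by
  have h := ZMod.val_lt a
  have : a + 1 = ((a.val + 1 : ℕ) : ZMod L) := by simp
  rw [this, ZMod.val_natCast]
  rcases Nat.lt_or_ge (a.val + 1) L with h1 | h1
  · exact Or.inl (Nat.mod_eq_of_lt h1)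
  · have : a.val + 1 = L := by omega
    exact Or.inr ⟨this, by rw [this, Nat.mod_self]⟩

lemma val_neg' (a : ZMod L) : (a.val = 0 ∧ (-a).val = 0) ∨ (-a).val + a.val = L := by
  have h := ZMod.val_lt a
  rw [ZMod.neg_val]
  split_ifs with h0
  · exact Or.inl ⟨by simp [h0], rfl⟩
  · right; omega

/-- reflection of one coordinate -/
def rfl1 (i : Fin d) (a : ZMod L) (x : Tor d L) : Tor d L := Function.update x i (a - x i)

omit [NeZero L] in
lemma rfl1_rfl1 (i : Fin d) (a : ZMod L) (x : Tor d L) : rfl1 i a (rfl1 i a x) = x := by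
  simp [rfl1]

omit [NeZero L] in
lemma rfl1_add (i : Fin d) (a : ZMod L) (x : Tor d L) (b : ZMod L) :
    rfl1 i a (x + Pi.single i b) = rfl1 i a x - Pi.single i b := by
  ext j
  by_cases h : j = i
  · subst h; simp [rfl1]; ring
  · simp [rfl1, h]

omit [NeZero L] in
lemma rfl1_add' {i k : Fin d} (hk : k ≠ i) (a : ZMod L) (x : Tor d L) (b : ZMod L) :
    rfl1 i a (x + Pi.single k b) = rfl1 i a x + Pi.single k b := by
  ext j
  by_cases h : j = i
  · subst h; simp [rfl1, hk.symm]
  · simp [rfl1, h]

/-- the reflection as a permutation -/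
def rflE (i : Fin d) (a : ZMod L) : Tor d L ≃ Tor d L :=
  Function.Involutive.toPerm (rfl1 i a) (rfl1_rfl1 i a)

omit [NeZero L] in
lemma rflE_apply (i : Fin d) (a : ZMod L) (x : Tor d L) : rflE i a x = rfl1 i a x := rfl

omit [NeZero L] in
lemma rfl1_nb (i : Fin d) (a : ZMod L) (x y : Tor d L) (h : y ∈ nbG x) :
    rfl1 i a y ∈ nbG (rfl1 i a x) := by
  obtain ⟨⟨k, b⟩, rfl⟩ := mem_nbG.1 h
  by_cases hk : k = i
  · subst hk
    refine mem_nbG.2 ⟨(k, !b), ?_⟩
    cases b
    · simp only [step, Bool.not_false, if_true, Bool.false_eq_true, if_false, ← Pi.single_neg,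
        rfl1_add]
      rw [Pi.single_neg, sub_neg_eq_add]
    · simp only [step, Bool.not_true, if_true, Bool.false_eq_true, if_false, rfl1_add,
        sub_eq_add_neg]
  · refine mem_nbG.2 ⟨(k, b), ?_⟩
    cases b
    · simp only [step, Bool.false_eq_true, if_false, ← Pi.single_neg, rfl1_add' hk]
    · simp only [step, if_true, rfl1_add' hk]

omit [NeZero L] in
lemma rflE_nb (i : Fin d) (a : ZMod L) (x y : Tor d L) :
    rflE i a y ∈ nbG (rflE i a x) ↔ y ∈ nbG x :=
  ⟨fun h => by simpa [rflE_apply, rfl1_rfl1] using rfl1_nb i a _ _ h, rfl1_nb i a x y⟩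

omit [NeZero L] in
lemma nbG_symm (x y : Tor d L) (h : y ∈ nbG x) : x ∈ nbG y := by
  obtain ⟨⟨k, b⟩, rfl⟩ := mem_nbG.1 h
  refine mem_nbG.2 ⟨(k, !b), ?_⟩
  cases b <;> simp [step]

lemma cast_eq_of_val {a : ZMod L} {n : ℕ} (h : a.val = n) : a = n := by
  rw [← h]; simp

/-- the reflection of the torus in the planes next to `x i = c` -/
def torCut (M : ℕ) (hM : L = 2 * M) (i : Fin d) (c : ZMod L) : Cut (nbG (d := d) (A := ZMod L)) where
  θ := rflE i (2 * c + 1)
  P := univ.filter fun x => (c - x i).val < M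
  B := univ.filter fun x => (c - x i).val = 0 ∨ (c - x i).val + 1 = M
  inv := rfl1_rfl1 _ _
  side := by
    intro x
    have : c - rflE i (2 * c + 1) x i = -1 - (c - x i) := by simp [rflE_apply, rfl1]; ring
    have h := ZMod.val_lt (c - x i)
    simp only [mem_filter, mem_univ, true_and, this, val_neg_one_sub]
    omega
  nbθ := rflE_nb _ _
  BP := by
    intro x
    have := NeZero.pos L
    simp only [mem_filter, mem_univ, true_and]
    omega
  cross := by
    intro x hx y hy
    simp only [mem_filter, mem_univ, true_and] at hx hy ⊢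
    have k1 : (c - x i).val = 0 → rflE i (2 * c + 1) x = x + Pi.single i 1 := by
      intro h
      have h2 := cast_eq_of_val h
      ext j
      by_cases hj : j = i
      · subst hj; simp [rflE_apply, rfl1]; simp at h2; linear_combination 2 * h2
      · simp [rflE_apply, rfl1, hj]
    have k2 : (c - x i).val + 1 = M → rflE i (2 * c + 1) x = x + -Pi.single i 1 := by
      intro h
      have h2 : (2 : ZMod L) * (((c - x i).val : ℕ) + 1) = 0 := by
        have : ((2 * ((c - x i).val + 1) : ℕ) : ZMod L) = 0 := by rw [h, ← hM]; simp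
        exact_mod_cast this
      ext j
      by_cases hj : j = i
      · subst hj; simp [rflE_apply, rfl1]; simp at h2; linear_combination h2
      · simp [rflE_apply, rfl1, hj]
    constructor
    · intro h
      obtain ⟨⟨k, b⟩, rfl⟩ := mem_nbG.1 h
      by_cases hk : k = i
      · subst hk
        cases b
        · have e : c - (x + step (ZMod L) (k, false)) k = (c - x k) + 1 := by simp [step]; ring
          rw [e] at hy
          have := val_succ (c - x k)
          have h3 : (c - x k).val + 1 = M := by omega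
          exact ⟨Or.inr h3, by rw [k2 h3]; simp [step]⟩
        · have e : c - (x + step (ZMod L) (k, true)) k + 1 = c - x k := by simp [step]; ring
          have := val_succ (c - (x + step (ZMod L) (k, true)) k)
          rw [e] at this
          have h3 : (c - x k).val = 0 := by omega
          exact ⟨Or.inl h3, by rw [k1 h3]; simp [step]⟩
      · have : (x + step (ZMod L) (k, b)) i = x i := by
          cases b <;> simp [step, Ne.symm hk]
        rw [this] at hy
        exact absurd hx hy
    · rintro ⟨h | h, rfl⟩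
      · exact mem_nbG.2 ⟨(i, true), by rw [k1 h]; simp [step]⟩
      · exact mem_nbG.2 ⟨(i, false), by rw [k2 h]; simp [step]⟩

omit [NeZero L] in
lemma add_single_mem (x : Tor d L) (k : Fin d) : x + Pi.single k 1 ∈ nbG x :=
  mem_nbG.2 ⟨(k, true), by simp [step]⟩

omit [NeZero L] in
lemma add_single_ne (hL : 3 ≤ L) (x : Tor d L) (k : Fin d) : x + Pi.single k 1 ≠ x := by
  intro h
  simpa [zmod_one_ne hL] using congrFun h k

lemma sum_shift (a : Tor d L) (f : Tor d L → ℝ) : ∑ x, f (x - a) = ∑ x, f x :=
  Equiv.sum_comp (Equiv.subRight a) f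

/-- Gaussian domination for dimers parallel to direction `k`, gradient in direction `i` -/
theorem gauss4 (M : ℕ) (hM : L = 2 * M) (hM2 : 2 ≤ M) {t : ℝ} (ht : 0 ≤ t) {i k : Fin d}
    (hk : k ≠ i) (h : Tor d L → ℝ) :
    Bq (ZT d L t) (fun x => x + Pi.single k 1) (fun x => h x - h (x - Pi.single i 1)) ≤
      3 * ZT d L t univ * ∑ x, h x ^ 2 := by
  have hL : 3 ≤ L := by omega
  have hZ := isZ_ZT (d := d) hL t
  have hZ0 := hZ.nonneg ht univ
  have := maxim (fun h : Tor d L → ℝ => Bq (ZT d L t) (fun x => x + Pi.single k 1)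
    (fun x => h x - h (x - Pi.single i 1)) - 3 * ZT d L t univ * ∑ x, h x ^ 2)
    (by simp [Bq]) ?_ h
  · linarith
  intro e0
  set c := e0 i with hc
  set u : Tor d L → ℕ := fun x => (c - x i).val with hu
  set τ : Tor d L → Tor d L := rfl1 i (2 * c) with hτ
  have ul : ∀ x, u x < L := fun x => ZMod.val_lt _
  have uτ : ∀ x, (u x = 0 ∧ u (τ x) = 0) ∨ u (τ x) + u x = L := by
    intro x
    have : c - τ x i = -(c - x i) := by simp [hτ, rfl1]; ring
    simp only [hu, this]
    exact val_neg' _
  have us : ∀ x, u (x - Pi.single i 1) = u x + 1 ∨ (u x + 1 = L ∧ u (x - Pi.single i 1) = 0) := by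
    intro x
    have : c - (x - Pi.single i 1 : Tor d L) i = c - x i + 1 := by simp; ring
    simp only [hu, this]
    exact val_succ _
  have τfix : ∀ x, u x = 0 ∨ u x = M → τ x = x := by
    intro x hx
    have h2 : (2 : ZMod L) * (c - x i) = 0 := by
      rcases hx with hx | hx
      · rw [cast_eq_of_val hx]; simp
      · rw [cast_eq_of_val hx]
        have : ((2 * M : ℕ) : ZMod L) = 0 := by rw [← hM]; simp
        exact_mod_cast this
    ext j
    by_cases hj : j = i
    · subst hj; simp [hτ, rfl1]; linear_combination h2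
    · simp [hτ, rfl1, hj]
  have θ1 : ∀ x, (torCut M hM i c).θ x = τ (x - Pi.single i 1) := by
    intro x
    ext j
    by_cases hj : j = i
    · subst hj; simp [torCut, rflE_apply, hτ, rfl1]; ring
    · simp [torCut, rflE_apply, hτ, rfl1, hj]
  have θ2 : ∀ x, τ (x - Pi.single i 1) - Pi.single i 1 = τ x := by
    intro x
    rw [← rfl1_add, sub_add_cancel]
  have ττ : ∀ x, τ (τ x) = x := rfl1_rfl1 _ _
  refine ⟨τ, fun x => 1 ≤ u x ∧ u x < M, fun x => M < u x, inferInstance, inferInstance, ττ,
    by simp [hu, hc], by simp [hu, hc], fun h => ?_⟩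
  set hm : Tor d L → ℝ := fun e => if 1 ≤ u e ∧ u e < M then h e else
    if M < u e then -h (τ e) else 0 with hhm
  set hp : Tor d L → ℝ := fun e => if 1 ≤ u e ∧ u e < M then -h (τ e) else
    if M < u e then h e else 0 with hhp
  have m1 : ∀ y, hm (τ y) = -hm y := by
    intro y
    have := uτ y
    have := ul y
    have := ul (τ y)
    simp only [hhm, ττ]
    split_ifs <;> first | omega | simp
  have m2 : ∀ y, hp (τ y) = -hp y := by
    intro y
    have := uτ y
    have := ul y
    have := ul (τ y)
    simp only [hhp, ττ]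
    split_ifs <;> first | omega | simp
  set γ : Tor d L → ℝ := fun x => (if u x = 0 then h x else 0) -
    (if u (x - Pi.single i 1) = M then h (x - Pi.single i 1) else 0) with hγ
  have mP : ∀ x, x ∈ (torCut M hM i c).P ↔ u x < M := by intro x; simp [torCut, hu]
  have mB : ∀ x, x ∈ (torCut M hM i c).B ↔ u x = 0 ∨ u x + 1 = M := by intro x; simp [torCut, hu]
  have uk : ∀ x, u (x + Pi.single k 1) = u x := by intro x; simp [hu, hk.symm]
  have st := (torCut M hM i c).step4 nbG_symm hZ ht (s := fun x => x + Pi.single k 1)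
    (fun x => add_single_mem x k) (fun x => add_single_ne hL x k)
    (fun x => rfl1_add' hk _ x 1) (fun x hx => by rw [mP] at hx ⊢; rwa [uk])
    (fun x hx => by rw [mB] at hx ⊢; rwa [uk]) ?_
    (fun x => hm x - hm (x - Pi.single i 1)) (fun x => hp x - hp (x - Pi.single i 1)) γ
    (fun x => h x - h (x - Pi.single i 1))
    (fun x => hm x - hm (x - Pi.single i 1)) (fun x => hp x - hp (x - Pi.single i 1))
    ?_ ?_ ?_ (fun _ _ => rfl) ?_ (fun _ _ => rfl) ?_
  · have n1 : ∑ x ∈ (torCut M hM i c).P, γ x ^ 2 ≤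
        ∑ x, (if u x = 0 ∨ u x = M then h x ^ 2 else 0) := by
      have a1 : ∑ x ∈ (torCut M hM i c).P, γ x ^ 2 ≤ ∑ x, γ x ^ 2 :=
        Finset.sum_le_sum_of_subset_of_nonneg (subset_univ _) fun x _ _ => sq_nonneg _
      have a2 : ∑ x, γ x ^ 2 = ∑ x, (if u x = 0 then h x ^ 2 else 0) +
          ∑ x : Tor d L,
            (if u (x - Pi.single i 1) = M then h (x - Pi.single i 1) ^ 2 else 0) := by
        rw [← Finset.sum_add_distrib]
        refine Finset.sum_congr rfl fun x _ => ?_
        have := us x
        simp only [hγ]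
        split_ifs <;> first | omega | ring1
      rw [sum_shift (Pi.single i 1) (fun x => if u x = M then h x ^ 2 else 0),
        ← Finset.sum_add_distrib] at a2
      refine a1.trans (a2.trans (Finset.sum_congr rfl fun x _ => ?_)).le
      split_ifs <;> first | omega | ring1
    have n2 : ∑ x, hm x ^ 2 + ∑ x, hp x ^ 2 =
        ∑ x, (if u x = 0 ∨ u x = M then 0 else h x ^ 2) +
        ∑ x, (if u (τ x) = 0 ∨ u (τ x) = M then 0 else h (τ x) ^ 2) := by
      rw [← Finset.sum_add_distrib, ← Finset.sum_add_distrib]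
      refine Finset.sum_congr rfl fun x _ => ?_
      have := uτ x
      have := ul x
      have := ul (τ x)
      simp only [hhm, hhp]
      split_ifs <;> first | omega | ring1
    have n3 := Equiv.sum_comp (rflE i (2 * c)) (fun x => if u x = 0 ∨ u x = M then 0 else h x ^ 2)
    simp only [rflE_apply, ← hτ] at n3
    have n4 : ∑ x, (if u x = 0 ∨ u x = M then h x ^ 2 else 0) +
        ∑ x, (if u x = 0 ∨ u x = M then 0 else h x ^ 2) = ∑ x, h x ^ 2 := by
      rw [← Finset.sum_add_distrib]
      refine Finset.sum_congr rfl fun x _ => ?_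
      split_ifs <;> ring
    have n5 : ∑ x, hm x ^ 2 + ∑ x, hp x ^ 2 + 2 * ∑ x ∈ (torCut M hM i c).P, γ x ^ 2 ≤
        2 * ∑ x, h x ^ 2 := by linarith
    have n6 := mul_le_mul_of_nonneg_left n5 hZ0
    linarith
  · intro x
    refine (card_le_card (t := {x, x + Pi.single k 1, x - Pi.single k 1}) fun y hy => ?_).trans
      card_le_three
    simp only [mem_filter, mem_univ, true_and, Finset.disjoint_left, mem_insert, mem_singleton,
      forall_eq_or_imp, forall_eq, add_left_inj] at hy ⊢
    rw [eq_sub_iff_add_eq]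
    by_contra hh
    push Not at hh
    exact hy ⟨fun e => e.elim (fun e => hh.1 e.symm) (fun e => hh.2.2 e.symm),
      fun e => e.elim (fun e => hh.2.1 e.symm) (fun e => hh.1 e.symm)⟩
  · intro x hx
    rw [mB] at hx
    have := us x
    simp only [hγ]
    split_ifs <;> first | omega | ring1
  · intro x hx
    rw [mP] at hx
    have := us x
    simp only [hγ, hhm]
    split_ifs <;> first | omega | ring1
  · intro x hx
    rw [mP] at hx
    have := us x
    have f1 := τfix x
    have f2 := τfix (x - Pi.single i 1)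
    simp only [hγ, hhp, θ1, θ2]
    split_ifs with a1 a2 a3 a4 a5 a6 a7 a8 a9 <;>
      first | omega | ring1 | (rw [f1 (by omega)]; ring1) | (rw [f2 (by omega)]; ring1)
  · intro x _
    simp only [θ1, θ2, m1]; ring
  · intro x _
    simp only [θ1, θ2, m2]; ring

end Pool.Agent.Lib.MP_3755f6_co
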