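import Pool.Agent.Lib.MP_3755f6_co.MW5

/-! Variance bounds, Ward identity and the basic inequality on the torus. -/

namespace Pool.Agent.Lib.MP_3755f6_co

open Finset

variable {d L : ℕ} [NeZero L]

lemma var_dimer (M : ℕ) (hM : L = 2 * M) (hM2 : 2 ≤ M) {t : ℝ} (ht : 0 ≤ t) {i k : Fin d}
    (hk : k ≠ i) (h : Tor d L → ℝ) :
    Ex nbG t univ (fun π => (∑ x, (h x - h (x - Pi.single i 1)) *
      dm x (x + Pi.single k 1) π) ^ 2) ≤ 7 * ZT d L t univ * ∑ x, h x ^ 2 := by
  have hL : 3 ≤ L := by omega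
  have hZ := isZ_ZT (d := d) hL t
  have hZ0 := hZ.nonneg ht univ
  have g := gauss4 M hM hM2 ht hk h
  set φ : Tor d L → ℝ := fun x => h x - h (x - Pi.single i 1) with hφ
  have e1 : Ex nbG t univ (fun π => (∑ x, φ x * dm x (x + Pi.single k 1) π) ^ 2) =
      ∑ x, φ x ^ 2 * ZT d L t (univ \ {x, x + Pi.single k 1}) +
        Bq (ZT d L t) (fun x => x + Pi.single k 1) φ := by
    simp only [sq, Finset.sum_mul_sum, Ex_sum, Bq, ← Finset.sum_add_distrib]
    refine Finset.sum_congr rfl fun x _ => ?_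
    have : ∀ y, Ex nbG t univ (fun π => φ x * dm x (x + Pi.single k 1) π *
        (φ y * dm y (y + Pi.single k 1) π)) =
        (if y = x then φ x * φ x * ZT d L t (univ \ {x, x + Pi.single k 1}) else 0) +
        φ x * φ y * C4 (ZT d L t) (fun x => x + Pi.single k 1) x y := by
      intro y
      rw [Ex_congr _ (g := fun π => φ x * φ y * (dm x (x + Pi.single k 1) π *
        dm y (y + Pi.single k 1) π)) (fun π _ => by ring), Ex_smul,
        Ex_dm_dm nbG_symm hZ (add_single_mem x k) (add_single_ne hL x k) (add_single_mem y k)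
        (add_single_ne hL y k)]
      by_cases e : y = x
      · subst e; simp [C4]
      · rw [if_neg, if_neg e, zero_add, C4]
        rintro (⟨h1, -⟩ | ⟨rfl, h2⟩)
        · exact e h1
        · have := congrFun h2 k
          simp only [Pi.add_apply, Pi.single_eq_same] at this
          exact zmod_two_ne hL (by linear_combination this)
    simp only [this, Finset.sum_add_distrib, Finset.sum_ite_eq', mem_univ, if_true]
  have e2 : ∀ x : Tor d L, ZT d L t (univ \ {x, x + Pi.single k 1}) ≤ ZT d L t univ := by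
    intro x
    have a := Ex_dm nbG_symm hZ univ (add_single_mem x k) (add_single_ne hL x k)
    rw [if_pos ⟨mem_univ _, mem_univ _⟩] at a
    rw [← a, ← Ex_one nbG_symm hZ]
    exact Ex_mono ht _ fun π _ => (dm_mem _ _ π).2
  have e3 : ∑ x, φ x ^ 2 * ZT d L t (univ \ {x, x + Pi.single k 1}) ≤
      ∑ x : Tor d L, ZT d L t univ * (2 * h x ^ 2 + 2 * h (x - Pi.single i 1) ^ 2) := by
    refine Finset.sum_le_sum fun x _ => ?_
    have a1 := mul_le_mul_of_nonneg_left (e2 x) (sq_nonneg (φ x))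
    have a2 : φ x ^ 2 ≤ 2 * h x ^ 2 + 2 * h (x - Pi.single i 1) ^ 2 := by
      simp only [hφ]; nlinarith [sq_nonneg (h x + h (x - Pi.single i 1))]
    nlinarith
  rw [← Finset.mul_sum, Finset.sum_add_distrib, ← Finset.mul_sum, ← Finset.mul_sum,
    sum_shift (Pi.single i 1) (fun x => h x ^ 2)] at e3
  rw [e1]
  linarith

lemma var_mu (hL : 3 ≤ L) {t : ℝ} (ht : 0 ≤ t) (Ψ : Tor d L → ℝ) :
    Ex nbG t univ (fun π => (∑ x, Ψ x * dm x x π) ^ 2) ≤
      (∑ x, |Ψ x|) ^ 2 * (t * ZT d L t (univ.erase 0)) := by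
  have hZ := isZ_ZT (d := d) hL t
  have : Ex nbG t univ (fun π => (∑ x, Ψ x * dm x x π) ^ 2) ≤
      Ex nbG t univ (fun π => ∑ x, ∑ y, |Ψ x| * |Ψ y| * dm x x π) := by
    refine Ex_mono ht _ fun π _ => ?_
    rw [sq, Finset.sum_mul_sum]
    refine Finset.sum_le_sum fun x _ => Finset.sum_le_sum fun y _ => ?_
    have a1 : Ψ x * Ψ y ≤ |Ψ x| * |Ψ y| := by rw [← abs_mul]; exact le_abs_self _
    have a2 : 0 ≤ |Ψ x| * |Ψ y| := by positivity
    unfold dm
    split_ifs <;> simp [a1, a2]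
  refine this.trans (le_of_eq ?_)
  simp only [Ex_sum, Ex_smul, sq, Finset.sum_mul_sum]
  simp only [Finset.sum_mul]
  refine Finset.sum_congr rfl fun x _ => Finset.sum_congr rfl fun y _ => ?_
  rw [show Ex nbG t univ (fun π => dm x x π) = _ from Ex_mu nbG_symm hZ x, ZT_one hL]

lemma dm_symm {π : Tor d L → Tor d L} (hπ : π ∈ Conf nbG univ) (x y : Tor d L) :
    dm x y π = dm y x π := by
  unfold dm
  refine if_congr ⟨fun e => ?_, fun e => ?_⟩ rfl rfl
  · rw [← e, (mem_Conf.1 hπ x).1]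
  · rw [← e, (mem_Conf.1 hπ y).1]

lemma ward (hL : 3 ≤ L) (Ψ : Tor d L → ℝ) {π : Tor d L → Tor d L} (hπ : π ∈ Conf nbG univ) :
    ∑ x, Ψ x = ∑ x, Ψ x * dm x x π +
      ∑ j, ∑ x, (Ψ x + Ψ (x + Pi.single j 1)) * dm x (x + Pi.single j 1) π := by
  have e1 : ∀ x, Ψ x = Ψ x * dm x x π + ∑ j, (Ψ x * dm x (x + Pi.single j 1) π +
      Ψ x * dm (x - Pi.single j 1) x π) := by
    intro x
    have a := one_eq_sum_dm hπ x
    have : nbG x ∩ univ.erase x = nbG x := by
      refine inter_eq_left.2 fun y hy => ?_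
      obtain ⟨s, rfl⟩ := mem_nbG.1 hy
      simpa using step_ne_zero (zmod_one_ne hL) s
    rw [this, sum_nbG (zmod_one_ne hL) (zmod_two_ne hL)] at a
    simp only [← mul_add, ← Finset.mul_sum, dm_symm hπ (x - _) x]
    rw [← a, mul_one]
  rw [Finset.sum_congr rfl fun x _ => e1 x, Finset.sum_add_distrib, Finset.sum_comm]
  congr 1
  refine Finset.sum_congr rfl fun j _ => ?_
  simp only [add_mul, Finset.sum_add_distrib]
  congr 1
  have := sum_shift (Pi.single j 1 : Tor d L)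
    (fun x => Ψ (x + Pi.single j 1) * dm x (x + Pi.single j 1) π)
  simpa only [sub_add_cancel] using this

lemma uncert_tor (M : ℕ) (hM : L = 2 * M) (hM2 : 2 ≤ M) {t : ℝ} (ht : 0 ≤ t) (i : Fin d)
    (ψ : Tor d L → ℝ) :
    (ψ 0 * ZT d L t (univ.erase 0)) ^ 2 ≤ ZT d L t univ * Ex nbG t univ (fun π =>
      (∑ x, if x i = 0 then ψ x * (dm x (x + Pi.single i 1) π - dm (x - Pi.single i 1) x π)
        else 0) ^ 2) := by
  have hL : 3 ≤ L := by omega
  have hZ := isZ_ZT (d := d) hL t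
  have θ1 : ∀ x : Tor d L, x i = 0 → (torCut M hM i 0).θ x = x + Pi.single i 1 := by
    intro x hx
    ext j
    by_cases hj : j = i
    · subst hj; simp [torCut, rflE_apply, rfl1, hx]
    · simp [torCut, rflE_apply, rfl1, hj]
  have := (torCut M hM i 0).uncertainty nbG_symm hZ ht (univ.filter fun x => x i = 0)
    (fun x hx => by simp only [mem_filter, mem_univ, true_and] at hx; simp [torCut, hx])
    (fun x => x - Pi.single i 1) ?_ ?_ ?_ (rflE i 0) (rflE_nb i 0) ?_ ?_ 0 (by simp) ψ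
  · refine this.trans (le_of_eq ?_)
    congr 1
    refine Ex_congr _ fun π hπ => ?_
    rw [Finset.sum_filter]
    congr 1
    refine Finset.sum_congr rfl fun x _ => ?_
    split_ifs with hx
    · rw [θ1 x hx, dm_symm hπ x (x - _)]
    · rfl
  · intro x hx
    simp only [mem_filter, mem_univ, true_and] at hx
    have := val_succ (0 : ZMod L)
    simp only [zero_add, ZMod.val_zero] at this
    simp only [torCut, mem_filter, mem_univ, true_and, Pi.sub_apply, hx, Pi.single_eq_same,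
      zero_sub, neg_neg]
    omega
  · intro x _
    exact mem_nbG.2 ⟨(i, false), by simp [step, sub_eq_add_neg]⟩
  · intro x hx
    simp only [mem_filter, mem_univ, true_and] at hx
    simp [hx, zmod_one_ne hL]
  · intro x hx
    simp only [mem_filter, mem_univ, true_and] at hx
    simp [rflE_apply, rfl1, hx]
  · intro x hx
    simp only [mem_filter, mem_univ, true_and] at hx
    rw [θ1 x hx, rflE_apply, rfl1_add]
    simp [rfl1, hx]

/-- the basic inequality in two dimensions -/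
lemma basic_two (M : ℕ) (hM : L = 2 * M) (hM2 : 2 ≤ M) {t : ℝ} (ht : 0 ≤ t) (Ξ : Tor 2 L → ℝ) :
    ((Ξ (-Pi.single 0 1) - Ξ (-Pi.single 0 1 - Pi.single 1 1)) * ZT 2 L t (univ.erase 0)) ^ 2 ≤
      3 * ZT 2 L t univ * ((4 * ∑ x, |Ξ x|) ^ 2 * (t * ZT 2 L t (univ.erase 0)) +
        7 * ZT 2 L t univ * (∑ x : Tor 2 L, (Ξ (x + Pi.single 0 1) - Ξ (x - Pi.single 0 1) +
          (if x 0 = 0 then Ξ (x - Pi.single 0 1) else 0) - (if x 0 = -1 then Ξ x else 0)) ^ 2 +
          ∑ x : Tor 2 L, (Ξ (x + Pi.single 1 1) - Ξ (x - Pi.single 1 1)) ^ 2)) := by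
  have hL : 3 ≤ L := by omega
  have hZ := isZ_ZT (d := 2) hL t
  have hZ0 := hZ.nonneg ht univ
  have hZ1 := hZ.nonneg ht (univ.erase 0)
  set e : Tor 2 L := Pi.single 0 1 with he
  set f : Tor 2 L := Pi.single 1 1 with hf
  set Ψ : Tor 2 L → ℝ := fun x => Ξ x - Ξ (x - e) - Ξ (x - f) + Ξ (x - e - f) with hΨ
  set G1 : Tor 2 L → ℝ := fun x => Ξ (x + e) - Ξ (x - e) +
    (if x 0 = 0 then Ξ (x - e) else 0) - (if x 0 = -1 then Ξ x else 0) with hG1
  set H2 : Tor 2 L → ℝ := fun x => Ξ (x + f) - Ξ (x - f) with hH2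
  have u := uncert_tor M hM hM2 ht (0 : Fin 2) (fun x => Ξ (x - e) - Ξ (x - e - f))
  have v1 := var_dimer M hM hM2 ht (i := (1 : Fin 2)) (k := 0) (by decide) G1
  have v2 := var_dimer M hM hM2 ht (i := (0 : Fin 2)) (k := 1) (by decide) H2
  have v3 := var_mu hL ht Ψ
  simp only [zero_sub, ← he, ← hf] at u v1 v2
  have s0 : ∑ x, Ψ x = 0 := by
    simp only [hΨ, Finset.sum_add_distrib, Finset.sum_sub_distrib, sub_sub, sum_shift]
    ring
  have s1 : ∑ x, |Ψ x| ≤ 4 * ∑ x, |Ξ x| := by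
    have : ∑ x, |Ψ x| ≤ ∑ x, (|Ξ x| + |Ξ (x - e)| + |Ξ (x - f)| + |Ξ (x - (e + f))|) := by
      refine Finset.sum_le_sum fun x _ => ?_
      simp only [hΨ, sub_sub x e f]
      refine (abs_add_le _ _).trans (add_le_add_left ((abs_sub _ _).trans
        (add_le_add_left (abs_sub _ _) _)) _)
    simp only [Finset.sum_add_distrib, sum_shift _ (fun x => |Ξ x|)] at this
    linarith
  have key : ∀ π ∈ Conf nbG univ,
      (∑ x, if x 0 = 0 then (Ξ (x - e) - Ξ (x - e - f)) * (dm x (x + e) π - dm (x - e) x π)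
        else 0) = ∑ x, Ψ x * dm x x π + ∑ x, (G1 x - G1 (x - f)) * dm x (x + e) π +
          ∑ x, (H2 x - H2 (x - e)) * dm x (x + f) π := by
    intro π hπ
    have w := ward hL Ψ hπ
    rw [s0, Fin.sum_univ_two, ← he, ← hf] at w
    have a1 : ∑ x, (Ψ x + Ψ (x + f)) * dm x (x + f) π =
        ∑ x, (H2 x - H2 (x - e)) * dm x (x + f) π := by
      refine Finset.sum_congr rfl fun x _ => ?_
      have b2 : x + f - e = x - e + f := by abel
      simp only [hΨ, hH2, add_sub_cancel_right, b2]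
      ring
    have a2 : ∑ x : Tor 2 L, (if x 0 = 0 then (Ξ (x - e) - Ξ (x - e - f)) * dm (x - e) x π else 0) =
        ∑ x : Tor 2 L, (if x 0 = -1 then (Ξ x - Ξ (x - f)) * dm x (x + e) π else 0) := by
      rw [← sum_shift e (fun x => if x 0 = -1 then (Ξ x - Ξ (x - f)) * dm x (x + e) π else 0)]
      refine Finset.sum_congr rfl fun x _ => ?_
      simp only [sub_add_cancel]
      refine if_congr ?_ rfl rfl
      simp only [he, Pi.sub_apply, Pi.single_eq_same]
      constructor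
      · intro h; rw [h]; ring
      · intro h; linear_combination h
    have a3 : ∑ x, (G1 x - G1 (x - f)) * dm x (x + e) π =
        ∑ x, (Ψ x + Ψ (x + e)) * dm x (x + e) π +
        ∑ x : Tor 2 L, (if x 0 = 0 then (Ξ (x - e) - Ξ (x - e - f)) * dm x (x + e) π else 0) -
        ∑ x : Tor 2 L, (if x 0 = -1 then (Ξ x - Ξ (x - f)) * dm x (x + e) π else 0) := by
      rw [← Finset.sum_add_distrib, ← Finset.sum_sub_distrib]
      refine Finset.sum_congr rfl fun x _ => ?_
      have b0 : (x - f) 0 = x 0 := by simp [hf]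
      have b1 : x - f - e = x - e - f := by abel
      have b2 : x - f + e = x + e - f := by abel
      simp only [hΨ, hG1, add_sub_cancel_right, b0, b1, b2]
      split_ifs <;> ring
    have a4 : (∑ x, if x 0 = 0 then (Ξ (x - e) - Ξ (x - e - f)) * (dm x (x + e) π - dm (x - e) x π)
        else 0) = ∑ x : Tor 2 L,
          (if x 0 = 0 then (Ξ (x - e) - Ξ (x - e - f)) * dm x (x + e) π else 0) -
        ∑ x : Tor 2 L, (if x 0 = 0 then (Ξ (x - e) - Ξ (x - e - f)) * dm (x - e) x π else 0) := by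
      rw [← Finset.sum_sub_distrib]
      refine Finset.sum_congr rfl fun x _ => ?_
      split_ifs <;> ring
    rw [a4, a3, a2, ← a1]
    linarith
  have u2 : Ex nbG t univ (fun π => (∑ x, if x 0 = 0 then (Ξ (x - e) - Ξ (x - e - f)) *
      (dm x (x + e) π - dm (x - e) x π) else 0) ^ 2) ≤
      3 * (Ex nbG t univ (fun π => (∑ x, Ψ x * dm x x π) ^ 2) +
        Ex nbG t univ (fun π => (∑ x, (G1 x - G1 (x - f)) * dm x (x + e) π) ^ 2) +
        Ex nbG t univ (fun π => (∑ x, (H2 x - H2 (x - e)) * dm x (x + f) π) ^ 2)) := by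
    rw [← Ex_add, ← Ex_add, ← Ex_smul]
    refine Ex_mono ht _ fun π hπ => ?_
    rw [key π hπ]
    generalize (∑ x, Ψ x * dm x x π) = a
    generalize (∑ x, (G1 x - G1 (x - f)) * dm x (x + e) π) = b
    generalize (∑ x, (H2 x - H2 (x - e)) * dm x (x + f) π) = c
    nlinarith [sq_nonneg (a - b), sq_nonneg (a - c), sq_nonneg (b - c)]
  have s2 : (∑ x, |Ψ x|) ^ 2 * (t * ZT 2 L t (univ.erase 0)) ≤
      (4 * ∑ x, |Ξ x|) ^ 2 * (t * ZT 2 L t (univ.erase 0)) :=
    mul_le_mul_of_nonneg_right (pow_le_pow_left₀ (Finset.sum_nonneg fun _ _ => abs_nonneg _) s1 2)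
      (mul_nonneg ht hZ1)
  refine u.trans ?_
  rw [mul_comm 3, mul_assoc]
  refine mul_le_mul_of_nonneg_left (u2.trans ?_) hZ0
  linarith

end Pool.Agent.Lib.MP_3755f6_co
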