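import Pool.Agent.Lib.MP_3755f6_co.MW6

/-! The Mermin-Wagner bound for the monomer-dimer model on two-dimensional tori. -/

namespace Pool.Agent.Lib.MP_3755f6_co

open Finset

/-- a logarithmic profile -/
lemma exists_profile {ε : ℝ} (hε : 0 < ε) : ∃ (R : ℕ) (a : ℕ → ℝ), Antitone a ∧ a 0 = 1 ∧
    (∀ n, 0 ≤ a n) ∧ (∀ n, R ≤ n → a n = 0) ∧
    ∀ N, ∑ n ∈ range N, ((n : ℝ) + 1) * (a (n - 1) - a (n + 1)) ^ 2 ≤ ε := by
  obtain ⟨R, hR⟩ := (Real.tendsto_sum_range_one_div_nat_succ_atTop.eventually_ge_atTop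
    (6 / ε)).exists
  set Hs : ℕ → ℝ := fun n => ∑ k ∈ range n, 1 / ((k : ℝ) + 1) with hHs
  have hH : 0 < Hs R := lt_of_lt_of_le (by positivity) hR
  set a : ℕ → ℝ := fun n => 1 - Hs (min n R) / Hs R with ha
  have hd : ∀ n : ℕ, 0 ≤ a n - a (n + 1) ∧ ((n : ℝ) + 1) * (a n - a (n + 1)) ≤ 1 / Hs R := by
    intro n
    rcases Nat.lt_or_ge n R with h | h
    · have : a n - a (n + 1) = 1 / ((n : ℝ) + 1) / Hs R := by
        simp only [ha, min_eq_left h.le, min_eq_left (Nat.succ_le_of_lt h), hHs,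
          Finset.sum_range_succ]
        ring
      rw [this]
      refine ⟨by positivity, le_of_eq ?_⟩
      field_simp
    · have : a n - a (n + 1) = 0 := by
        simp only [ha, min_eq_right h, min_eq_right (h.trans (Nat.le_succ n)), sub_self]
      rw [this]
      exact ⟨le_rfl, by rw [mul_zero]; positivity⟩
  have anti : Antitone a := antitone_nat_of_succ_le fun n => by linarith [(hd n).1]
  have z : ∀ n, R ≤ n → a n = 0 := fun n hn => by
    simp only [ha, min_eq_right hn, div_self hH.ne', sub_self]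
  have a0 : a 0 = 1 := by simp [ha, hHs]
  have nn : ∀ n, 0 ≤ a n := fun n => by
    rw [← z (max n R) (le_max_right _ _)]; exact anti (le_max_left _ _)
  refine ⟨R, a, anti, a0, nn, z, fun N => ?_⟩
  have b1 : ∀ n : ℕ, ((n : ℝ) + 1) * (a (n - 1) - a (n + 1)) ≤ 3 * (1 / Hs R) := by
    intro n
    have h1 := (hd n).2
    have h0 : 0 < 1 / Hs R := by positivity
    rcases n with _ | n
    · simp only [Nat.zero_sub] at h1 ⊢; linarith
    · have h2 := hd n
      simp only [Nat.add_sub_cancel] at h1 ⊢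
      push_cast at h1 ⊢
      have : (0 : ℝ) ≤ n := Nat.cast_nonneg n
      nlinarith [mul_nonneg this h2.1]
  have b2 : ∀ N, ∑ n ∈ range N, (a (n - 1) - a (n + 1)) = 2 - a (N - 1) - a N := by
    intro N
    induction N with
    | zero => simp [a0]; norm_num
    | succ N ih => rw [Finset.sum_range_succ, ih, Nat.add_sub_cancel]; ring
  have b3 : ∑ n ∈ range N, ((n : ℝ) + 1) * (a (n - 1) - a (n + 1)) ^ 2 ≤
      ∑ n ∈ range N, 3 * (1 / Hs R) * (a (n - 1) - a (n + 1)) := by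
    refine Finset.sum_le_sum fun n _ => ?_
    have : 0 ≤ a (n - 1) - a (n + 1) := sub_nonneg.2 (anti (by omega))
    rw [sq, ← mul_assoc]
    exact mul_le_mul_of_nonneg_right (b1 n) this
  rw [← Finset.mul_sum, b2] at b3
  have b4 : 6 * (1 / Hs R) ≤ ε := by
    rw [mul_one_div, div_le_iff₀ hH]
    have := (div_le_iff₀ hε).1 hR
    linarith
  have h0 : 0 < 1 / Hs R := by positivity
  nlinarith [nn (N - 1), nn N]

variable {L : ℕ} [NeZero L]

lemma sum_val (φ : ℕ → ℝ) : ∑ a : ZMod L, φ a.val = ∑ n ∈ range L, φ n := by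
  refine Finset.sum_nbij' ZMod.val Nat.cast (fun a _ => mem_range.2 (ZMod.val_lt a))
    (fun _ _ => mem_univ _) (fun a _ => by simp)
    (fun n hn => ZMod.val_natCast_of_lt (mem_range.1 hn)) fun _ _ => rfl

/-- depth below the cut -/
def uu (x : Tor 2 L) : ℕ := (-1 - x 0).val

/-- horizontal distance -/
def vv (x : Tor 2 L) : ℕ := min (x 1).val (-x 1).val

lemma fiber_sum (g : ℕ → ℝ) (hg : ∀ n, 0 ≤ g n) :
    ∑ x : Tor 2 L, g (uu x + vv x) ≤ 2 * ∑ n ∈ range (2 * L), ((n : ℝ) + 1) * g n := by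
  have e1 : ∑ x : Tor 2 L, g (uu x + vv x) =
      ∑ b : ZMod L, ∑ a : ZMod L, g ((-1 - a).val + min b.val (-b).val) := by
    rw [← Fintype.sum_prod_type_right']
    exact Fintype.sum_equiv (finTwoArrowEquiv _) _ _ fun x => rfl
  have e2 : ∀ m : ℕ, ∑ a : ZMod L, g ((-1 - a).val + m) = ∑ p ∈ range L, g (p + m) := by
    intro m
    rw [← sum_val (fun p => g (p + m))]
    exact Equiv.sum_comp (Equiv.subLeft (-1 : ZMod L)) (fun a => g (a.val + m))
  set G : ℕ → ℝ := fun m => ∑ p ∈ range L, g (p + m) with hG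
  have G0 : ∀ m, 0 ≤ G m := fun m => Finset.sum_nonneg fun _ _ => hg _
  have e3 : ∑ b : ZMod L, G (min b.val (-b).val) ≤ ∑ b : ZMod L, (G b.val + G (-b).val) := by
    refine Finset.sum_le_sum fun b _ => ?_
    rcases min_choice b.val (-b).val with h | h <;> rw [h] <;> linarith [G0 b.val, G0 (-b).val]
  have e6 : ∑ b : ZMod L, G (-b).val = ∑ b : ZMod L, G b.val :=
    Equiv.sum_comp (Equiv.neg (ZMod L)) (fun b => G b.val)
  rw [Finset.sum_add_distrib, e6, sum_val G] at e3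
  have e4 : ∑ m ∈ range L, G m ≤ ∑ m ∈ range L, ∑ n ∈ range (2 * L), if m ≤ n then g n else 0 := by
    refine Finset.sum_le_sum fun m hm => ?_
    rw [← Finset.sum_filter]
    simp only [hG]
    rw [← Finset.sum_image (s := range L) (g := fun p => p + m) (f := g)
      (fun _ _ _ _ h => Nat.add_right_cancel h)]
    refine Finset.sum_le_sum_of_subset_of_nonneg (fun n hn => ?_) fun n _ _ => hg n
    simp only [mem_image, mem_range, mem_filter] at hn hm ⊢
    omega
  have e5 : ∑ m ∈ range L, ∑ n ∈ range (2 * L), (if m ≤ n then g n else 0) ≤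
      ∑ n ∈ range (2 * L), ((n : ℝ) + 1) * g n := by
    rw [Finset.sum_comm]
    refine Finset.sum_le_sum fun n _ => ?_
    rw [← Finset.sum_filter, Finset.sum_const, nsmul_eq_mul]
    refine mul_le_mul_of_nonneg_right ?_ (hg n)
    have : ((range L).filter fun m => m ≤ n).card ≤ (range (n + 1)).card :=
      card_le_card fun m hm => by simp only [mem_filter, mem_range] at hm ⊢; omega
    rw [card_range] at this
    exact_mod_cast this
  simp only [e1, e2]
  linarith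

/-- checkerboard sign -/
def sgn2 (x : Tor 2 L) : ℝ := (-1) ^ ((x 0).val + (x 1).val)

lemma pow_val_succ (M : ℕ) (hM : L = 2 * M) (a : ZMod L) :
    (-1 : ℝ) ^ (a + 1).val = -(-1) ^ a.val := by
  rcases val_succ a with h | ⟨h1, h2⟩
  · rw [h, pow_succ]; ring
  · have : Odd a.val := ⟨M - 1, by omega⟩
    rw [h2, this.neg_one_pow]; norm_num

lemma sgn2_add (M : ℕ) (hM : L = 2 * M) (x : Tor 2 L) (j : Fin 2) :
    sgn2 (x + Pi.single j 1) = -sgn2 x := by
  fin_cases j <;> simp [sgn2, pow_add, pow_val_succ M hM]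

lemma sgn2_sub (M : ℕ) (hM : L = 2 * M) (x : Tor 2 L) (j : Fin 2) :
    sgn2 (x - Pi.single j 1) = -sgn2 x := by
  have := sgn2_add M hM (x - Pi.single j 1) j
  rw [sub_add_cancel] at this
  linarith

omit [NeZero L] in
lemma sgn2_sq (x : Tor 2 L) : sgn2 x ^ 2 = 1 := by
  rw [sgn2, ← pow_mul, mul_comm, pow_mul]; simp

lemma vv_add (x : Tor 2 L) :
    vv (x + Pi.single 1 1) ≤ vv x + 1 ∧ vv x ≤ vv (x + Pi.single 1 1) + 1 := by
  have h1 := val_succ (x 1)
  have h2 := val_neg' (x 1)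
  have h3 := val_neg' (x 1 + 1)
  have h4 := ZMod.val_lt (x 1)
  simp only [vv, Pi.add_apply, Pi.single_eq_same]
  omega

/-- **Mermin-Wagner bound** for the monomer-dimer model on even two-dimensional tori. -/
theorem mw_two {ε : ℝ} (hε : 0 < ε) : ∃ t0 : ℝ, 0 < t0 ∧ ∃ L0 : ℕ, ∀ t : ℝ, 0 < t → t ≤ t0 →
    ∀ (L M : ℕ) [NeZero L], L = 2 * M → L0 ≤ L →
      ZT 2 L t (univ.erase 0) ≤ ε * ZT 2 L t univ := by
  obtain ⟨R, a, anti, a0, nn, z, en⟩ := exists_profile (ε := ε ^ 2 / 200) (by positivity)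
  set K : ℝ := ∑ n ∈ range R, ((n : ℝ) + 1) * a n with hK
  have K0 : 0 ≤ K := Finset.sum_nonneg fun n _ => mul_nonneg (by positivity) (nn n)
  refine ⟨ε / (2 * (192 * K ^ 2 + 1)), by positivity, R + 4, fun t ht ht0 L M _ hM hL0 => ?_⟩
  have hL : 3 ≤ L := by omega
  have hZ := isZ_ZT (d := 2) hL t
  have hZ0 := hZ.pos ht univ
  have hZ1 := hZ.pos ht (univ.erase 0)
  set Ξ : Tor 2 L → ℝ := fun x => sgn2 x * a (uu x + vv x) with hΞ
  have b := basic_two M hM (by omega) ht.le Ξ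
  have D0 : ∀ n, 0 ≤ a (n - 1) - a (n + 1) := fun n => sub_nonneg.2 (anti (by omega))
  have sq1 : ∀ (x : Tor 2 L) (n p q : ℕ), n - 1 ≤ p → p ≤ n + 1 → n - 1 ≤ q → q ≤ n + 1 →
      (sgn2 x * (a p - a q)) ^ 2 ≤ (a (n - 1) - a (n + 1)) ^ 2 := by
    intro x n p q h1 h2 h3 h4
    rw [mul_pow, sgn2_sq, one_mul]
    have := anti h1
    have := anti h2
    have := anti h3
    have := anti h4
    exact sq_le_sq' (by linarith) (by linarith)
  have ue : ∀ x : Tor 2 L, uu (x - Pi.single 0 1) = uu x + 1 ∨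
      (uu x + 1 = L ∧ uu (x - Pi.single 0 1) = 0) := by
    intro x
    have : -1 - (x - Pi.single 0 1 : Tor 2 L) 0 = -1 - x 0 + 1 := by simp; ring
    simp only [uu, this]
    exact val_succ _
  have ve : ∀ x : Tor 2 L, vv (x - Pi.single 0 1) = vv x := by intro x; simp [vv]
  have uf : ∀ x : Tor 2 L, uu (x - Pi.single 1 1) = uu x := by intro x; simp [uu]
  have f1 : ∑ x : Tor 2 L, |Ξ x| ≤ 2 * K := by
    have : ∀ x, |Ξ x| = a (uu x + vv x) := by
      intro x
      simp only [hΞ, sgn2, abs_mul, abs_pow, abs_neg, abs_one, one_pow, one_mul]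
      exact abs_of_nonneg (nn _)
    simp only [this]
    refine (fiber_sum a nn).trans (le_of_eq ?_)
    congr 1
    symm
    refine Finset.sum_subset (range_subset_range.2 (by omega)) fun n _ hn => ?_
    rw [z n (by simpa using hn), mul_zero]
  have f2 := (fiber_sum (L := L) (fun n => (a (n - 1) - a (n + 1)) ^ 2)
    (fun n => sq_nonneg _)).trans (mul_le_mul_of_nonneg_left (en _) (by norm_num))
  have f3 : ∑ x : Tor 2 L, (Ξ (x + Pi.single 1 1) - Ξ (x - Pi.single 1 1)) ^ 2 ≤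
      ∑ x : Tor 2 L, (a (uu x + vv x - 1) - a (uu x + vv x + 1)) ^ 2 := by
    refine Finset.sum_le_sum fun x _ => ?_
    have h1 := vv_add x
    have h2 := vv_add (x - Pi.single 1 1)
    have h3 := uf (x + Pi.single 1 1)
    rw [sub_add_cancel] at h2
    rw [add_sub_cancel_right] at h3
    refine le_trans (le_of_eq ?_) (sq1 x (uu x + vv x) (uu x + vv (x - Pi.single 1 1))
      (uu x + vv (x + Pi.single 1 1)) (by omega) (by omega) (by omega) (by omega))
    simp only [hΞ, sgn2_add M hM, sgn2_sub M hM, uf, ← h3]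
    ring
  have f4 : ∑ x : Tor 2 L, (Ξ (x + Pi.single 0 1) - Ξ (x - Pi.single 0 1) +
      (if x 0 = 0 then Ξ (x - Pi.single 0 1) else 0) - (if x 0 = -1 then Ξ x else 0)) ^ 2 ≤
      ∑ x : Tor 2 L, (a (uu x + vv x - 1) - a (uu x + vv x + 1)) ^ 2 := by
    refine Finset.sum_le_sum fun x _ => ?_
    have h1 := ue x
    have h2 := ue (x + Pi.single 0 1)
    have h3 := ve (x + Pi.single 0 1)
    rw [add_sub_cancel_right] at h2 h3
    have c1 : x 0 = 0 ↔ uu x + 1 = L := by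
      have := ZMod.val_lt (x 0)
      rw [uu, val_neg_one_sub, ← ZMod.val_eq_zero]
      omega
    have c2 : x 0 = -1 ↔ uu x = 0 := by
      rw [uu, ZMod.val_eq_zero, sub_eq_zero, eq_comm]
    simp only [hΞ, sgn2_add M hM, sgn2_sub M hM, ve, ← h3, c1, c2]
    split_ifs with d1 d2 d2
    · omega
    · rw [z (uu (x + Pi.single 0 1) + vv x) (by omega)]
      refine le_trans (le_of_eq ?_) (sq_nonneg _)
      ring
    · rw [z (uu (x + Pi.single 0 1) + vv x) (by omega)]
      refine le_trans (le_of_eq ?_) (sq1 x (uu x + vv x) (uu (x - Pi.single 0 1) + vv x)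
        (uu x + vv x) (by omega) (by omega) (by omega) (by omega))
      ring
    · refine le_trans (le_of_eq ?_) (sq1 x (uu x + vv x) (uu (x - Pi.single 0 1) + vv x)
        (uu (x + Pi.single 0 1) + vv x) (by omega) (by omega) (by omega) (by omega))
      ring
  have f5 : 1 ≤ (Ξ (-Pi.single 0 1) - Ξ (-Pi.single 0 1 - Pi.single 1 1)) ^ 2 := by
    have h1 : uu (-Pi.single 0 1 : Tor 2 L) + vv (-Pi.single 0 1 : Tor 2 L) = 0 := by
      simp [uu, vv]
    simp only [hΞ, sgn2_sub M hM, h1, a0]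
    have := nn (uu (-Pi.single 0 1 - Pi.single 1 1 : Tor 2 L) +
      vv (-Pi.single 0 1 - Pi.single 1 1 : Tor 2 L))
    have h2 := sgn2_sq (-Pi.single 0 1 : Tor 2 L)
    generalize a (uu (-Pi.single 0 1 - Pi.single 1 1 : Tor 2 L) +
      vv (-Pi.single 0 1 - Pi.single 1 1 : Tor 2 L)) = w at this
    have h3 : (sgn2 (-Pi.single 0 1 : Tor 2 L) * 1 - -sgn2 (-Pi.single 0 1 : Tor 2 L) * w) ^ 2 =
      sgn2 (-Pi.single 0 1 : Tor 2 L) ^ 2 * (1 + w) ^ 2 := by ring
    rw [h3, h2]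
    nlinarith
  set Z1 := ZT 2 L t (univ.erase 0) with hZ1d
  set Z0 := ZT 2 L t univ with hZ0d
  have g1 : (4 * ∑ x : Tor 2 L, |Ξ x|) ^ 2 ≤ (8 * K) ^ 2 :=
    pow_le_pow_left₀ (by positivity) (by linarith) 2
  have g2 : Z1 ^ 2 ≤ 3 * Z0 * ((8 * K) ^ 2 * (t * Z1) + 7 * Z0 * (ε ^ 2 / 50)) := by
    rw [mul_pow] at b
    refine le_trans (le_mul_of_one_le_left (sq_nonneg _) f5) (b.trans ?_)
    refine mul_le_mul_of_nonneg_left (add_le_add (mul_le_mul_of_nonneg_right g1 (by positivity))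
      (mul_le_mul_of_nonneg_left (by linarith) (by positivity))) (by positivity)
  have g3 : 192 * K ^ 2 * t ≤ ε / 2 := by
    rw [le_div_iff₀ (by positivity)] at ht0
    nlinarith
  by_contra hc
  push Not at hc
  have g4 : 192 * K ^ 2 * t * (Z0 * Z1) ≤ ε / 2 * (Z0 * Z1) :=
    mul_le_mul_of_nonneg_right g3 (by positivity)
  have g5 : ε * Z0 * Z1 < Z1 * Z1 := mul_lt_mul_of_pos_right hc hZ1
  have g6 : (ε * Z0) ^ 2 < Z1 ^ 2 := by
    have : 0 < ε * Z0 := by positivity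
    nlinarith
  nlinarith

end Pool.Agent.Lib.MP_3755f6_co
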