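import Pool.Agent.Lib.MP_3755f6_co.Torus

namespace Pool.Agent.Lib.MP_3755f6_co

open Finset

variable {d : ℕ}

/-- compositions of `n` into `d` parts -/
abbrev PL (d n : ℕ) : Finset (Fin d → ℕ) := Finset.Nat.antidiagonalTuple d n

/-- their number -/
def NL (d n : ℕ) : ℝ := (PL d n).card

lemma conserve (n : ℕ) (g : (Fin d → ℕ) → ℝ) :
    ∑ x ∈ PL d n, ∑ i, ((x i : ℝ) + 1) * g (x + Pi.single i 1) =
      (n + 1) * ∑ y ∈ PL d (n + 1), g y := by
  have h1 : ∀ i, ∑ x ∈ PL d n, ((x i : ℝ) + 1) * g (x + Pi.single i 1) =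
      ∑ y ∈ PL d (n + 1), (y i : ℝ) * g y := by
    intro i
    refine Finset.sum_bij_ne_zero (fun x _ _ => x + Pi.single i 1) ?_ ?_ ?_ ?_
    · intro x hx _
      rw [Finset.Nat.mem_antidiagonalTuple] at hx ⊢
      simp [Finset.sum_add_distrib, hx]
    · intro a _ _ b _ _ h; exact add_right_cancel h
    · intro y hy h0
      have hyi : y i ≠ 0 := by rintro h; simp [h] at h0
      have e : (y - Pi.single i 1) + Pi.single i 1 = y := by
        ext j
        by_cases hj : j = i
        · subst hj; simp; omega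
        · simp [hj]
      refine ⟨y - Pi.single i 1, ?_, ?_, e⟩
      · rw [Finset.Nat.mem_antidiagonalTuple] at hy ⊢
        rw [← e] at hy
        simpa [Finset.sum_add_distrib] using hy
      · rw [e]
        refine mul_ne_zero (by positivity) (right_ne_zero_of_mul h0)
    · intro x _ _; simp
  rw [Finset.sum_comm, Finset.sum_congr rfl fun i _ => h1 i, Finset.sum_comm, Finset.mul_sum]
  refine Finset.sum_congr rfl fun y hy => ?_
  rw [← Finset.sum_mul, ← Nat.cast_sum, Finset.Nat.mem_antidiagonalTuple.1 hy]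
  push_cast; rfl

lemma sum_succ_PL {n : ℕ} {x : Fin d → ℕ} (hx : x ∈ PL d n) : ∑ i, ((x i : ℝ) + 1) = n + d := by
  rw [Finset.sum_add_distrib, ← Nat.cast_sum, Finset.Nat.mem_antidiagonalTuple.1 hx]; simp

lemma NL_zero : NL d 0 = 1 := by simp [NL, Finset.Nat.antidiagonalTuple_zero_right]

lemma NL_succ (n : ℕ) : (n + 1) * NL d (n + 1) = (n + d) * NL d n := by
  have := conserve (d := d) n (fun _ => 1)
  simp only [mul_one, Finset.sum_const, nsmul_eq_mul] at this
  rw [NL, ← this, Finset.sum_congr rfl fun x hx => sum_succ_PL hx]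
  simp [NL, mul_comm]; ring

lemma NL_pos (hd : 0 < d) (n : ℕ) : 0 < NL d n := by
  induction n with
  | zero => rw [NL_zero]; norm_num
  | succ n ih =>
    have h := NL_succ (d := d) n
    have : (0:ℝ) < (n + d) * NL d n := by positivity
    rw [← h] at this
    exact (mul_pos_iff_of_pos_left (by positivity)).1 this

lemma mom1 (i : Fin d) (n : ℕ) : d * ∑ x ∈ PL d n, ((x i : ℝ) + 1) = (n + d) * NL d n := by
  induction n with
  | zero => simp [Finset.Nat.antidiagonalTuple_zero_right, NL]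
  | succ n ih =>
    have h := conserve (d := d) n (fun y => (y i : ℝ) + 1)
    have h2 : ∀ x ∈ PL d n, ∑ j, ((x j : ℝ) + 1) * (((x + Pi.single j 1 : Fin d → ℕ) i : ℝ) + 1) =
        (n + d + 1) * ((x i : ℝ) + 1) := by
      intro x hx
      have : ∀ j, ((x j : ℝ) + 1) * (((x + Pi.single j 1 : Fin d → ℕ) i : ℝ) + 1) =
          ((x j : ℝ) + 1) * ((x i : ℝ) + 1) + if j = i then ((x i : ℝ) + 1) else 0 := by
        intro j
        by_cases hj : j = i
        · subst hj; simp; ring
        · simp [hj, Ne.symm hj]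
      simp only [this, Finset.sum_add_distrib, Finset.sum_ite_eq', mem_univ, if_true,
        ← Finset.sum_mul]
      rw [← Finset.sum_add_distrib, sum_succ_PL hx]; ring
    rw [Finset.sum_congr rfl h2, ← Finset.mul_sum] at h
    have h3 := NL_succ (d := d) n
    have h4 : (0:ℝ) < n + 1 := by positivity
    refine mul_left_cancel₀ h4.ne' ?_
    push_cast
    linear_combination (-d : ℝ) * h + (n + d + 1) * ih - (n + d + 1) * h3

lemma mom2 (i : Fin d) (n : ℕ) : d * (d + 1) * ∑ x ∈ PL d n, ((x i : ℝ) + 1) * ((x i : ℝ) + 2) =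
    2 * (n + d) * (n + d + 1) * NL d n := by
  induction n with
  | zero => simp [Finset.Nat.antidiagonalTuple_zero_right, NL]; ring
  | succ n ih =>
    have h := conserve (d := d) n (fun y => ((y i : ℝ) + 1) * ((y i : ℝ) + 2))
    have h2 : ∀ x ∈ PL d n, ∑ j, ((x j : ℝ) + 1) * ((((x + Pi.single j 1 : Fin d → ℕ) i : ℝ) + 1) *
        (((x + Pi.single j 1 : Fin d → ℕ) i : ℝ) + 2)) =
        (n + d + 2) * (((x i : ℝ) + 1) * ((x i : ℝ) + 2)) := by
      intro x hx
      have : ∀ j, ((x j : ℝ) + 1) * ((((x + Pi.single j 1 : Fin d → ℕ) i : ℝ) + 1) *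
          (((x + Pi.single j 1 : Fin d → ℕ) i : ℝ) + 2)) =
          ((x j : ℝ) + 1) * (((x i : ℝ) + 1) * ((x i : ℝ) + 2)) +
            if j = i then 2 * (((x i : ℝ) + 1) * ((x i : ℝ) + 2)) else 0 := by
        intro j
        by_cases hj : j = i
        · subst hj; simp; ring
        · simp [hj, Ne.symm hj]
      simp only [this, Finset.sum_add_distrib, Finset.sum_ite_eq', mem_univ, if_true,
        ← Finset.sum_mul]
      rw [← Finset.sum_add_distrib, sum_succ_PL hx]; ring
    rw [Finset.sum_congr rfl h2, ← Finset.mul_sum] at h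
    have h3 := NL_succ (d := d) n
    have h4 : (0:ℝ) < n + 1 := by positivity
    refine mul_left_cancel₀ h4.ne' ?_
    push_cast
    linear_combination (-(d * (d + 1)) : ℝ) * h + (n + d + 2) * ih -
      2 * (n + d + 1) * (n + d + 2) * h3

/-- the Polya urn flow -/
noncomputable def th (d n : ℕ) (x : Fin d → ℕ) (i : Fin d) : ℝ :=
  ((x i : ℝ) + 1) / ((n + d) * NL d n)

lemma energy (hd : 3 ≤ d) (i : Fin d) (n : ℕ) :
    d * ∑ k ∈ range n, ∑ x ∈ PL d k, th d k x i ^ 2 =
      (1 + 2 / ((d + 1) * (d - 2))) / (d - 1) -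
        (2 / ((d + 1) * (d - 2)) * n + (1 + 2 / ((d + 1) * (d - 2))) / (d - 1)) / NL d n := by
  have hd' : (3:ℝ) ≤ d := by exact_mod_cast hd
  induction n with
  | zero => simp [NL_zero]
  | succ n ih =>
    rw [Finset.sum_range_succ, mul_add, ih]
    have h1 := mom1 i n
    have h2 := mom2 i n
    have h3 := NL_succ (d := d) n
    have h4 := NL_pos (by omega : 0 < d) n
    have h5 : ∑ x ∈ PL d n, th d n x i ^ 2 = (∑ x ∈ PL d n, ((x i : ℝ) + 1) * ((x i : ℝ) + 2) -
        ∑ x ∈ PL d n, ((x i : ℝ) + 1)) / ((n + d) * NL d n) ^ 2 := by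
      rw [← Finset.sum_sub_distrib, Finset.sum_div]
      refine Finset.sum_congr rfl fun x _ => ?_
      rw [th, div_pow]; congr 1; ring
    have h6 : NL d (n + 1) = (n + d) * NL d n / (n + 1) := by
      rw [← h3]; field_simp
    have h7 : ∑ x ∈ PL d n, ((x i : ℝ) + 1) = (n + d) * NL d n / d := by
      rw [← h1]; field_simp
    have h8 : ∑ x ∈ PL d n, ((x i : ℝ) + 1) * ((x i : ℝ) + 2) =
        2 * (n + d) * (n + d + 1) * NL d n / (d * (d + 1)) := by
      rw [← h2]; field_simp
    rw [h5, h6, h7, h8]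
    have a1 : (d : ℝ) - 2 ≠ 0 := by linarith
    have a2 : (d : ℝ) - 1 ≠ 0 := by linarith
    push_cast
    field_simp
    ring

lemma telescope (hd : 0 < d) (n : ℕ) (g : (Fin d → ℕ) → ℝ) :
    ∑ k ∈ range n, ∑ x ∈ PL d k, ∑ i, th d k x i * (g x - g (x + Pi.single i 1)) =
      g 0 - (∑ x ∈ PL d n, g x) / NL d n := by
  induction n with
  | zero => simp [NL_zero, Finset.Nat.antidiagonalTuple_zero_right]
  | succ n ih =>
    rw [Finset.sum_range_succ, ih]
    have h3 := NL_succ (d := d) n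
    have h4 := NL_pos hd n
    have h6 : NL d (n + 1) = (n + d) * NL d n / (n + 1) := by
      rw [← h3]; field_simp
    have h1 := conserve n g
    have hd' : (0:ℝ) < d := by exact_mod_cast hd
    have h2 : ∑ x ∈ PL d n, ∑ i, th d n x i * (g x - g (x + Pi.single i 1)) =
        ((n + d) * ∑ x ∈ PL d n, g x - ∑ x ∈ PL d n, ∑ i, ((x i : ℝ) + 1) *
          g (x + Pi.single i 1)) / ((n + d) * NL d n) := by
      rw [Finset.mul_sum, ← Finset.sum_sub_distrib, Finset.sum_div]
      refine Finset.sum_congr rfl fun x hx => ?_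
      rw [← sum_succ_PL hx, Finset.sum_mul, ← Finset.sum_sub_distrib, Finset.sum_div,
        sum_succ_PL hx]
      refine Finset.sum_congr rfl fun i _ => ?_
      rw [th]; ring
    rw [h2, h1, h6]
    field_simp
    ring

end Pool.Agent.Lib.MP_3755f6_co
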