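import Pool.Agent.Lib.MP_3755f6_co.Eta

namespace Pool.Agent.Lib.MP_3755f6_co

open Finset Complex

variable {V E : Type*} [DecidableEq V] [Fintype V] [Fintype E] [DecidableEq E]

/-- a reflection of an oriented multigraph in a pair of edge-bisecting planes -/
structure Refl (src tgt : E → V) where
  θV : V → V
  θE : E → E
  ε : E → ℤˣ
  side : V → Bool
  L : E → Bool
  R : E → Bool
  invV : ∀ x, θV (θV x) = x
  invE : ∀ e, θE (θE e) = e
  εθ : ∀ e, ε (θE e) = ε e
  sideθ : ∀ x, side (θV x) = !side x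
  kapθ : ∀ x e, kap src tgt x (θE e) * ((ε e : ℤ) : ℝ) = -kap src tgt (θV x) e
  LR : ∀ e, L e = true → R e = false
  Lθ : ∀ e, L (θE e) = R e
  cross : ∀ e, L e = false → R e = false → θE e = e ∧ ε e = 1
  kapR : ∀ x e, side x = true → R e = true → kap src tgt x e = 0

/-- resampling the coordinates in `p` -/
def mix (p : E → Bool) (η ζ : E → ℤˣ) : E → ℤˣ := fun e => if p e then ζ e else η e

lemma sum_mix (p : E → Bool) (f : (E → ℤˣ) → ℂ) :
    ∑ η, ∑ ζ, f (mix p η ζ) = Fintype.card (E → ℤˣ) * ∑ η, f η := by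
  have hinv : Function.Involutive (fun z : (E → ℤˣ) × (E → ℤˣ) => (mix p z.1 z.2, mix p z.2 z.1)) := by
    rintro ⟨η, ζ⟩
    ext e <;> simp only [mix] <;> split_ifs <;> rfl
  have := Equiv.sum_comp hinv.toPerm (fun z => f z.1)
  simp only [Function.Involutive.coe_toPerm, Fintype.sum_prod_type, Finset.sum_const, card_univ,
    nsmul_eq_mul] at this
  rw [this, Finset.mul_sum]

namespace Refl

variable {src tgt : E → V} (r : Refl src tgt)

/-- the reflection on sign configurations -/
def T (η : E → ℤˣ) : E → ℤˣ := fun e => r.ε e * η (r.θE e)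

omit [Fintype V] [Fintype E] [DecidableEq E] in
lemma T_T (η : E → ℤˣ) : r.T (r.T η) = η := by
  ext e
  simp only [T, r.εθ, r.invE, ← mul_assoc, Int.units_mul_self, one_mul]

omit [Fintype V] in
lemma sum_T (f : (E → ℤˣ) → ℂ) : ∑ η, f (r.T η) = ∑ η, f η :=
  Equiv.sum_comp (Function.Involutive.toPerm _ r.T_T) f

omit [Fintype V] [Fintype E] [DecidableEq E] in
lemma Rθ (e : E) : r.R (r.θE e) = r.L e := by rw [← r.Lθ, r.invE]

omit [Fintype V] [DecidableEq E] in
lemma sum_θ (f : E → ℝ) : ∑ e, f (r.θE e) = ∑ e, f e :=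
  Equiv.sum_comp (Function.Involutive.toPerm _ r.invE) f

/-- reflected coefficient function -/
def tld (h : E → ℝ) : E → ℝ := fun e => -(h (r.θE e) * ((r.ε e : ℤ) : ℝ))

omit [Fintype V] [DecidableEq E] in
lemma lin_T (h : E → ℝ) (η : E → ℤˣ) : lin h (r.T η) = -lin (r.tld h) η := by
  unfold lin
  rw [← r.sum_θ, ← Finset.sum_neg_distrib]
  refine Finset.sum_congr rfl fun e _ => ?_
  simp only [sv, T, tld, r.εθ, r.invE]
  push_cast; ring

omit [Fintype V] in
/-- reflection positivity -/
lemma pos (f : (E → ℤˣ) → ℂ)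
    (hf : ∀ η η' : E → ℤˣ, (∀ e, r.R e = false → η e = η' e) → f η = f η') :
    0 ≤ (∑ η, f η * (starRingEnd ℂ) (f (r.T η))).re := by
  set Pf : (E → ℤˣ) → ℂ := fun η => ∑ ζ, f (mix r.L η ζ) with hPf
  have a1 : ∀ η ζ, f (r.T (mix r.L η ζ)) = f (r.T η) := by
    intro η ζ
    refine hf _ _ fun e he => ?_
    simp only [T, mix, r.Lθ, he]; simp
  have a2 : ∀ η ζ, Pf (mix r.L η ζ) = Pf η := by
    intro η ζ
    refine Finset.sum_congr rfl fun ξ _ => ?_
    congr 1
    ext e
    simp only [mix]; split_ifs <;> rfl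
  have a3 : ∀ η, Pf (r.T η) = Pf η := by
    intro η
    refine Finset.sum_congr rfl fun ξ _ => hf _ _ fun e he => ?_
    simp only [mix]
    split_ifs with h
    · rfl
    · obtain ⟨h1, h2⟩ := r.cross e (by simpa using h) he
      simp [T, h1, h2]
  have b1 := sum_mix r.L (fun η => f η * (starRingEnd ℂ) (f (r.T η)))
  simp only [a1, ← Finset.sum_mul] at b1
  have b2 := r.sum_T (fun η => Pf η * (starRingEnd ℂ) (f (r.T η)))
  simp only [a3, r.T_T] at b2
  have b3 := sum_mix r.L (fun η => Pf η * (starRingEnd ℂ) (f η))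
  simp only [a2, ← Finset.mul_sum, ← map_sum] at b3
  have b4 : (Fintype.card (E → ℤˣ) : ℂ) * (Fintype.card (E → ℤˣ) *
      ∑ η, f η * (starRingEnd ℂ) (f (r.T η))) = ∑ η, Pf η * (starRingEnd ℂ) (Pf η) := by
    rw [← b1, ← b2, ← b3]
  have b5 := congrArg re b4
  simp only [mul_conj, re_sum, ofReal_re] at b5
  rw [← ofReal_natCast, re_ofReal_mul, re_ofReal_mul] at b5
  have b6 : 0 ≤ ∑ η, normSq (Pf η) := Finset.sum_nonneg fun η _ => normSq_nonneg _
  have c : (0 : ℝ) < Fintype.card (E → ℤˣ) := by exact_mod_cast Fintype.card_pos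
  rw [← b5] at b6
  exact (mul_nonneg_iff_of_pos_left c).1 ((mul_nonneg_iff_of_pos_left c).1 b6)

omit [DecidableEq E] in
lemma PP_split (t : ℝ) (η : E → ℤˣ) : PP src tgt t univ η =
    PP src tgt t (univ.filter fun x => r.side x = true) η *
      (starRingEnd ℂ) (PP src tgt t (univ.filter fun x => r.side x = true) (r.T η)) := by
  unfold PP
  rw [← Finset.prod_filter_mul_prod_filter_not univ (fun x => r.side x = true), map_prod]
  congr 1
  symm
  refine Finset.prod_nbij' r.θV r.θV ?_ ?_ (fun x _ => r.invV x) (fun x _ => r.invV x) ?_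
  · intro x hx; simpa [r.sideθ] using hx
  · intro x hx; simpa [r.sideθ] using hx
  · intro x _
    have : r.tld (kap src tgt x) = kap src tgt (r.θV x) := by
      ext e; simp [tld, r.kapθ]
    simp [fac, r.lin_T, this]

/-- left symmetrisation -/
def hm (h : E → ℝ) : E → ℝ := fun e => if r.L e then h e else if r.R e then r.tld h e else 0

/-- right symmetrisation -/
def hp (h : E → ℝ) : E → ℝ := fun e => if r.L e then r.tld h e else if r.R e then h e else 0

end Refl

/-- the quadratic form of Gaussian domination -/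
noncomputable def qf (src tgt : E → V) (t : ℝ) (h : E → ℝ) : ℝ :=
  (∑ η, ((lin h η) ^ 2 : ℝ) * PP src tgt t univ η).re

omit [DecidableEq E] in
lemma lin_congr {k : E → ℝ} {p : E → Bool} (hk : ∀ e, p e = true → k e = 0) {η η' : E → ℤˣ}
    (h : ∀ e, p e = false → η e = η' e) : lin k η = lin k η' := by
  refine Finset.sum_congr rfl fun e _ => ?_
  cases hp : p e
  · simp [sv, h e hp]
  · simp [hk e hp]

lemma Refl.step {src tgt : E → V} (r : Refl src tgt) (t : ℝ) (h : E → ℝ) :
    qf src tgt t (r.hm h) + qf src tgt t (r.hp h) ≤ 2 * qf src tgt t h := by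
  set a := lin (fun e => if r.L e then h e else 0) with ha
  set b := lin (fun e => if r.L e then r.tld h e else 0) with hb
  set c := lin (fun e => if r.L e then 0 else if r.R e then 0 else h e) with hc
  have tt : ∀ e, r.tld (r.tld h) e = h e := by
    intro e
    simp only [Refl.tld, r.invE, r.εθ]
    rcases Int.units_eq_one_or (r.ε e) with h | h <;> simp [h]
  have aT : ∀ η, a (r.T η) = -lin (fun e => if r.R e then r.tld h e else 0) η := by
    intro η
    rw [ha, r.lin_T]
    congr 2
    ext e
    simp only [Refl.tld, r.Lθ]; split_ifs <;> simp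
  have bT : ∀ η, b (r.T η) = -lin (fun e => if r.R e then h e else 0) η := by
    intro η
    rw [hb, r.lin_T]
    congr 2
    ext e
    rw [← tt e]
    simp only [Refl.tld, r.Lθ]; split_ifs <;> simp
  have cT : ∀ η, c (r.T η) = c η := by
    intro η
    refine Finset.sum_congr rfl fun e _ => ?_
    cases h1 : r.L e
    · cases h2 : r.R e
      · obtain ⟨h3, h4⟩ := r.cross e h1 h2
        simp [sv, Refl.T, h3, h4]
      · simp [h2]
    · simp [h1]
  have e1 : ∀ η, lin h η = a η + c η - b (r.T η) := by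
    intro η
    rw [bT, ha, hc]
    simp only [lin, sub_neg_eq_add, ← Finset.sum_add_distrib]
    refine Finset.sum_congr rfl fun e _ => ?_
    cases h1 : r.L e
    · cases h2 : r.R e <;> simp
    · simp [r.LR e h1]
  have e2 : ∀ η, lin (r.hm h) η = a η - a (r.T η) := by
    intro η
    rw [aT, ha]
    simp only [lin, sub_neg_eq_add, ← Finset.sum_add_distrib, Refl.hm]
    refine Finset.sum_congr rfl fun e _ => ?_
    cases h1 : r.L e
    · cases h2 : r.R e <;> simp
    · simp [r.LR e h1]
  have e3 : ∀ η, lin (r.hp h) η = b η - b (r.T η) := by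
    intro η
    rw [bT, hb]
    simp only [lin, sub_neg_eq_add, ← Finset.sum_add_distrib, Refl.hp]
    refine Finset.sum_congr rfl fun e _ => ?_
    cases h1 : r.L e
    · cases h2 : r.R e <;> simp
    · simp [r.LR e h1]
  set Φ := PP src tgt t (univ.filter fun x => r.side x = true) with hΦ
  have p1 := r.pos (fun η => ((a η + c η - b η : ℝ) : ℂ) * Φ η) (by
    intro η η' hη
    have k1 : a η = a η' := lin_congr (p := r.R) (fun e he => by
      cases h1 : r.L e
      · simp
      · simp [r.LR e h1] at he) hη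
    have k2 : b η = b η' := lin_congr (p := r.R) (fun e he => by
      cases h1 : r.L e
      · simp
      · simp [r.LR e h1] at he) hη
    have k3 : c η = c η' := lin_congr (p := r.R) (fun e he => by simp [he]) hη
    have k4 : Φ η = Φ η' := Finset.prod_congr rfl fun x hx => by
      rw [fac, fac, lin_congr (p := r.R) (fun e he => r.kapR x e (mem_filter.1 hx).2 he) hη]
    rw [k1, k2, k3, k4])
  have sym : qf src tgt t h =
      (∑ η, ((a (r.T η) + c η - b η) ^ 2 : ℝ) * PP src tgt t univ η).re := by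
    rw [qf, ← r.sum_T, ← conj_re, map_sum]
    congr 1
    refine Finset.sum_congr rfl fun η _ => ?_
    rw [e1, r.T_T, cT, r.PP_split, r.PP_split t η, r.T_T]
    simp only [map_mul, conj_ofReal, conj_conj]
    ring
  have fin : (∑ η, ((lin h η) ^ 2 : ℝ) * PP src tgt t univ η) +
      (∑ η, ((a (r.T η) + c η - b η) ^ 2 : ℝ) * PP src tgt t univ η) -
      (∑ η, ((lin (r.hm h) η) ^ 2 : ℝ) * PP src tgt t univ η) -
      (∑ η, ((lin (r.hp h) η) ^ 2 : ℝ) * PP src tgt t univ η) =
      (2 : ℝ) * ∑ η, ((a η + c η - b η : ℝ) : ℂ) * Φ η * (starRingEnd ℂ)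
        (((a (r.T η) + c (r.T η) - b (r.T η) : ℝ) : ℂ) * Φ (r.T η)) := by
    rw [← Finset.sum_add_distrib, ← Finset.sum_sub_distrib, ← Finset.sum_sub_distrib,
      Finset.mul_sum]
    refine Finset.sum_congr rfl fun η _ => ?_
    rw [e1, e2, e3, cT, r.PP_split, ← hΦ]
    simp only [map_mul, conj_ofReal]
    push_cast
    ring
  have fin2 := congrArg re fin
  rw [re_ofReal_mul, sub_re, sub_re, add_re, ← sym] at fin2
  unfold qf at fin2 ⊢
  linarith

lemma qf_nonneg {src tgt : E → V} (t : ℝ)
    (hr : ∀ e, ∃ r : Refl src tgt, r.L e = false ∧ r.R e = false) (h : E → ℝ) :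
    0 ≤ qf src tgt t h := by
  classical
  set W : Finset ℝ := insert 0 (univ.image h ∪ univ.image fun e => -h e) with hW
  have hWneg : ∀ y ∈ W, -y ∈ W := by
    intro y hy
    simp only [hW, mem_insert, mem_union, mem_image, mem_univ, true_and] at hy ⊢
    rcases hy with rfl | ⟨e, rfl⟩ | ⟨e, rfl⟩
    · simp
    · exact Or.inr (Or.inr ⟨e, rfl⟩)
    · exact Or.inr (Or.inl ⟨e, by simp⟩)
  set H := Fintype.piFinset (fun _ : E => W) with hH
  have hh : h ∈ H := by
    simp only [hH, Fintype.mem_piFinset, hW, mem_insert, mem_union, mem_image, mem_univ, true_and]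
    exact fun e => Or.inr (Or.inl ⟨e, rfl⟩)
  obtain ⟨k0, hk0, hmin0⟩ := Finset.exists_min_image H (qf src tgt t) ⟨h, hh⟩
  set N : (E → ℝ) → ℝ := fun k => ∑ e, if k e = 0 then 0 else 1 with hN
  obtain ⟨k, hk, hmin⟩ := Finset.exists_min_image
    (H.filter fun k => qf src tgt t k = qf src tgt t k0) N ⟨k0, by simp [hk0]⟩
  obtain ⟨hkH, hkq⟩ := mem_filter.1 hk
  have hz : k = 0 := by
    by_contra hne
    obtain ⟨e0, he0⟩ := Function.ne_iff.1 hne
    obtain ⟨r, hL, hR⟩ := hr e0
    have htl : ∀ e, r.tld k e ∈ W := by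
      intro e
      have := Fintype.mem_piFinset.1 hkH (r.θE e)
      unfold Refl.tld
      rcases Int.units_eq_one_or (r.ε e) with h | h
      · simpa [h] using hWneg _ this
      · simpa [h] using this
    have m1 : r.hm k ∈ H := Fintype.mem_piFinset.2 fun e => by
      unfold Refl.hm
      split_ifs
      · exact Fintype.mem_piFinset.1 hkH e
      · exact htl e
      · exact mem_insert_self _ _
    have m2 : r.hp k ∈ H := Fintype.mem_piFinset.2 fun e => by
      unfold Refl.hp
      split_ifs
      · exact htl e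
      · exact Fintype.mem_piFinset.1 hkH e
      · exact mem_insert_self _ _
    have s := r.step t k
    have s1 := hmin0 _ m1
    have s2 := hmin0 _ m2
    have n1 := hmin (r.hm k) (mem_filter.2 ⟨m1, by linarith⟩)
    have n2 := hmin (r.hp k) (mem_filter.2 ⟨m2, by linarith⟩)
    have n3 : N (r.hm k) + N (r.hp k) < N k + ∑ e, if k (r.θE e) = 0 then (0:ℝ) else 1 := by
      simp only [hN, ← Finset.sum_add_distrib]
      have ht0 : ∀ e, r.tld k e = 0 ↔ k (r.θE e) = 0 := by
        intro e; simp [Refl.tld]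
      refine Finset.sum_lt_sum (fun e _ => ?_) ⟨e0, mem_univ _, ?_⟩
      · rcases Bool.eq_false_or_eq_true (r.L e) with h1 | h1
        · simp only [Refl.hm, Refl.hp, h1, if_true, ht0]; linarith
        · rcases Bool.eq_false_or_eq_true (r.R e) with h2 | h2
          · simp only [Refl.hm, Refl.hp, h1, h2, Bool.false_eq_true, if_false, if_true, ht0]
            linarith
          · simp only [Refl.hm, Refl.hp, h1, h2, Bool.false_eq_true, if_false, if_true]
            split_ifs <;> norm_num
      · simp only [Refl.hm, Refl.hp, hL, hR, Bool.false_eq_true, if_false, if_true]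
        rw [if_neg (show ¬ k e0 = 0 from he0)]
        split_ifs <;> norm_num
    rw [r.sum_θ (fun e => if k e = 0 then (0:ℝ) else 1)] at n3
    simp only [hN] at n1 n2 n3
    linarith
  have : qf src tgt t k = 0 := by simp [hz, qf, lin]
  linarith [hmin0 h hh]

/-- the infrared bound -/
lemma infrared {src tgt : E → V} {nb : V → Finset V} (hR : Rep src tgt nb) (t : ℝ)
    (hr : ∀ e, ∃ r : Refl src tgt, r.L e = false ∧ r.R e = false) (h : E → ℝ) :
    ∑ x, ∑ y ∈ univ.erase x, (∑ e, kap src tgt x e * h e) * (∑ e, kap src tgt y e * h e) *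
        ZZ src tgt t ((univ.erase x).erase y) ≤
      ∑ e, h e ^ 2 * (ZZ src tgt t univ -
        2 * ZZ src tgt t ((univ.erase (src e)).erase (tgt e))) := by
  have q := qf_nonneg t hr h
  set G : E → E → ℝ := fun e e' => ∑ x, ∑ y ∈ univ.erase x, kap src tgt x e * kap src tgt y e' *
    ZZ src tgt t ((univ.erase x).erase y) with hG
  have g1 : ∀ e, G e e = -2 * ZZ src tgt t ((univ.erase (src e)).erase (tgt e)) := by
    intro e
    have hne := hR.1 e
    simp only [hG, kap, sub_mul, mul_sub, Finset.sum_sub_distrib, ite_mul, one_mul, zero_mul,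
      Finset.sum_ite_irrel, Finset.sum_const_zero, Finset.sum_ite_eq, mem_univ, if_true,
      mem_erase, ne_eq, not_true_eq_false, and_true, if_false, hne, hne.symm, not_false_eq_true]
    rw [Finset.erase_right_comm (a := tgt e)]
    ring
  have g2 : ∀ e e', ∑ η, (sv η e : ℂ) * sv η e' * PP src tgt t univ η =
      (Fintype.card (E → ℤˣ) : ℝ) *
        ((if e' = e then ZZ src tgt t univ + G e e' else 0) - G e e' : ℝ) := by
    intro e e'
    split_ifs with he
    · subst he
      have : ∀ η, (sv η e' : ℂ) * sv η e' = 1 := fun η => by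
        rw [← sq]; exact_mod_cast sv_sq η e'
      simp only [this, one_mul, sum_PP hR]
      push_cast; ring
    · rw [ibp src tgt t e (hR.1 e) (fun η => (sv η e' : ℂ)) (fun η => by rw [sv_flp_ne η he])]
      have : ∀ x, ∑ η, (sv η e' : ℂ) * PP src tgt t (univ.erase x) η =
          I * ∑ y ∈ univ.erase x, (kap src tgt y e' : ℂ) * (Fintype.card (E → ℤˣ) *
            ZZ src tgt t ((univ.erase x).erase y)) := by
        intro x
        have := ibp src tgt t e' (hR.1 e') (fun _ => 1) (fun _ => rfl) (univ.erase x)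
        simpa only [mul_one, one_mul, sum_PP hR] using this
      simp only [this, hG]
      push_cast
      simp only [Finset.mul_sum, zero_sub, mul_neg, ← Finset.sum_neg_distrib]
      refine Finset.sum_congr rfl fun x _ => Finset.sum_congr rfl fun y _ => ?_
      linear_combination (kap src tgt x e * kap src tgt y e' * Fintype.card (E → ℤˣ) *
        ZZ src tgt t ((univ.erase x).erase y) : ℂ) * I_sq
  have g3 : ∑ η, (((lin h η) ^ 2 : ℝ) : ℂ) * PP src tgt t univ η =
      ((Fintype.card (E → ℤˣ) * ∑ e, ∑ e', h e * h e' *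
        ((if e' = e then ZZ src tgt t univ + G e e' else 0) - G e e') : ℝ) : ℂ) := by
    have : ∀ η, (((lin h η) ^ 2 : ℝ) : ℂ) * PP src tgt t univ η =
        ∑ e, ∑ e', (h e * h e' : ℂ) * ((sv η e : ℂ) * sv η e' * PP src tgt t univ η) := by
      intro η
      rw [sq, lin, Finset.sum_mul_sum]
      push_cast
      rw [Finset.sum_mul]
      refine Finset.sum_congr rfl fun e _ => ?_
      rw [Finset.sum_mul]
      exact Finset.sum_congr rfl fun e' _ => by ring
    simp only [this]
    rw [Finset.sum_comm, ofReal_mul, ofReal_sum, Finset.mul_sum]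
    refine Finset.sum_congr rfl fun e _ => ?_
    rw [Finset.sum_comm, ofReal_sum, Finset.mul_sum]
    refine Finset.sum_congr rfl fun e' _ => ?_
    rw [← Finset.mul_sum, g2]
    push_cast; ring
  rw [qf, g3, ofReal_re] at q
  have c : (0 : ℝ) < Fintype.card (E → ℤˣ) := by exact_mod_cast Fintype.card_pos
  have q3 : 0 ≤ ∑ e, ∑ e', h e * h e' *
        ((if e' = e then ZZ src tgt t univ + G e e' else 0) - G e e') :=
    (mul_nonneg_iff_of_pos_left c).1 q
  simp only [mul_sub, Finset.sum_sub_distrib, mul_ite, mul_zero, Finset.sum_ite_eq', mem_univ,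
    if_true, g1] at q3
  have g4 : ∑ x, ∑ y ∈ univ.erase x, (∑ e, kap src tgt x e * h e) * (∑ e, kap src tgt y e * h e) *
        ZZ src tgt t ((univ.erase x).erase y) = ∑ e, ∑ e', h e * h e' * G e e' := by
    simp only [hG, Finset.sum_mul_sum]
    simp only [Finset.mul_sum, Finset.sum_mul]
    rw [Finset.sum_congr rfl fun x _ => Finset.sum_comm, Finset.sum_comm]
    refine Finset.sum_congr rfl fun e _ => ?_
    rw [Finset.sum_congr rfl fun x _ => Finset.sum_comm, Finset.sum_comm]
    refine Finset.sum_congr rfl fun e' _ => Finset.sum_congr rfl fun x _ =>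
      Finset.sum_congr rfl fun y _ => by ring
  rw [g4]
  have g5 : ∑ e, h e ^ 2 * (ZZ src tgt t univ -
        2 * ZZ src tgt t ((univ.erase (src e)).erase (tgt e))) = ∑ e, h e * h e *
        (ZZ src tgt t univ + -2 * ZZ src tgt t ((univ.erase (src e)).erase (tgt e))) :=
    Finset.sum_congr rfl fun e _ => by ring
  linarith

end Pool.Agent.Lib.MP_3755f6_co
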