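import Pool.Agent.Lib.MP_3755f6_co.Fin

namespace Pool.Agent.Lib.MP_3755f6_co

open Finset MeasureTheory Matrix

lemma spec {ι : Type*} [Fintype ι] [DecidableEq ι] (M : Matrix ι ι ℝ) (hM : ∀ i j, M i j = M j i)
    (q : ℝ) (hq : ∀ i, ∑ j, |M i j| ≤ q) :
    ∃ (lam : ι → ℝ) (Φ : (ι → ℝ) →ₗ[ℝ] (ι → ℝ)), (∀ i, |lam i| ≤ q) ∧
      (∀ u v, ∑ i, Φ u i * Φ v i = ∑ i, u i * v i) ∧ ∀ u i, Φ (M *ᵥ u) i = lam i * Φ u i := by
  have hH : M.IsHermitian := by
    ext i j; simp [hM i j]
  let E : Matrix ι ι ℝ := Matrix.of fun i j => hH.eigenvectorBasis i j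
  have hE : ∀ i, M *ᵥ (E i) = hH.eigenvalues i • E i := fun i => hH.mulVec_eigenvectorBasis i
  refine ⟨hH.eigenvalues, Matrix.mulVecLin E, fun i => ?_, fun u v => ?_, fun u i => ?_⟩
  · obtain ⟨k, -, hk⟩ := Finset.exists_max_image univ (fun j => |E i j|) ⟨i, mem_univ _⟩
    have hne : E i ≠ 0 := by
      intro h
      have h1 := hH.eigenvectorBasis.orthonormal.ne_zero i
      apply h1
      ext j
      exact congrFun h j
    have hpos : 0 < |E i k| := by
      by_contra hc
      apply hne
      ext j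
      have := hk j (mem_univ _)
      have h3 : |E i j| ≤ 0 := by linarith
      simpa using h3
    have h1 : hH.eigenvalues i * E i k = ∑ j, M k j * E i j := by
      have := congrFun (hE i) k
      simp only [Pi.smul_apply, smul_eq_mul] at this
      rw [← this]; rfl
    have h2 : |hH.eigenvalues i| * |E i k| ≤ q * |E i k| := by
      rw [← abs_mul, h1]
      refine (Finset.abs_sum_le_sum_abs _ _).trans ?_
      refine le_trans ?_ (mul_le_mul_of_nonneg_right (hq k) hpos.le)
      rw [Finset.sum_mul]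
      refine Finset.sum_le_sum fun j _ => ?_
      rw [abs_mul]
      exact mul_le_mul_of_nonneg_left (hk j (mem_univ _)) (abs_nonneg _)
    exact le_of_mul_le_mul_right h2 hpos
  · have := hH.eigenvectorBasis.sum_inner_mul_inner (WithLp.toLp 2 u) (WithLp.toLp 2 v)
    simp only [PiLp.inner_apply, RCLike.inner_apply, conj_trivial] at this
    simp only [Matrix.mulVecLin_apply, Matrix.mulVec, dotProduct, E, Matrix.of_apply]
    rw [show ∑ i, u i * v i = ∑ i, v i * u i from Finset.sum_congr rfl fun i _ => mul_comm _ _,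
      ← this]
    refine Finset.sum_congr rfl fun i _ => ?_
    congr 1
    exact Finset.sum_congr rfl fun j _ => mul_comm _ _
  · simp only [Matrix.mulVecLin_apply]
    have h1 : (E *ᵥ (M *ᵥ u)) i = (M *ᵥ E i) ⬝ᵥ u := by
      simp only [Matrix.mulVec, dotProduct, Finset.mul_sum, Finset.sum_mul]
      rw [Finset.sum_comm]
      refine Finset.sum_congr rfl fun j _ => Finset.sum_congr rfl fun k _ => ?_
      rw [hM j k]; ring
    rw [h1, hE i, smul_dotProduct, smul_eq_mul]; rfl

variable {V : Type*} [DecidableEq V] [Fintype V]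

/-- adjacency matrix of the path tree -/
noncomputable def tmat (nb : V → Finset V) (x : V) : Matrix (paths nb x) (paths nb x) ℝ :=
  fun l k => (if k.1 = l.1.tail then 1 else 0) + (if l.1 = k.1.tail then 1 else 0)

lemma tmat_mulVec (nb : V → Finset V) (x : V) (g : List V → ℝ) (hg : g [] = 0)
    (l : paths nb x) :
    (tmat nb x *ᵥ fun k => g k.1) l = g l.1.tail + ∑ w ∈ ch nb l.1, g (w :: l.1) := by
  simp only [Matrix.mulVec, dotProduct, tmat, add_mul, Finset.sum_add_distrib]
  congr 1
  · rw [Finset.sum_coe_sort (paths nb x) (fun k => (if k = l.1.tail then 1 else 0) * g k)]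
    simp only [ite_mul, one_mul, zero_mul, Finset.sum_ite_eq']
    split_ifs with h
    · rfl
    · rcases (mem_paths.1 l.2).cases' with e | ⟨w, z, l', e, h1, -⟩
      · rw [e]; exact hg.symm
      · rw [e] at h; exact absurd (mem_paths.2 h1) h
  · rw [Finset.sum_coe_sort (paths nb x) (fun k => (if l.1 = k.tail then 1 else 0) * g k),
      sum_paths]
    have h0 : l.1 ≠ [] := (mem_paths.1 l.2).ne_nil
    simp only [List.tail_cons, if_neg h0, zero_mul, zero_add, ite_mul, one_mul]
    rw [Finset.sum_eq_single l.1]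
    · simp
    · intro k _ hk
      simp [Ne.symm hk]
    · intro h; exact absurd l.2 h

lemma tmat_row (nb : V → Finset V) (x : V) (q : ℕ) (hq : ∀ y, (nb y).card ≤ q)
    (l : paths nb x) : ∑ k, |tmat nb x l k| ≤ (q : ℝ) + 1 := by
  have h1 := tmat_mulVec nb x (fun k => if k = [] then 0 else 1) (by simp) l
  have h2 : ∑ k, |tmat nb x l k| = (tmat nb x *ᵥ fun k => if k.1 = [] then 0 else 1) l := by
    simp only [Matrix.mulVec, dotProduct]
    refine Finset.sum_congr rfl fun k _ => ?_
    rw [if_neg (mem_paths.1 k.2).ne_nil, mul_one, abs_of_nonneg]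
    unfold tmat
    positivity
  rw [h2, h1]
  have h3 : ((ch nb l.1).card : ℝ) ≤ q := by
    obtain ⟨l, hl⟩ := l
    cases l with
    | nil => simp [ch]
    | cons z l => exact_mod_cast (card_filter_le _ _).trans (hq z)
  simp only [reduceCtorEq, if_false, Finset.sum_const, nsmul_eq_mul, mul_one]
  split_ifs <;> linarith

/-- probability measures carried by `[-q,q]` -/
def Good (q : ℝ) (ν : Measure ℝ) : Prop := IsProbabilityMeasure ν ∧ ∀ᵐ x ∂ν, |x| ≤ q

lemma exists_measure {ι : Type*} [Fintype ι] (w lam : ι → ℝ) (hw : ∀ i, 0 ≤ w i)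
    (hs : ∑ i, w i = 1) (q : ℝ) (hq : ∀ i, |lam i| ≤ q) :
    ∃ ν : Measure ℝ, Good q ν ∧ ∀ g : ℝ → ℝ, Measurable g → ∫ x, g x ∂ν = ∑ i, w i * g (lam i) := by
  refine ⟨∑ i, ENNReal.ofReal (w i) • Measure.dirac (lam i), ⟨⟨?_⟩, ?_⟩, fun g hg => ?_⟩
  · rw [Measure.finset_sum_apply]
    simp only [Measure.smul_apply, measure_univ, smul_eq_mul, mul_one]
    rw [← ENNReal.ofReal_sum_of_nonneg (fun i _ => hw i), hs, ENNReal.ofReal_one]
  · rw [ae_iff, Measure.finset_sum_apply]
    refine Finset.sum_eq_zero fun i _ => ?_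
    rw [Measure.smul_apply, Measure.dirac_apply, Set.indicator_of_notMem, smul_zero]
    simpa using hq i
  · rw [integral_finset_sum_measure]
    · refine Finset.sum_congr rfl fun i _ => ?_
      rw [integral_smul_measure, integral_dirac, ENNReal.toReal_ofReal (hw i), smul_eq_mul]
    · intro i _
      exact (integrable_dirac (by simp)).smul_measure ENNReal.ofReal_ne_top

/-- real and imaginary parts of the powers of `i` -/
def al : ℕ → ℝ × ℝ
  | 0 => (0, -1)
  | k + 1 => (-(al k).2, (al k).1)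

lemma al_sq (k : ℕ) : (al k).1 ^ 2 + (al k).2 ^ 2 = 1 := by
  induction k with
  | zero => simp [al]
  | succ k ih => simp only [al]; linarith

theorem finite_spec (nb : V → Finset V) (q : ℕ) (hq : ∀ y, (nb y).card ≤ q) (S : Finset V)
    (x : V) (hx : x ∈ S) :
    ∃ ν : Measure ℝ, Good ((q : ℝ) + 1) ν ∧
      (∀ n : ℕ, ∫ y, y ^ n ∂ν = NN (fun y => nb y ∩ S) n [x]) ∧
      ∀ (t : ℝ) (Z : Finset V → ℝ), 0 < t → IsZ nb t Z →
        ∫ y, 1 / (t ^ 2 + y ^ 2) ∂ν = Z (S.erase x) / (t * Z S) ∧
        ∀ (p : Polynomial ℝ) (k : ℕ), p.natDegree < k →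
          ∑ l ∈ (paths (fun y => nb y ∩ S) x).filter (fun l => k < l.length),
            (Z (rem S l) / Z S) ^ 2 ≤
          ∫ y, ((1 - y * p.eval y) ^ 2 + t ^ 2 * p.eval y ^ 2) / (t ^ 2 + y ^ 2) ∂ν := by
  set nbS : V → Finset V := fun y => nb y ∩ S with hnbS
  obtain ⟨lam, Φ, h1, h2, h3⟩ := spec (tmat nbS x) (fun i j => by simp only [tmat]; ring)
    ((q : ℝ) + 1) (tmat_row nbS x q fun y => (card_le_card inter_subset_left).trans (hq y))
  have hx' : [x] ∈ paths nbS x := mem_paths.2 IsP.root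
  set v : ℕ → paths nbS x → ℝ := fun n l => NN nbS n l.1 with hv
  have hv0 : ∀ g : List V → ℝ, ∑ l : paths nbS x, v 0 l * g l.1 = g [x] := by
    intro g
    rw [Finset.sum_eq_single ⟨[x], hx'⟩]
    · simp [hv, NN]
    · rintro ⟨l, hl⟩ _ hne
      rcases (mem_paths.1 hl).cases' with e | ⟨w, z, l', e, -, -⟩
      · exact absurd (Subtype.ext e) hne
      · subst e; simp [hv, NN]
    · intro h; exact absurd (mem_univ _) h
  have hvs : ∀ n, v (n + 1) = tmat nbS x *ᵥ v n := by
    intro n
    ext l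
    rw [hv, tmat_mulVec nbS x (NN nbS n) (NN_nil _ _)]
    obtain ⟨l, hl⟩ := l
    cases l with
    | nil => exact absurd rfl (mem_paths.1 hl).ne_nil
    | cons z l => exact NN_succ _ _ _ _
  set c := Φ (v 0) with hc
  have hΦv : ∀ n i, Φ (v n) i = lam i ^ n * c i := by
    intro n i
    induction n with
    | zero => simp [hc]
    | succ n ih => rw [hvs, h3, ih]; ring
  have hmom : ∀ n : ℕ, ∑ i, c i ^ 2 * lam i ^ n = NN nbS n [x] := by
    intro n
    rw [← hv0 (NN nbS n), ← h2 (v 0) (v n)]
    refine Finset.sum_congr rfl fun i _ => ?_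
    rw [hΦv n, ← hc]; ring
  obtain ⟨ν, hν1, hν2⟩ := exists_measure (fun i => c i ^ 2) lam (fun i => sq_nonneg _)
    (by simpa [NN] using hmom 0) _ h1
  refine ⟨ν, hν1, fun n => by rw [hν2 _ (by fun_prop), hmom], fun t Z ht hZ => ?_⟩
  have hZS := hZ.pos ht S
  set F : List V → ℝ := fun l => Z (rem S l) / Z S with hF
  set a : List V → ℝ := fun l => if l = [] then 0 else (al l.length).1 * F l with ha
  set b : List V → ℝ := fun l => if l = [] then 0 else (al l.length).2 * F l with hb
  have hrec : ∀ l ∈ paths nbS x, F l.tail = t * F l + ∑ w ∈ ch nbS l, F (w :: l) := by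
    intro l hl
    simp only [hF]
    rw [hZ.path_rec hx hl, ← Finset.sum_div]; ring
  have hF0 : F [] = 1 := by simp [hF, rem_nil, hZS.ne']
  have e1 : (tmat nbS x *ᵥ fun k => b k.1) = v 0 - t • fun k => a k.1 := by
    ext l
    rw [tmat_mulVec nbS x b (by simp [hb])]
    obtain ⟨l, hl⟩ := l
    have r := hrec l hl
    rcases (mem_paths.1 hl).cases' with e | ⟨w, z, l', e, -, -⟩
    · subst e
      simp only [List.tail_cons, hF0] at r
      simp [ha, hb, hv, NN, al]
      linarith
    · subst e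
      simp only [List.tail_cons] at r
      simp only [ha, hb, hv, NN, al, List.tail_cons, reduceCtorEq, if_false, List.length_cons,
        Pi.sub_apply, Pi.smul_apply, smul_eq_mul, ← Finset.mul_sum, r]
      rw [if_neg (by omega)]
      ring
  have e2 : (tmat nbS x *ᵥ fun k => a k.1) = t • fun k => b k.1 := by
    ext l
    rw [tmat_mulVec nbS x a (by simp [ha])]
    obtain ⟨l, hl⟩ := l
    have r := hrec l hl
    rcases (mem_paths.1 hl).cases' with e | ⟨w, z, l', e, -, -⟩
    · subst e
      simp [ha, hb, al]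
    · subst e
      simp only [List.tail_cons] at r
      simp only [ha, hb, al, List.tail_cons, reduceCtorEq, if_false, List.length_cons,
        Pi.smul_apply, smul_eq_mul, ← Finset.mul_sum, r]
      ring
  have hden : ∀ i, 0 < t ^ 2 + lam i ^ 2 := fun i => by positivity
  have f1 : ∀ i, lam i * Φ (fun k => b k.1) i = c i - t * Φ (fun k => a k.1) i := by
    intro i
    rw [← h3, e1, map_sub, map_smul]; simp [hc]
  have f2 : ∀ i, lam i * Φ (fun k => a k.1) i = t * Φ (fun k => b k.1) i := by
    intro i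
    rw [← h3, e2, map_smul]; simp
  have g1 : ∀ i, Φ (fun k => a k.1) i = t * c i / (t ^ 2 + lam i ^ 2) := by
    intro i
    rw [eq_div_iff (hden i).ne']
    linear_combination t * f1 i + lam i * f2 i
  have g2 : ∀ i, Φ (fun k => b k.1) i = lam i * c i / (t ^ 2 + lam i ^ 2) := by
    intro i
    rw [eq_div_iff (hden i).ne']
    linear_combination lam i * f1 i - t * f2 i
  have main : ∀ p : Polynomial ℝ, ∑ l : paths nbS x, (a l.1 ^ 2 + (b l.1 -
      ∑ n ∈ range (p.natDegree + 1), p.coeff n * NN nbS n l.1) ^ 2) =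
      ∫ y, ((1 - y * p.eval y) ^ 2 + t ^ 2 * p.eval y ^ 2) / (t ^ 2 + y ^ 2) ∂ν := by
    intro p
    rw [hν2 _ (by fun_prop), Finset.sum_add_distrib]
    set u : paths nbS x → ℝ := (fun k => b k.1) - ∑ n ∈ range (p.natDegree + 1), p.coeff n • v n
      with hu
    have k1 := h2 (fun k => a k.1) (fun k => a k.1)
    have k2 := h2 u u
    have k3 : ∀ i, Φ u i = lam i * c i / (t ^ 2 + lam i ^ 2) - p.eval (lam i) * c i := by
      intro i
      rw [hu, map_sub, map_sum, Pi.sub_apply, g2, Finset.sum_apply, Polynomial.eval_eq_sum_range,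
        Finset.sum_mul]
      congr 1
      refine Finset.sum_congr rfl fun n _ => ?_
      rw [map_smul, Pi.smul_apply, hΦv, smul_eq_mul]; ring
    have k4 : ∀ l : paths nbS x, (b l.1 -
      ∑ n ∈ range (p.natDegree + 1), p.coeff n * NN nbS n l.1) ^ 2 = u l * u l := by
      intro l
      simp [hu, hv, Finset.sum_apply, sq]
    simp only [k4, sq (a _)]
    rw [← k1, ← k2, ← Finset.sum_add_distrib]
    refine Finset.sum_congr rfl fun i _ => ?_
    rw [g1, k3]
    have := hden i
    field_simp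
    ring
  have hab : ∀ l ∈ paths nbS x, a l ^ 2 + b l ^ 2 = F l ^ 2 := by
    intro l hl
    simp only [ha, hb, if_neg (mem_paths.1 hl).ne_nil, mul_pow]
    rw [← add_mul, al_sq, one_mul]
  constructor
  · have m0 := main 0
    simp only [Polynomial.coeff_zero, zero_mul, Finset.sum_const_zero, sub_zero,
      Polynomial.eval_zero, mul_zero, one_pow, ne_eq, OfNat.ofNat_ne_zero, not_false_eq_true,
      zero_pow, add_zero] at m0
    rw [← m0, Finset.sum_coe_sort (paths nbS x) (fun l => a l ^ 2 + b l ^ 2),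
      Finset.sum_congr rfl hab]
    have := hZ.chi hx
    simp only [hF, div_pow]
    rw [← Finset.sum_div, div_eq_div_iff (by positivity) (by positivity)]
    linear_combination Z S * this
  · intro p k hk
    rw [← main p, Finset.sum_coe_sort (paths nbS x) (fun l => a l ^ 2 + (b l -
      ∑ n ∈ range (p.natDegree + 1), p.coeff n * NN nbS n l) ^ 2), Finset.sum_filter]
    refine Finset.sum_le_sum fun l hl => ?_
    split_ifs with h
    · rw [Finset.sum_eq_zero, sub_zero, hab l hl]
      intro n hn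
      rw [NN_eq_zero _ _ _ (by have := mem_range.1 hn; omega), mul_zero]
    · positivity

end Pool.Agent.Lib.MP_3755f6_co
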