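import Pool.Agent.Lib.MP_3755f6_co.Defs

namespace Pool.Agent.Lib.MP_3755f6_co

open Finset

variable {V : Type*} [DecidableEq V]

/-- possible next vertices of a path -/
def ch (nb : V → Finset V) : List V → Finset V
  | [] => ∅
  | z :: l => (nb z).filter (fun w => w ∉ z :: l)

/-- number of walks of length `n` from a path to the root in the path tree -/
noncomputable def NN (nb : V → Finset V) : ℕ → List V → ℝ
  | 0, l => if l.length = 1 then 1 else 0
  | _ + 1, [] => 0
  | n + 1, z :: l => NN nb n l + ∑ w ∈ ch nb (z :: l), NN nb n (w :: z :: l)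

lemma mem_ch {nb : V → Finset V} {z w : V} {l : List V} :
    w ∈ ch nb (z :: l) ↔ w ∈ nb z ∧ w ∉ z :: l := by
  simp only [ch, mem_filter]

lemma NN_nil (nb : V → Finset V) (n : ℕ) : NN nb n [] = 0 := by
  cases n <;> simp [NN]

lemma NN_succ (nb : V → Finset V) (n : ℕ) (z : V) (l : List V) :
    NN nb (n + 1) (z :: l) = NN nb n l + ∑ w ∈ ch nb (z :: l), NN nb n (w :: z :: l) := by
  simp [NN]

lemma NN_eq_zero (nb : V → Finset V) (n : ℕ) : ∀ l : List V, n + 1 < l.length → NN nb n l = 0 := by
  induction n with
  | zero => intro l hl; simp only [NN]; rw [if_neg (by omega)]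
  | succ n ih =>
    intro l hl
    cases l with
    | nil => simp at hl
    | cons z l =>
      rw [NN_succ, ih l (by simp at hl; omega), Finset.sum_eq_zero, add_zero]
      intro w _
      exact ih _ (by simp at hl ⊢; omega)

lemma iterate_adjOp (G : SimpleGraph V) (nb : V → Finset V) (hnb : ∀ x y, y ∈ nb x ↔ G.Adj x y)
    (u : V) (n : ℕ) : ∀ P : PathVtx G u,
    (adjOp (pathTree G u))^[n] (Set.indicator {rootPath G u} 1) P = NN nb n P.1 := by
  induction n with
  | zero =>
    intro P
    obtain ⟨l, h1, h2, h3⟩ := P
    simp only [Function.iterate_zero, id, NN]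
    by_cases hl : l.length = 1
    · rw [if_pos hl]
      obtain ⟨a, rfl⟩ := List.length_eq_one_iff.1 hl
      have : a = u := by simpa using h3
      subst this
      rw [Set.indicator_of_mem (by rfl)]; rfl
    · rw [if_neg hl, Set.indicator_of_notMem]
      intro h
      have : l = [u] := congrArg Subtype.val h
      exact hl (by simp [this])
  | succ n ih =>
    intro P
    rw [Function.iterate_succ_apply']
    have hfun : (adjOp (pathTree G u))^[n] (Set.indicator {rootPath G u} 1)
        = fun Q => NN nb n Q.1 := funext ih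
    rw [hfun]
    obtain ⟨l, h1, h2, h3⟩ := P
    cases l with
    | nil => simp at h3
    | cons z l =>
    unfold adjOp
    have hinj : Set.InjOn (fun Q : PathVtx G u => Q.1)
        ((pathTree G u).neighborSet ⟨z :: l, h1, h2, h3⟩) := fun a _ b _ h => Subtype.ext h
    rw [← finsum_mem_image (f := fun l => NN nb n l) hinj]
    rw [finsum_mem_eq_sum_of_inter_support_eq (fun l => NN nb n l)
      (t := insert l ((ch nb (z :: l)).image (fun w => w :: z :: l)))]
    · rw [Finset.sum_insert, Finset.sum_image, NN_succ]
      · intro a _ b _ h; simpa using h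
      · simp only [mem_image, not_exists, not_and]
        intro w _ h
        have := congrArg List.length h
        simp at this; omega
    · ext k
      simp only [Set.mem_inter_iff, Set.mem_image, SimpleGraph.mem_neighborSet, Function.mem_support,
        coe_insert, Set.mem_insert_iff, coe_image, mem_coe, pathTree, SimpleGraph.fromRel_adj]
      constructor
      · rintro ⟨⟨Q, ⟨hne, hQ⟩, rfl⟩, hk⟩
        refine ⟨?_, hk⟩
        obtain ⟨m, g1, g2, g3⟩ := Q
        rcases hQ with hQ | hQ
        · right
          cases m with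
          | nil => simp at hQ
          | cons w m =>
            simp only [List.tail_cons] at hQ
            subst hQ
            refine ⟨w, mem_ch.2 ⟨(hnb _ _).2 ?_, ?_⟩, rfl⟩
            · exact (List.isChain_cons_cons.1 g1).1.symm
            · exact (List.nodup_cons.1 g2).1
        · left; simpa using hQ
      · rintro ⟨hk | ⟨w, hw, rfl⟩, hk2⟩
        · subst hk
          refine ⟨?_, hk2⟩
          have hne : k ≠ [] := by rintro rfl; exact hk2 (NN_nil _ _)
          refine ⟨⟨k, h1.tail, (List.nodup_cons.1 h2).2, ?_⟩, ⟨?_, Or.inr rfl⟩, rfl⟩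
          · cases k with
            | nil => exact absurd rfl hne
            | cons a k => simpa using h3
          · intro h
            have := congrArg (fun Q : PathVtx G u => Q.1.length) h
            simp at this
        · refine ⟨?_, hk2⟩
          obtain ⟨hw1, hw2⟩ := mem_ch.1 hw
          refine ⟨⟨w :: z :: l, ?_, List.nodup_cons.2 ⟨hw2, h2⟩, ?_⟩, ⟨?_, Or.inl rfl⟩, rfl⟩
          · exact List.isChain_cons_cons.2 ⟨((hnb _ _).1 hw1).symm, h1⟩
          · simpa using h3
          · intro h
            have := congrArg (fun Q : PathVtx G u => Q.1.length) h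
            simp at this

lemma moment_eq (G : SimpleGraph V) (nb : V → Finset V) (hnb : ∀ x y, y ∈ nb x ↔ G.Adj x y)
    (u : V) (n : ℕ) : moment G u n = NN nb n [u] :=
  iterate_adjOp G nb hnb u n (rootPath G u)

/-- locality of the walk counts -/
lemma NN_map {V' : Type*} [DecidableEq V'] (nb : V → Finset V) (nb' : V' → Finset V')
    (φ : V → V') (ρ : V → ℕ) (R : ℕ) (hρ : ∀ z, ∀ w ∈ nb z, ρ w ≤ ρ z + 1)
    (hinj : ∀ a b, ρ a ≤ R → ρ b ≤ R → φ a = φ b → a = b)
    (himg : ∀ z, ρ z < R → nb' (φ z) = (nb z).image φ) (n : ℕ) :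
    ∀ l : List V, (∀ a ∈ l, ρ a ≤ l.length) → l.length + n ≤ R →
      (∀ z l', l = z :: l' → ∀ a ∈ l', ρ a ≤ l'.length) →
      (∀ k, k <:+ l → ∀ a ∈ k, ρ a ≤ k.length) →
      NN nb n l = NN nb' n (l.map φ) := by
  induction n with
  | zero => intro l _ _ _ _; simp [NN]
  | succ n ih =>
    intro l h1 h2 h3 h4
    cases l with
    | nil => simp [NN]
    | cons z l =>
      have hz : ρ z < R := by
        have := h1 z (by simp); omega
      have hsub : ∀ w ∈ ch nb (z :: l), ρ w ≤ R := by
        intro w hw
        have := hρ z w (mem_ch.1 hw).1; omega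
      rw [List.map_cons, NN_succ, NN_succ]
      congr 1
      · refine ih l (h3 z l rfl) (by simp at h2; omega) ?_ ?_
        · intro z' l' e a ha
          exact h4 l' (by rw [e]; exact ⟨[z, z'], rfl⟩) a ha
        · intro k hk
          exact h4 k (hk.trans (List.suffix_cons z l))
      · have hch : ch nb' (φ z :: l.map φ) = (ch nb (z :: l)).image φ := by
          ext y
          rw [mem_ch, himg z hz, mem_image, mem_image]
          constructor
          · rintro ⟨⟨w, hw, rfl⟩, hy⟩
            refine ⟨w, mem_ch.2 ⟨hw, fun h => hy ?_⟩, rfl⟩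
            rw [← List.map_cons]; exact List.mem_map_of_mem h
          · rintro ⟨w, hw, rfl⟩
            refine ⟨⟨w, (mem_ch.1 hw).1, rfl⟩, fun h => ?_⟩
            rw [← List.map_cons, List.mem_map] at h
            obtain ⟨a, ha, e⟩ := h
            have : a = w := hinj a w (by have := h1 a ha; omega) (hsub w hw) e
            exact (mem_ch.1 hw).2 (this ▸ ha)
        rw [hch, Finset.sum_image (fun a ha b hb e => hinj a b (hsub a ha) (hsub b hb) e)]
        refine Finset.sum_congr rfl fun w hw => ?_
        have hw1 : ∀ a ∈ w :: z :: l, ρ a ≤ (w :: z :: l).length := by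
          intro a ha
          rcases List.mem_cons.1 ha with rfl | ha
          · have := hρ z a (mem_ch.1 hw).1
            have := h1 z (by simp)
            simp at *; omega
          · have := h1 a ha; simp at *; omega
        have := ih (w :: z :: l) hw1 (by simp at h2 ⊢; omega) ?_ ?_
        · simpa using this
        · intro z' l' e a ha
          obtain ⟨-, rfl⟩ := List.cons.inj e
          exact h1 a ha
        · intro k hk
          rcases List.suffix_cons_iff.1 hk with rfl | hk
          · exact hw1
          · exact h4 k hk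

lemma NN_map_single {V' : Type*} [DecidableEq V'] (nb : V → Finset V) (nb' : V' → Finset V')
    (φ : V → V') (ρ : V → ℕ) (R : ℕ) (hρ : ∀ z, ∀ w ∈ nb z, ρ w ≤ ρ z + 1)
    (hinj : ∀ a b, ρ a ≤ R → ρ b ≤ R → φ a = φ b → a = b)
    (himg : ∀ z, ρ z < R → nb' (φ z) = (nb z).image φ) (n : ℕ) (u : V) (hu : ρ u ≤ 1)
    (hn : n + 1 ≤ R) : NN nb n [u] = NN nb' n [φ u] := by
  refine NN_map nb nb' φ ρ R hρ hinj himg n [u] (by simpa using hu) (by simp; omega) ?_ ?_
  · intro z l' e a ha
    obtain ⟨-, rfl⟩ := List.cons.inj e
    simp at ha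
  · intro k hk a ha
    rcases List.suffix_cons_iff.1 hk with rfl | hk
    · simp at ha; subst ha; simpa using hu
    · simp at hk; subst hk; simp at ha

end Pool.Agent.Lib.MP_3755f6_co
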